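import Pool.Agent.MP_bf7174_co.Defs

/-! [BC3] row E -/

set_option autoImplicit false

open scoped InnerProductSpace
open MeasureTheory

namespace BccCov.E

open BccCov

theorem vol_ball (R : ℝ) (hR : 0 ≤ R) :
    volume (Metric.closedBall (0 : EuclideanSpace ℝ (Fin 3)) R) =
      ENNReal.ofReal (4 / 3 * Real.pi * R ^ 3) := by
  rw [EuclideanSpace.volume_closedBall_fin_three, ← ENNReal.ofReal_pow hR,
    ← ENNReal.ofReal_mul (by positivity)]
  congr 1
  ring

theorem density_of_bound (X : Set E3) (r : ℝ) (hr : 0 < r)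
    (h : (∀ R : ℝ, (X ∩ Metric.closedBall (0 : E3) R).Finite) → ∀ η : ℝ, 30 * cc * r ^ 3 * η < 1 →
      ∀ᶠ R in Filter.atTop, η * (4 / 3 * Real.pi * R ^ 3) ≤ NN X R) :
    ENNReal.ofReal (5 * Real.sqrt 5 * Real.pi / 24) ≤
      Filter.liminf
        (fun R : ℝ =>
          ENat.toENNReal (X ∩ Metric.closedBall (0 : EuclideanSpace ℝ (Fin 3)) R).encard *
            MeasureTheory.volume (Metric.closedBall (0 : EuclideanSpace ℝ (Fin 3)) r) /
            MeasureTheory.volume (Metric.closedBall (0 : EuclideanSpace ℝ (Fin 3)) R))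
        Filter.atTop := by
  have hpi := Real.pi_pos
  have hvr : 0 < 4 / 3 * Real.pi * r ^ 3 := by positivity
  by_cases hfin : ∀ R : ℝ, (X ∩ Metric.closedBall (0 : E3) R).Finite
  · refine le_of_forall_lt fun c hc => ?_
    refine lt_of_lt_of_le ?_ (le_refl _)
    -- choose `q` between
    obtain ⟨c', hcc', hc'⟩ := exists_between hc
    refine lt_of_lt_of_le hcc' ?_
    have hc'top : c' ≠ ⊤ := (hc'.trans ENNReal.ofReal_lt_top).ne
    set q : ℝ := c'.toReal with hq
    have hq0 : 0 ≤ q := ENNReal.toReal_nonneg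
    have hcq : c' = ENNReal.ofReal q := (ENNReal.ofReal_toReal hc'top).symm
    have hqlt : q < 5 * Real.sqrt 5 * Real.pi / 24 := by
      rw [hcq] at hc'
      exact (ENNReal.ofReal_lt_ofReal_iff (by positivity)).1 hc'
    set η : ℝ := q / (4 / 3 * Real.pi * r ^ 3) with hη
    have hη1 : 30 * cc * r ^ 3 * η < 1 := by
      have h5 : Real.sqrt 5 * Real.sqrt 5 = 5 := Real.mul_self_sqrt (by norm_num)
      have h50 : 0 < Real.sqrt 5 := Real.sqrt_pos.2 (by norm_num)
      have e1 : 30 * cc * r ^ 3 * η = 24 * Real.sqrt 5 * q / (25 * Real.pi) := by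
        rw [hη, cc]
        field_simp
        ring
      rw [e1, div_lt_one (by positivity)]
      have e2 : 24 * Real.sqrt 5 * q < 24 * Real.sqrt 5 * (5 * Real.sqrt 5 * Real.pi / 24) :=
        mul_lt_mul_of_pos_left hqlt (by positivity)
      have e3 : 24 * Real.sqrt 5 * (5 * Real.sqrt 5 * Real.pi / 24) = 25 * Real.pi := by
        have : 24 * Real.sqrt 5 * (5 * Real.sqrt 5 * Real.pi / 24) =
          5 * Real.pi * (Real.sqrt 5 * Real.sqrt 5) := by ring
        rw [this, h5]; ring
      linarith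
    refine Filter.le_liminf_of_le (by isBoundedDefault) ?_
    filter_upwards [h hfin η hη1, Filter.eventually_gt_atTop 0] with R hR hR0
    have hvR : 0 < 4 / 3 * Real.pi * R ^ 3 := by positivity
    have hcard : ENat.toENNReal (X ∩ Metric.closedBall (0 : EuclideanSpace ℝ (Fin 3)) R).encard =
        ENNReal.ofReal (NN X R) := by
      rw [← (hfin R).cast_ncard_eq, ENNReal.ofReal_natCast]
      rfl
    rw [hcard, vol_ball r hr.le, vol_ball R hR0.le, ← ENNReal.ofReal_mul (Nat.cast_nonneg _),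
      ← ENNReal.ofReal_div_of_pos hvR, hcq]
    refine ENNReal.ofReal_le_ofReal ?_
    rw [le_div_iff₀ hvR]
    have e4 : η * (4 / 3 * Real.pi * r ^ 3) = q := div_mul_cancel₀ q hvr.ne'
    calc q * (4 / 3 * Real.pi * R ^ 3)
        = (η * (4 / 3 * Real.pi * R ^ 3)) * (4 / 3 * Real.pi * r ^ 3) := by rw [← e4]; ring
      _ ≤ NN X R * (4 / 3 * Real.pi * r ^ 3) := mul_le_mul_of_nonneg_right hR hvr.le
  · push Not at hfin
    obtain ⟨R₀, hR₀⟩ := hfin
    refine Filter.le_liminf_of_le (by isBoundedDefault) ?_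
    filter_upwards [Filter.eventually_ge_atTop R₀, Filter.eventually_gt_atTop 0] with R hR hR0
    have hinf : (X ∩ Metric.closedBall (0 : EuclideanSpace ℝ (Fin 3)) R).Infinite :=
      hR₀.mono (Set.inter_subset_inter_right _ (Metric.closedBall_subset_closedBall hR))
    rw [hinf.encard_eq, ENat.toENNReal_top, vol_ball r hr.le, vol_ball R hR0.le]
    have h1 : ENNReal.ofReal (4 / 3 * Real.pi * r ^ 3) ≠ 0 := by
      rw [Ne, ENNReal.ofReal_eq_zero, not_le]; exact hvr
    rw [ENNReal.top_mul h1, ENNReal.top_div_of_ne_top ENNReal.ofReal_ne_top]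
    exact le_top

end BccCov.E

namespace BccCov
export E (density_of_bound)
end BccCov
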