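import Pool.Agent.MP_bf7174_co.Defs

/-!
# [BC3-F] metric and finiteness facts
-/

set_option autoImplicit false

open scoped InnerProductSpace
open MeasureTheory

namespace BccCov.F

/-- **[BC3-F]** Metric and finiteness facts. -/
theorem finiteness {X : Set E3} {D : Set (Finset E3)} {r : ℝ} (hT : IsTriangulation X D)
    (hI : ∀ t ∈ D, Inscribed t r) (hfin : ∀ R : ℝ, (X ∩ Metric.closedBall (0 : E3) R).Finite) :
    (∀ t ∈ D, ∀ y ∈ convexHull ℝ (t : Set E3), ∀ z ∈ convexHull ℝ (t : Set E3), dist y z ≤ 2 * r) ∧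
    (∀ R : ℝ, {t | t ∈ D ∧ ∃ x ∈ t, ‖x‖ ≤ R}.Finite) ∧
    (∀ m : Finset E3, m.Nonempty → {t | t ∈ D ∧ m ⊆ t}.Finite) ∧
    (∀ R : ℝ, Metric.closedBall (0 : E3) R ⊆
      ⋃ t ∈ {t | t ∈ D ∧ ∃ x ∈ t, ‖x‖ ≤ R + 2 * r}, convexHull ℝ (t : Set E3)) := by
  have h1 : ∀ t ∈ D, ∀ y ∈ convexHull ℝ (t : Set E3), ∀ z ∈ convexHull ℝ (t : Set E3),
      dist y z ≤ 2 * r := by
    intro t ht y hy z hz
    obtain ⟨o, ρ, hρ, ho⟩ := hI t ht
    have hsub : convexHull ℝ (t : Set E3) ⊆ Metric.closedBall o ρ := by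
      refine convexHull_min ?_ (convex_closedBall o ρ)
      intro x hx
      rw [Metric.mem_closedBall]
      exact (ho x (Finset.mem_coe.1 hx)).le
    have hy' := Metric.mem_closedBall.1 (hsub hy)
    have hz' := Metric.mem_closedBall.1 (hsub hz)
    have := dist_triangle_right y z o
    linarith
  have h2 : ∀ R : ℝ, {t | t ∈ D ∧ ∃ x ∈ t, ‖x‖ ≤ R}.Finite := by
    intro R
    refine ((hfin (R + 2 * r)).toFinset.powerset.finite_toSet).subset ?_
    rintro t ⟨ht, x, hx, hxR⟩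
    rw [Finset.mem_coe, Finset.mem_powerset]
    intro y hy
    rw [Set.Finite.mem_toFinset]
    refine ⟨hT.vertices t ht y hy, ?_⟩
    rw [mem_closedBall_zero_iff]
    have h3 := h1 t ht y (subset_convexHull ℝ _ (Finset.mem_coe.2 hy)) x
      (subset_convexHull ℝ _ (Finset.mem_coe.2 hx))
    rw [dist_eq_norm] at h3
    have h4 := norm_add_le (y - x) x
    rw [sub_add_cancel] at h4
    linarith
  refine ⟨h1, h2, ?_, ?_⟩
  · rintro m ⟨x, hx⟩
    refine (h2 ‖x‖).subset ?_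
    rintro t ⟨ht, hm⟩
    exact ⟨ht, x, hm hx, le_rfl⟩
  · intro R z hz
    rw [mem_closedBall_zero_iff] at hz
    have hz' : z ∈ ⋃ t ∈ D, convexHull ℝ (t : Set E3) := by
      rw [hT.cover]
      exact Set.mem_univ z
    obtain ⟨t, ht, hzt⟩ := Set.mem_iUnion₂.1 hz'
    have hne : t.Nonempty := by
      rw [← Finset.card_pos, hT.card_eq t ht]
      norm_num
    obtain ⟨x, hx⟩ := hne
    refine Set.mem_iUnion₂.2 ⟨t, ⟨ht, x, hx, ?_⟩, hzt⟩
    have h3 := h1 t ht x (subset_convexHull ℝ _ (Finset.mem_coe.2 hx)) z hzt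
    rw [dist_eq_norm] at h3
    have h4 := norm_add_le (x - z) z
    rw [sub_add_cancel] at h4
    linarith

end BccCov.F

namespace BccCov
export F (finiteness)
end BccCov
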