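import Pool.Agent.MP_bf7174_co.Defs

/-! # [BC3-N] -/

set_option autoImplicit false

open scoped InnerProductSpace
open MeasureTheory

namespace BccCov.N

/-- **[BC3-N]** Different tetrahedra overlap in a null set. -/
theorem null_inter {X : Set E3} {D : Set (Finset E3)} (hT : IsTriangulation X D)
    (t t' : Finset E3) (ht : t ∈ D) (ht' : t' ∈ D) (hne : t ≠ t') :
    volume (convexHull ℝ (t : Set E3) ∩ convexHull ℝ (t' : Set E3)) = 0 := by
  classical
  rw [hT.faceToFace t ht t' ht', ← Finset.coe_inter]
  have hc : (t ∩ t').card ≤ 3 := by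
    by_contra h
    have h4 := hT.card_eq t ht
    have h4' := hT.card_eq t' ht'
    have h1 : t ∩ t' = t := Finset.eq_of_subset_of_card_le Finset.inter_subset_left (by omega)
    have h2 : t ∩ t' = t' := Finset.eq_of_subset_of_card_le Finset.inter_subset_right (by omega)
    exact hne (h1.symm.trans h2)
  refine measure_mono_null (convexHull_subset_affineSpan _) ?_
  refine Measure.addHaar_affineSubspace _ _ ?_
  intro htop
  rcases Finset.eq_empty_or_nonempty (t ∩ t') with he | hn
  · rw [he, Finset.coe_empty, AffineSubspace.span_empty] at htop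
    exact AffineSubspace.bot_ne_top ℝ E3 E3 htop
  · obtain ⟨n, hn'⟩ := Nat.exists_eq_succ_of_ne_zero (Finset.card_pos.2 hn).ne'
    have h1 := finrank_vectorSpan_image_finset_le ℝ (fun x : E3 => x) (t ∩ t') (n := n) hn'
    rw [Finset.image_id'] at h1
    have h2 : (affineSpan ℝ ((t ∩ t' : Finset E3) : Set E3)).direction = ⊤ := by
      rw [htop, AffineSubspace.direction_top]
    rw [direction_affineSpan] at h2
    rw [h2, finrank_top, finrank_euclideanSpace, Fintype.card_fin] at h1
    omega

end BccCov.N

namespace BccCov
export N (null_inter)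
end BccCov
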