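import Pool.Agent.MP_bf7174_co.Defs

/-!
# [BC3-S] elementary facts on `tdih`, `det3` and `dih`
-/

set_option autoImplicit false

open scoped InnerProductSpace

namespace BccCov.S

open BccCov

theorem perp_symm (x y z : E3) (hxy : x ≠ y) : perp (x - y) (z - y) = perp (y - x) (z - x) := by
  have hu : ⟪y - x, y - x⟫_ℝ ≠ 0 := by
    rw [inner_self_ne_zero]
    exact sub_ne_zero.2 hxy.symm
  have h1 : x - y = -(y - x) := by abel
  have h2 : z - y = (z - x) - (y - x) := by abel
  unfold perp
  rw [h1, h2]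
  set u := y - x with hudef
  set v := z - x with hvdef
  have h3 : ⟪-u, v - u⟫_ℝ / ⟪-u, -u⟫_ℝ = 1 - ⟪u, v⟫_ℝ / ⟪u, u⟫_ℝ := by
    rw [inner_neg_neg, inner_neg_left, inner_sub_right]
    field_simp
    ring
  rw [h3]
  module

theorem dih_swap_left (x y z w : E3) (hxy : x ≠ y) : dih y x z w = dih x y z w := by
  unfold dih
  rw [perp_symm x y z hxy, perp_symm x y w hxy]

theorem dih_swap_right (x y z w : E3) : dih x y w z = dih x y z w := by
  unfold dih
  exact InnerProductGeometry.angle_comm _ _

open Classical in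
theorem distinct {x y z w : E3} {t : Finset E3} (hc : t.card = 4)
    (ht : (t : Set E3) = {x, y, z, w}) :
    x ≠ y ∧ x ≠ z ∧ x ≠ w ∧ y ≠ z ∧ y ≠ w ∧ z ≠ w := by
  have h1 : t = {x, y, z, w} := by
    ext a
    rw [← Finset.mem_coe, ht]
    simp
  rw [h1] at hc
  refine ⟨?_, ?_, ?_, ?_, ?_, ?_⟩
  · rintro rfl
    have : ({x, x, z, w} : Finset E3) = {x, z, w} := by simp
    rw [this] at hc
    have := Finset.card_le_three (a := x) (b := z) (c := w)
    omega
  · rintro rfl
    have : ({x, y, x, w} : Finset E3) = {x, y, w} := by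
      ext a; simp; tauto
    rw [this] at hc
    have := Finset.card_le_three (a := x) (b := y) (c := w)
    omega
  · rintro rfl
    have : ({x, y, z, x} : Finset E3) = {x, y, z} := by
      ext a; simp; tauto
    rw [this] at hc
    have := Finset.card_le_three (a := x) (b := y) (c := z)
    omega
  · rintro rfl
    have : ({x, y, y, w} : Finset E3) = {x, y, w} := by simp
    rw [this] at hc
    have := Finset.card_le_three (a := x) (b := y) (c := w)
    omega
  · rintro rfl
    have : ({x, y, z, y} : Finset E3) = {x, y, z} := by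
      ext a; simp; tauto
    rw [this] at hc
    have := Finset.card_le_three (a := x) (b := y) (c := z)
    omega
  · rintro rfl
    have : ({x, y, z, z} : Finset E3) = {x, y, z} := by simp
    rw [this] at hc
    have := Finset.card_le_three (a := x) (b := y) (c := z)
    omega

theorem dih_unique {x y z w x' y' z' w' : E3} {t m : Finset E3} (hc : t.card = 4)
    (hm : (m : Set E3) = {x, y}) (ht : (t : Set E3) = {x, y, z, w})
    (hm' : (m : Set E3) = {x', y'}) (ht' : (t : Set E3) = {x', y', z', w'}) :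
    dih x' y' z' w' = dih x y z w := by
  obtain ⟨h1, h2, h3, h4, h5, h6⟩ := distinct hc ht
  obtain ⟨k1, k2, k3, k4, k5, k6⟩ := distinct hc ht'
  have hzw : (z' = z ∨ z' = w) ∧ (w' = z ∨ w' = w) := by
    have hz : z' ∈ ({x, y, z, w} : Set E3) := by rw [← ht, ht']; simp
    have hw : w' ∈ ({x, y, z, w} : Set E3) := by rw [← ht, ht']; simp
    have hmz : z' ∉ ({x, y} : Set E3) := by
      rw [← hm, hm']
      simp only [Set.mem_insert_iff, Set.mem_singleton_iff, not_or]
      exact ⟨k2.symm, k4.symm⟩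
    have hmw : w' ∉ ({x, y} : Set E3) := by
      rw [← hm, hm']
      simp only [Set.mem_insert_iff, Set.mem_singleton_iff, not_or]
      exact ⟨k3.symm, k5.symm⟩
    simp only [Set.mem_insert_iff, Set.mem_singleton_iff, not_or] at hz hw hmz hmw
    exact ⟨by tauto, by tauto⟩
  have hxy : (x' = x ∧ y' = y) ∨ (x' = y ∧ y' = x) := by
    have : ({x', y'} : Set E3) = {x, y} := by rw [← hm', hm]
    exact Set.pair_eq_pair_iff.1 this
  have hr : dih x' y' z' w' = dih x' y' z w := by
    rcases hzw with ⟨rfl | rfl, rfl | rfl⟩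
    · exact absurd rfl k6
    · rfl
    · exact dih_swap_right _ _ _ _
    · exact absurd rfl k6
  rw [hr]
  rcases hxy with ⟨rfl, rfl⟩ | ⟨rfl, rfl⟩
  · rfl
  · exact dih_swap_left _ _ _ _ h1

theorem tdih_eq (x y z w : E3) (t m : Finset E3) (hc : t.card = 4) (hm : (m : Set E3) = {x, y})
    (ht : (t : Set E3) = {x, y, z, w}) : tdih t m = dih x y z w := by
  have : {θ : ℝ | ∃ x y z w : E3, (m : Set E3) = {x, y} ∧ (t : Set E3) = {x, y, z, w} ∧
      θ = dih x y z w} = {dih x y z w} := by
    ext θ
    simp only [Set.mem_ofPred_eq, Set.mem_singleton_iff]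
    constructor
    · rintro ⟨x', y', z', w', hm', ht', rfl⟩
      exact dih_unique hc hm ht hm' ht'
    · rintro rfl
      exact ⟨x, y, z, w, hm, ht, rfl⟩
  rw [tdih, this, csSup_singleton]

theorem tdih_bounds (t m : Finset E3) : 0 ≤ tdih t m ∧ tdih t m ≤ Real.pi := by
  constructor
  · refine Real.sSup_nonneg ?_
    rintro θ ⟨x, y, z, w, _, _, rfl⟩
    exact InnerProductGeometry.angle_nonneg _ _
  · refine Real.sSup_le ?_ Real.pi_pos.le
    rintro θ ⟨x, y, z, w, _, _, rfl⟩
    exact InnerProductGeometry.angle_le_pi _ _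

theorem det3_ne_zero (x y z w : E3) (t : Finset E3) (hc : t.card = 4)
    (ht : (t : Set E3) = {x, y, z, w})
    (hind : AffineIndependent ℝ (Subtype.val : {x // x ∈ t} → E3)) : det3 x y z w ≠ 0 := by
  obtain ⟨h1, h2, h3, h4, h5, h6⟩ := distinct hc ht
  intro hdet
  have hmem : ∀ i : Fin 4, (![x, y, z, w] : Fin 4 → E3) i ∈ t := by
    intro i
    rw [← Finset.mem_coe, ht]
    fin_cases i <;> simp
  have hinj : Function.Injective (![x, y, z, w] : Fin 4 → E3) := by
    intro i j hij
    fin_cases i <;> fin_cases j <;> first | rfl | exact absurd hij (by assumption) |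
      exact absurd hij.symm (by assumption)
  let f : Fin 4 ↪ {x // x ∈ t} := ⟨fun i => ⟨_, hmem i⟩, fun i j hij =>
    hinj (congrArg Subtype.val hij)⟩
  have hind' : AffineIndependent ℝ (![x, y, z, w] : Fin 4 → E3) := hind.comp_embedding f
  let M : Matrix (Fin 3) (Fin 3) ℝ :=
    !![y 0 - x 0, y 1 - x 1, y 2 - x 2; z 0 - x 0, z 1 - x 1, z 2 - x 2;
      w 0 - x 0, w 1 - x 1, w 2 - x 2]
  have hM : M.det = 0 := by
    rw [← hdet, det3, Matrix.det_fin_three]
    simp only [M, Matrix.of_apply, Matrix.cons_val', Matrix.cons_val_zero, Matrix.cons_val_one,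
      Matrix.cons_val]
    ring
  obtain ⟨v, hv, hvM⟩ := Matrix.exists_vecMul_eq_zero_iff.2 hM
  have hcoord : ∀ i : Fin 3, v 0 * (y i - x i) + v 1 * (z i - x i) + v 2 * (w i - x i) = 0 := by
    intro i
    have := congrFun hvM i
    simp only [Matrix.vecMul, dotProduct, Fin.sum_univ_three, M, Pi.zero_apply] at this
    fin_cases i <;> simpa using this
  have hind2 := (affineIndependent_iff (k := ℝ) (p := ![x, y, z, w])).1 hind' Finset.univ
    ![-(v 0 + v 1 + v 2), v 0, v 1, v 2] (by
      rw [Fin.sum_univ_four]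
      simp only [Matrix.cons_val_zero, Matrix.cons_val_one, Matrix.cons_val]
      ring) (by
      rw [Fin.sum_univ_four]
      simp only [Matrix.cons_val_zero, Matrix.cons_val_one, Matrix.cons_val]
      ext i
      have := hcoord i
      simp only [PiLp.add_apply, PiLp.smul_apply, PiLp.zero_apply, smul_eq_mul]
      linear_combination this)
  apply hv
  funext i
  have k1 := hind2 1 (Finset.mem_univ _)
  have k2 := hind2 2 (Finset.mem_univ _)
  have k3 := hind2 3 (Finset.mem_univ _)
  simp only [Matrix.cons_val_one, Matrix.cons_val] at k1 k2 k3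
  fin_cases i
  · exact k1
  · exact k2
  · exact k3

/-- **[BC3-S]** elementary facts on `tdih`, `det3` and `dih`. -/
theorem tdih_facts :
    (∀ (x y z w : E3) (t m : Finset E3), t.card = 4 → (m : Set E3) = {x, y} →
      (t : Set E3) = {x, y, z, w} → tdih t m = dih x y z w) ∧
    (∀ t m : Finset E3, 0 ≤ tdih t m ∧ tdih t m ≤ Real.pi) ∧
    (∀ (x y z w : E3) (t : Finset E3), t.card = 4 → (t : Set E3) = {x, y, z, w} →
      AffineIndependent ℝ (Subtype.val : {x // x ∈ t} → E3) → det3 x y z w ≠ 0) :=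
  ⟨tdih_eq, tdih_bounds, det3_ne_zero⟩

end BccCov.S

namespace BccCov
export S (tdih_facts)
end BccCov
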