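import Pool.Agent.MP_bf7174_co.Defs

/-! # [BC3-W1] measure of a wedge inside a ball -/

set_option autoImplicit false

open scoped InnerProductSpace
open MeasureTheory

namespace BccCov.W1

open Real Set

/-- polar coordinates: area of a sector inside a disc -/
theorem planar (S : Set (ℝ × ℝ)) (hS : MeasurableSet S) (A : Set ℝ) (hA : MeasurableSet A)
    (h : ∀ r : ℝ, 0 < r → ∀ φ : ℝ, φ ∈ Ioo (-π) π → ((r * cos φ, r * sin φ) ∈ S ↔ φ ∈ A))
    (t : ℝ) :
    volume (S ∩ {x : ℝ × ℝ | x.1 ^ 2 + x.2 ^ 2 < t}) =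
      (∫⁻ r in Ioi (0 : ℝ), ENNReal.ofReal r * ({r : ℝ | r ^ 2 < t}.indicator 1 r)) *
        volume (A ∩ Ioo (-π) π) := by
  have hm : MeasurableSet (S ∩ {x : ℝ × ℝ | x.1 ^ 2 + x.2 ^ 2 < t}) :=
    hS.inter (measurableSet_lt (by fun_prop) measurable_const)
  have hm2 : MeasurableSet {r : ℝ | r ^ 2 < t} := measurableSet_lt (by fun_prop) measurable_const
  rw [← lintegral_indicator_one hm, ← lintegral_comp_polarCoord_symm]
  have h1 : ∀ p ∈ polarCoord.target,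
      ENNReal.ofReal p.1 • (S ∩ {x : ℝ × ℝ | x.1 ^ 2 + x.2 ^ 2 < t}).indicator
        (1 : ℝ × ℝ → ENNReal) (polarCoord.symm p) =
      (fun z : ℝ × ℝ => (ENNReal.ofReal z.1 * ({r : ℝ | r ^ 2 < t}.indicator 1 z.1)) *
        (A.indicator (1 : ℝ → ENNReal) z.2)) p := by
    rintro ⟨r, φ⟩ ⟨hr, hφ⟩
    have hr' : 0 < r := hr
    have hφ' : φ ∈ Ioo (-π) π := hφ
    rw [polarCoord_symm_apply]
    have e1 : (r * cos φ) ^ 2 + (r * sin φ) ^ 2 = r ^ 2 := by
      have := sin_sq_add_cos_sq φ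
      nlinarith [this]
    have e2 := h r hr' φ hφ'
    by_cases c1 : φ ∈ A
    · by_cases c2 : r ^ 2 < t
      · have c3 : (r * cos φ, r * sin φ) ∈ S ∩ {x : ℝ × ℝ | x.1 ^ 2 + x.2 ^ 2 < t} :=
          ⟨e2.2 c1, by show (r * cos φ) ^ 2 + (r * sin φ) ^ 2 < t; rw [e1]; exact c2⟩
        simp [indicator_of_mem c3, c1, c2]
      · have c3 : (r * cos φ, r * sin φ) ∉ S ∩ {x : ℝ × ℝ | x.1 ^ 2 + x.2 ^ 2 < t} := by
          rintro ⟨-, c4⟩
          have c5 : (r * cos φ) ^ 2 + (r * sin φ) ^ 2 < t := c4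
          rw [e1] at c5
          exact c2 c5
        have c4 : r ∉ {r : ℝ | r ^ 2 < t} := c2
        simp [indicator_of_notMem c3, indicator_of_notMem c4]
    · have c3 : (r * cos φ, r * sin φ) ∉ S ∩ {x : ℝ × ℝ | x.1 ^ 2 + x.2 ^ 2 < t} := by
        rintro ⟨c4, -⟩
        exact c1 (e2.1 c4)
      simp [indicator_of_notMem c3, c1]
  rw [setLIntegral_congr_fun polarCoord.open_target.measurableSet h1]
  have hf : AEMeasurable (fun r : ℝ => ENNReal.ofReal r * ({r : ℝ | r ^ 2 < t}.indicator 1 r))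
      (volume.restrict (Ioi (0 : ℝ))) :=
    (ENNReal.measurable_ofReal.mul (measurable_one.indicator hm2)).aemeasurable
  have hg : AEMeasurable (A.indicator (1 : ℝ → ENNReal)) (volume.restrict (Ioo (-π) π)) :=
    (measurable_one.indicator hA).aemeasurable
  have h2 := lintegral_prod_mul hf hg
  rw [polarCoord_target, Measure.volume_eq_prod, ← Measure.prod_restrict]
  refine h2.trans ?_
  congr 1
  rw [lintegral_indicator_one hA, Measure.restrict_apply hA]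

/-- cylindrical coordinates in `ℝ × (ℝ × ℝ)` -/
theorem spatial (S : Set (ℝ × ℝ)) (hS : MeasurableSet S) (A : Set ℝ) (hA : MeasurableSet A)
    (h : ∀ r : ℝ, 0 < r → ∀ φ : ℝ, φ ∈ Ioo (-π) π → ((r * cos φ, r * sin φ) ∈ S ↔ φ ∈ A))
    (ε : ℝ) :
    volume {z : ℝ × (ℝ × ℝ) | z.2 ∈ S ∧ z.2.1 ^ 2 + z.2.2 ^ 2 + z.1 ^ 2 < ε ^ 2} =
      (∫⁻ c : ℝ, ∫⁻ r in Ioi (0 : ℝ), ENNReal.ofReal r *
        ({r : ℝ | r ^ 2 < ε ^ 2 - c ^ 2}.indicator 1 r)) * volume (A ∩ Ioo (-π) π) := by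
  have hm : MeasurableSet
      {z : ℝ × (ℝ × ℝ) | z.2 ∈ S ∧ z.2.1 ^ 2 + z.2.2 ^ 2 + z.1 ^ 2 < ε ^ 2} :=
    (measurable_snd hS).inter (measurableSet_lt
      (f := fun z : ℝ × (ℝ × ℝ) => z.2.1 ^ 2 + z.2.2 ^ 2 + z.1 ^ 2) (by fun_prop) measurable_const)
  have hfin : volume (A ∩ Ioo (-π) π) ≠ ⊤ := by
    refine ne_top_of_le_ne_top ?_ (measure_mono inter_subset_right)
    rw [Real.volume_Ioo]
    exact ENNReal.ofReal_ne_top
  rw [Measure.volume_eq_prod, Measure.prod_apply hm, ← lintegral_mul_const' _ _ hfin]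
  refine lintegral_congr fun c => ?_
  rw [← planar S hS A hA h]
  congr 1
  ext x
  simp only [mem_preimage, Set.mem_ofPred_eq, mem_inter_iff]
  constructor
  · rintro ⟨h1, h2⟩
    exact ⟨h1, by linarith⟩
  · rintro ⟨h1, h2⟩
    exact ⟨h1, by linarith⟩

/-- coordinates of `E3` with respect to an orthonormal basis, regrouped -/
noncomputable def Phi (b : OrthonormalBasis (Fin 3) ℝ E3) (v : E3) : ℝ × (ℝ × ℝ) :=
  (b.repr v 2, (b.repr v 0, b.repr v 1))

theorem Phi_mp (b : OrthonormalBasis (Fin 3) ℝ E3) : MeasurePreserving (Phi b) volume volume := by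
  have h1 : MeasurePreserving b.repr volume volume := b.measurePreserving_repr
  have h2 := PiLp.volume_preserving_ofLp (Fin 3)
  have h3 := volume_preserving_piFinSuccAbove (fun _ : Fin 3 => ℝ) 2
  have h4 : MeasurePreserving (Prod.map (id : ℝ → ℝ) (MeasurableEquiv.finTwoArrow (α := ℝ)))
      (volume.prod volume) (volume.prod volume) :=
    (MeasurePreserving.id volume).prod (volume_preserving_finTwoArrow ℝ)
  have h5 := h4.comp (h3.comp (h2.comp h1))
  have e : (Prod.map (id : ℝ → ℝ) (MeasurableEquiv.finTwoArrow (α := ℝ))) ∘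
      ((MeasurableEquiv.piFinSuccAbove (fun _ : Fin 3 => ℝ) 2) ∘
        ((WithLp.ofLp) ∘ b.repr)) = Phi b := by
    funext v
    rfl
  rw [← e]
  exact h5

theorem norm_Phi (b : OrthonormalBasis (Fin 3) ℝ E3) (v : E3) :
    (Phi b v).2.1 ^ 2 + (Phi b v).2.2 ^ 2 + (Phi b v).1 ^ 2 = ‖v‖ ^ 2 := by
  rw [← b.repr.norm_map v, EuclideanSpace.real_norm_sq_eq, Fin.sum_univ_three]
  rfl

theorem basis_measure (b : OrthonormalBasis (Fin 3) ℝ E3) (S : Set (ℝ × ℝ))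
    (hS : MeasurableSet S) (A : Set ℝ) (hA : MeasurableSet A)
    (h : ∀ r : ℝ, 0 < r → ∀ φ : ℝ, φ ∈ Ioo (-π) π → ((r * cos φ, r * sin φ) ∈ S ↔ φ ∈ A))
    (ε : ℝ) (hε : 0 < ε) :
    volume ({v : E3 | (Phi b v).2 ∈ S} ∩ Metric.ball (0 : E3) ε) =
      (∫⁻ c : ℝ, ∫⁻ r in Ioi (0 : ℝ), ENNReal.ofReal r *
        ({r : ℝ | r ^ 2 < ε ^ 2 - c ^ 2}.indicator 1 r)) * volume (A ∩ Ioo (-π) π) := by
  have hm : MeasurableSet
      {z : ℝ × (ℝ × ℝ) | z.2 ∈ S ∧ z.2.1 ^ 2 + z.2.2 ^ 2 + z.1 ^ 2 < ε ^ 2} :=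
    (measurable_snd hS).inter (measurableSet_lt
      (f := fun z : ℝ × (ℝ × ℝ) => z.2.1 ^ 2 + z.2.2 ^ 2 + z.1 ^ 2) (by fun_prop) measurable_const)
  rw [← spatial S hS A hA h ε, ← (Phi_mp b).measure_preimage hm.nullMeasurableSet]
  congr 1
  ext v
  simp only [mem_preimage, Set.mem_ofPred_eq, mem_inter_iff, mem_ball_zero_iff]
  rw [norm_Phi, sq_lt_sq₀ (norm_nonneg v) hε.le]

/-- [BC3-W1] -/
theorem wedge_measure (u p q : E3) (hu : u ≠ 0) (hp : ⟪u, p⟫_ℝ = 0) (hq : ⟪u, q⟫_ℝ = 0)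
    (hpq : LinearIndependent ℝ ![p, q]) (ε : ℝ) (hε : 0 < ε) :
    volume ({v : E3 | ∃ s α β : ℝ, 0 ≤ α ∧ 0 ≤ β ∧ v = s • u + α • p + β • q}
        ∩ Metric.ball (0 : E3) ε)
      = ENNReal.ofReal (InnerProductGeometry.angle p q / (2 * Real.pi))
        * volume (Metric.ball (0 : E3) ε) := by
  have hp0 : p ≠ 0 := hpq.ne_zero 0
  have hq0 : q ≠ 0 := hpq.ne_zero 1
  set θ := InnerProductGeometry.angle p q with hθ
  have hP : 0 < ‖p‖ := norm_pos_iff.2 hp0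
  have hQ : 0 < ‖q‖ := norm_pos_iff.2 hq0
  have hU : 0 < ‖u‖ := norm_pos_iff.2 hu
  have hcos : cos θ * (‖p‖ * ‖q‖) = ⟪p, q⟫_ℝ := InnerProductGeometry.cos_angle_mul_norm_mul_norm p q
  -- the component of `q` orthogonal to `p`
  set w : E3 := q - (‖q‖ * cos θ / ‖p‖) • p with hw
  have hpw : ⟪p, w⟫_ℝ = 0 := by
    rw [hw, inner_sub_right, inner_smul_right, real_inner_self_eq_norm_sq, ← hcos]
    field_simp
    ring
  have huw : ⟪u, w⟫_ℝ = 0 := by
    rw [hw, inner_sub_right, inner_smul_right, hp, hq, mul_zero, sub_zero]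
  have hw0 : w ≠ 0 := by
    intro h0
    have h1 : (-(‖q‖ * cos θ / ‖p‖)) • p + (1 : ℝ) • q = 0 := by
      rw [← h0, hw, one_smul, neg_smul]
      abel
    have h2 := (LinearIndependent.pair_iff.1 hpq) _ _ h1
    exact one_ne_zero h2.2
  have hW : 0 < ‖w‖ := norm_pos_iff.2 hw0
  have hqw : q = (‖q‖ * cos θ / ‖p‖) • p + w := by rw [hw]; abel
  have hwn : ‖w‖ = ‖q‖ * sin θ := by
    have h1 : ‖w‖ ^ 2 = (‖q‖ * sin θ) ^ 2 := by
      have h2 : ‖q‖ ^ 2 = (‖q‖ * cos θ) ^ 2 + ‖w‖ ^ 2 := by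
        have h3 : ‖q‖ ^ 2 = ‖(‖q‖ * cos θ / ‖p‖) • p + w‖ ^ 2 := by rw [← hqw]
        rw [norm_add_sq_real, inner_smul_left, hpw, norm_smul] at h3
        simp only [mul_zero, add_zero] at h3
        rw [mul_pow, norm_eq_abs, sq_abs] at h3
        rw [h3]
        field_simp
      have h4 := sin_sq_add_cos_sq θ
      nlinarith [h2, h4]
    exact (sq_eq_sq₀ hW.le (mul_nonneg hQ.le (InnerProductGeometry.sin_angle_nonneg p q))).1 h1
  have hsin : 0 < sin θ := by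
    by_contra hcon
    rw [hwn] at hW
    have := InnerProductGeometry.sin_angle_nonneg p q
    rw [← hθ] at this
    have h0 : sin θ = 0 := le_antisymm (not_lt.1 hcon) this
    rw [h0, mul_zero] at hW
    exact lt_irrefl _ hW
  have hθ0 : 0 ≤ θ := InnerProductGeometry.angle_nonneg p q
  have hθπ : θ ≤ π := InnerProductGeometry.angle_le_pi p q
  have hθ0' : 0 < θ := lt_of_le_of_ne hθ0 (fun h => by rw [← h, sin_zero] at hsin; exact lt_irrefl _ hsin)
  have hθπ' : θ < π := lt_of_le_of_ne hθπ (fun h => by rw [h, sin_pi] at hsin; exact lt_irrefl _ hsin)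
  -- the orthonormal basis
  let v : Fin 3 → E3 := ![‖p‖⁻¹ • p, ‖w‖⁻¹ • w, ‖u‖⁻¹ • u]
  have hpu : ⟪p, u⟫_ℝ = 0 := by rw [real_inner_comm]; exact hp
  have hwu : ⟪w, u⟫_ℝ = 0 := by rw [real_inner_comm]; exact huw
  have hwp : ⟪w, p⟫_ℝ = 0 := by rw [real_inner_comm]; exact hpw
  have hv : Orthonormal ℝ v := by
    constructor
    · intro i
      fin_cases i
      · show ‖‖p‖⁻¹ • p‖ = 1
        rw [norm_smul, norm_inv, norm_norm, inv_mul_cancel₀ hP.ne']
      · show ‖‖w‖⁻¹ • w‖ = 1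
        rw [norm_smul, norm_inv, norm_norm, inv_mul_cancel₀ hW.ne']
      · show ‖‖u‖⁻¹ • u‖ = 1
        rw [norm_smul, norm_inv, norm_norm, inv_mul_cancel₀ hU.ne']
    · intro i j hij
      fin_cases i <;> fin_cases j <;>
        first
        | exact absurd rfl hij
        | simp [v, inner_smul_left, inner_smul_right, hpw, hwp, hpu, hp, huw, hwu]
  obtain ⟨b, hb⟩ := Orthonormal.exists_orthonormalBasis_extension_of_card_eq
    (𝕜 := ℝ) (E := E3) (ι := Fin 3) (by simp) (v := v) (s := Set.univ)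
    (hv.comp _ Subtype.val_injective)
  have hb0 : b 0 = ‖p‖⁻¹ • p := hb 0 (mem_univ _)
  have hb1 : b 1 = ‖w‖⁻¹ • w := hb 1 (mem_univ _)
  have hb2 : b 2 = ‖u‖⁻¹ • u := hb 2 (mem_univ _)
  have ep : p = ‖p‖ • b 0 := by rw [hb0, smul_smul, mul_inv_cancel₀ hP.ne', one_smul]
  have ew : w = ‖w‖ • b 1 := by rw [hb1, smul_smul, mul_inv_cancel₀ hW.ne', one_smul]
  have eu : u = ‖u‖ • b 2 := by rw [hb2, smul_smul, mul_inv_cancel₀ hU.ne', one_smul]
  have eq' : q = (‖q‖ * cos θ) • b 0 + (‖q‖ * sin θ) • b 1 := by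
    conv_lhs => rw [hqw, ew, hwn]
    congr 1
    conv_lhs => rw [ep]
    rw [norm_smul, norm_norm, b.norm_eq_one, mul_one, smul_smul, div_mul_cancel₀ _ hP.ne']
  -- the planar sector
  let S : Set (ℝ × ℝ) := {x | 0 ≤ x.2 ∧ 0 ≤ x.1 * sin θ - x.2 * cos θ}
  have hS : MeasurableSet S :=
    (measurableSet_le (f := fun _ : ℝ × ℝ => (0 : ℝ)) (g := fun x : ℝ × ℝ => x.2)
      measurable_const (by fun_prop)).inter
      (measurableSet_le (f := fun _ : ℝ × ℝ => (0 : ℝ))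
        (g := fun x : ℝ × ℝ => x.1 * sin θ - x.2 * cos θ) measurable_const (by fun_prop))
  have hsec : ∀ r : ℝ, 0 < r → ∀ φ : ℝ, φ ∈ Ioo (-π) π →
      ((r * cos φ, r * sin φ) ∈ S ↔ φ ∈ Icc 0 θ) := by
    intro r hr φ hφ
    have e : r * cos φ * sin θ - r * sin φ * cos θ = r * sin (θ - φ) := by
      rw [sin_sub]; ring
    constructor
    · rintro ⟨h1, h2⟩
      have h1' : 0 ≤ r * sin φ := h1
      have h2' : 0 ≤ r * sin (θ - φ) := by rw [← e]; exact h2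
      have h3 : 0 ≤ sin φ := nonneg_of_mul_nonneg_right h1' hr
      have h4 : 0 ≤ sin (θ - φ) := nonneg_of_mul_nonneg_right h2' hr
      have h5 : 0 ≤ φ := by
        by_contra hcon
        have := sin_neg_of_neg_of_neg_pi_lt (not_le.1 hcon) hφ.1
        linarith
      refine ⟨h5, ?_⟩
      by_contra hcon
      have h6 : θ - φ < 0 := by linarith [not_le.1 hcon]
      have h7 : -π < θ - φ := by linarith [hφ.2]
      have := sin_neg_of_neg_of_neg_pi_lt h6 h7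
      linarith
    · rintro ⟨h1, h2⟩
      refine ⟨mul_nonneg hr.le (sin_nonneg_of_nonneg_of_le_pi h1 (h2.trans hθπ)), ?_⟩
      show 0 ≤ r * cos φ * sin θ - r * sin φ * cos θ
      rw [e]
      exact mul_nonneg hr.le (sin_nonneg_of_nonneg_of_le_pi (by linarith) (by linarith))
  have hset : {v : E3 | ∃ s α β : ℝ, 0 ≤ α ∧ 0 ≤ β ∧ v = s • u + α • p + β • q} =
      {v : E3 | (Phi b v).2 ∈ S} := by
    ext v
    simp only [Set.mem_ofPred_eq]
    have hr : ∀ s α β : ℝ, s • u + α • p + β • q =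
        (α * ‖p‖ + β * (‖q‖ * cos θ)) • b 0 + (β * (‖q‖ * sin θ)) • b 1 + (s * ‖u‖) • b 2 := by
      intro s α β
      conv_lhs => rw [eu, ep, eq']
      module
    constructor
    · rintro ⟨s, α, β, hα, hβ, rfl⟩
      rw [hr]
      have c0 : (Phi b ((α * ‖p‖ + β * (‖q‖ * cos θ)) • b 0 + (β * (‖q‖ * sin θ)) • b 1 +
          (s * ‖u‖) • b 2)).2 = (α * ‖p‖ + β * (‖q‖ * cos θ), β * (‖q‖ * sin θ)) := by
        unfold Phi
        refine Prod.ext ?_ ?_
        · show b.repr _ 0 = _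
          simp
        · show b.repr _ 1 = _
          simp
      rw [c0]
      refine ⟨?_, ?_⟩
      · show 0 ≤ β * (‖q‖ * sin θ)
        positivity
      · show 0 ≤ (α * ‖p‖ + β * (‖q‖ * cos θ)) * sin θ - β * (‖q‖ * sin θ) * cos θ
        have : (α * ‖p‖ + β * (‖q‖ * cos θ)) * sin θ - β * (‖q‖ * sin θ) * cos θ =
            α * ‖p‖ * sin θ := by ring
        rw [this]
        positivity
    · rintro ⟨h1, h2⟩
      have h1' : 0 ≤ b.repr v 1 := h1
      have h2' : 0 ≤ b.repr v 0 * sin θ - b.repr v 1 * cos θ := h2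
      refine ⟨b.repr v 2 / ‖u‖, (b.repr v 0 * sin θ - b.repr v 1 * cos θ) / (‖p‖ * sin θ),
        b.repr v 1 / (‖q‖ * sin θ), by positivity, by positivity, ?_⟩
      rw [hr]
      have d0 : (b.repr v 0 * sin θ - b.repr v 1 * cos θ) / (‖p‖ * sin θ) * ‖p‖ +
          b.repr v 1 / (‖q‖ * sin θ) * (‖q‖ * cos θ) = b.repr v 0 := by
        field_simp
        ring
      have d1 : b.repr v 1 / (‖q‖ * sin θ) * (‖q‖ * sin θ) = b.repr v 1 := by
        field_simp
      have d2 : b.repr v 2 / ‖u‖ * ‖u‖ = b.repr v 2 := by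
        field_simp
      rw [d0, d1, d2]
      conv_lhs => rw [← b.sum_repr v, Fin.sum_univ_three]
  have hball : volume (Metric.ball (0 : E3) ε) =
      volume ({v : E3 | (Phi b v).2 ∈ (Set.univ : Set (ℝ × ℝ))} ∩ Metric.ball (0 : E3) ε) := by
    congr 1
    ext v
    simp
  have hvol1 : volume (Icc 0 θ ∩ Ioo (-π) π) = ENNReal.ofReal θ := by
    have : Icc 0 θ ∩ Ioo (-π) π = Icc 0 θ := by
      refine inter_eq_left.2 fun x hx => ⟨?_, lt_of_le_of_lt hx.2 hθπ'⟩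
      have := Real.pi_pos
      linarith [hx.1]
    rw [this, Real.volume_Icc, sub_zero]
  have hvol2 : volume ((Set.univ : Set ℝ) ∩ Ioo (-π) π) = ENNReal.ofReal (2 * π) := by
    rw [univ_inter, Real.volume_Ioo]
    congr 1
    ring
  rw [hset, hball, basis_measure b S hS (Icc 0 θ) measurableSet_Icc hsec ε hε,
    basis_measure b univ MeasurableSet.univ univ MeasurableSet.univ (fun _ _ _ _ => by simp) ε hε,
    hvol1, hvol2]
  have hpi : 0 < 2 * π := by positivity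
  have : ENNReal.ofReal θ = ENNReal.ofReal (θ / (2 * π)) * ENNReal.ofReal (2 * π) := by
    rw [← ENNReal.ofReal_mul (by positivity), div_mul_cancel₀ _ hpi.ne']
  rw [this]
  ring

end BccCov.W1

namespace BccCov
export W1 (wedge_measure)
end BccCov
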