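import Pool.Agent.MP_bf7174_co.Defs
import Pool.Agent.MP_bf7174_co.W1

set_option autoImplicit false

open scoped InnerProductSpace
open MeasureTheory

namespace BccCov.W2

/-- the linear map with columns `a, b, c` -/
noncomputable def LL (a b c : E3) : E3 →ₗ[ℝ] E3 where
  toFun u := u 0 • a + u 1 • b + u 2 • c
  map_add' u v := by
    simp only [PiLp.add_apply, add_smul]
    abel
  map_smul' r u := by
    simp only [PiLp.smul_apply, smul_eq_mul, mul_smul, smul_add, RingHom.id_apply]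

lemma LL_apply (a b c u : E3) : LL a b c u = u 0 • a + u 1 • b + u 2 • c := rfl

lemma det_LL (x y z w : E3) : LinearMap.det (LL (y - x) (z - x) (w - x)) = det3 x y z w := by
  rw [← LinearMap.det_toMatrix (EuclideanSpace.basisFun (Fin 3) ℝ).toBasis, Matrix.det_fin_three]
  simp [LinearMap.toMatrix_apply, LL_apply, det3]
  ring

/-- the wedge -/
def Wd (u p q : E3) : Set E3 :=
  {v : E3 | ∃ s α β : ℝ, 0 ≤ α ∧ 0 ≤ β ∧ v = s • u + α • p + β • q}

/-- vector with three given coordinates -/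
noncomputable def V3 (a b c : ℝ) : E3 := !₂[a, b, c]

lemma LL_V3 (a b c : E3) (r s t : ℝ) : LL a b c (V3 r s t) = r • a + s • b + t • c := by
  simp [LL_apply, V3]

lemma inner_perp (u v : E3) (hu : u ≠ 0) : ⟪u, perp u v⟫_ℝ = 0 := by
  have h : ⟪u, u⟫_ℝ ≠ 0 := inner_self_ne_zero.2 hu
  rw [perp, inner_sub_right, inner_smul_right, div_mul_cancel₀ _ h, sub_self]

/-- the easy direction -/
lemma mem_Wd_of_hull (x y z w v : E3)
    (hv : midpoint ℝ x y + v ∈ convexHull ℝ ({x, y, z, w} : Set E3)) :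
    v ∈ Wd (y - x) (perp (y - x) (z - x)) (perp (y - x) (w - x)) := by
  have hsub : convexHull ℝ ({x, y, z, w} : Set E3) ⊆
      {m | ∃ b c d : ℝ, 0 ≤ c ∧ 0 ≤ d ∧ m = x + b • (y - x) + c • (z - x) + d • (w - x)} := by
    apply convexHull_min
    · rintro m (rfl | rfl | rfl | rfl)
      · exact ⟨0, 0, 0, le_rfl, le_rfl, by simp⟩
      · exact ⟨1, 0, 0, le_rfl, le_rfl, by simp⟩
      · exact ⟨0, 1, 0, zero_le_one, le_rfl, by simp⟩
      · exact ⟨0, 0, 1, le_rfl, zero_le_one, by simp⟩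
    · rintro m ⟨b, c, d, hc, hd, rfl⟩ m' ⟨b', c', d', hc', hd', rfl⟩ r t hr ht hrt
      refine ⟨r * b + t * b', r * c + t * c', r * d + t * d', by positivity, by positivity, ?_⟩
      obtain rfl : t = 1 - r := by linarith
      module
  obtain ⟨b, c, d, hc, hd, h⟩ := hsub hv
  refine ⟨b - 1 / 2 + c * (⟪y - x, z - x⟫_ℝ / ⟪y - x, y - x⟫_ℝ)
    + d * (⟪y - x, w - x⟫_ℝ / ⟪y - x, y - x⟫_ℝ), c, d, hc, hd, ?_⟩
  have h2 : v = x + b • (y - x) + c • (z - x) + d • (w - x) - midpoint ℝ x y := by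
    rw [← h]; abel
  rw [h2, midpoint_eq_smul_add, perp, perp, invOf_eq_inv]
  module

lemma hull_of_coords (x y z w : E3) (s α β : ℝ) (hs : |s| ≤ 1 / 6) (hα : 0 ≤ α) (hα' : α ≤ 1 / 6)
    (hβ : 0 ≤ β) (hβ' : β ≤ 1 / 6) :
    midpoint ℝ x y + (s • (y - x) + α • (z - x) + β • (w - x))
      ∈ convexHull ℝ ({x, y, z, w} : Set E3) := by
  have hc := convex_convexHull ℝ ({x, y, z, w} : Set E3)
  obtain ⟨hs1, hs2⟩ := abs_le.1 hs
  have key := hc.sum_mem (t := Finset.univ) (w := ![1 / 2 - s - α - β, 1 / 2 + s, α, β])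
    (z := ![x, y, z, w]) (by
      intro i _
      fin_cases i
      · simp only [Fin.zero_eta, Matrix.cons_val_zero]
        linarith
      · simp only [Fin.mk_one, Matrix.cons_val_one]
        simp only [Matrix.cons_val_zero]
        linarith
      · exact hα
      · exact hβ) (by
      simp only [Fin.sum_univ_four, Matrix.cons_val_zero, Matrix.cons_val_one, Matrix.cons_val]
      ring) (by
      intro i _
      apply subset_convexHull
      fin_cases i <;> simp)
  convert key using 1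
  simp only [Fin.sum_univ_four, Matrix.cons_val_zero, Matrix.cons_val_one, Matrix.cons_val]
  rw [midpoint_eq_smul_add, invOf_eq_inv]
  module

lemma coord_le (v : E3) (i : Fin 3) : |v i| ≤ ‖v‖ := by
  have := PiLp.norm_apply_le v i
  rwa [Real.norm_eq_abs] at this

theorem local_wedge (x y z w : E3) (h : det3 x y z w ≠ 0) :
    ∃ ε₀ : ℝ, 0 < ε₀ ∧ ∀ ε : ℝ, 0 < ε → ε ≤ ε₀ →
      volume (convexHull ℝ ({x, y, z, w} : Set E3) ∩ Metric.ball (midpoint ℝ x y) ε)
        = ENNReal.ofReal (dih x y z w / (2 * Real.pi))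
          * volume (Metric.ball (midpoint ℝ x y) ε) := by
  set L := LL (y - x) (z - x) (w - x) with hL
  have hdet : LinearMap.det L ≠ 0 := by rw [hL, det_LL]; exact h
  let Le : E3 ≃ₗ[ℝ] E3 := LinearMap.equivOfDetNeZero L hdet
  have hLe : ∀ v, Le v = L v := fun v => rfl
  have hcont : Continuous Le.symm := Le.symm.toLinearMap.continuous_of_finiteDimensional
  obtain ⟨ε₀, hε₀, hε₀'⟩ := Metric.continuousAt_iff.1 (hcont.continuousAt (x := 0)) (1 / 6)
    (by norm_num)
  have hinj : ∀ v, L v = 0 → v = 0 := by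
    intro v hv
    have := Le.injective (a₁ := v) (a₂ := 0)
    rw [hLe, hLe, hv, map_zero] at this
    exact this rfl
  have hsmall : ∀ r s t : ℝ, ‖r • (y - x) + s • (z - x) + t • (w - x)‖ < ε₀ →
      |r| ≤ 1 / 6 ∧ |s| ≤ 1 / 6 ∧ |t| ≤ 1 / 6 := by
    intro r s t hrst
    have h1 := hε₀' (x := r • (y - x) + s • (z - x) + t • (w - x)) (by
      rw [dist_zero_right]; exact hrst)
    rw [map_zero, dist_zero_right, ← LL_V3, ← hL, ← hLe, Le.symm_apply_apply] at h1
    have h2 := (coord_le (V3 r s t) 0).trans h1.le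
    have h3 := (coord_le (V3 r s t) 1).trans h1.le
    have h4 := (coord_le (V3 r s t) 2).trans h1.le
    simp only [V3] at h2 h3 h4
    exact ⟨by simpa using h2, by simpa using h3, by simpa using h4⟩
  have hu : y - x ≠ 0 := by
    intro h0
    have := hinj (V3 1 0 0) (by rw [hL, LL_V3]; simp [h0])
    have := congrArg (fun v : E3 => v 0) this
    simp [V3] at this
  set κ := ⟪y - x, z - x⟫_ℝ / ⟪y - x, y - x⟫_ℝ with hκ
  set μ := ⟪y - x, w - x⟫_ℝ / ⟪y - x, y - x⟫_ℝ with hμ
  have hp : perp (y - x) (z - x) = (z - x) - κ • (y - x) := rfl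
  have hq : perp (y - x) (w - x) = (w - x) - μ • (y - x) := rfl
  have hind : LinearIndependent ℝ ![perp (y - x) (z - x), perp (y - x) (w - x)] := by
    rw [LinearIndependent.pair_iff]
    intro a b hab
    have h0 : L (V3 (-(a * κ) - b * μ) a b) = 0 := by
      rw [hL, LL_V3, ← hab, hp, hq]
      module
    have h1 := hinj _ h0
    have h2 := congrArg (fun v : E3 => v 1) h1
    have h3 := congrArg (fun v : E3 => v 2) h1
    simp only [V3] at h2 h3
    exact ⟨by simpa using h2, by simpa using h3⟩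
  refine ⟨ε₀, hε₀, fun ε hε hεε => ?_⟩
  have hw := wedge_measure (y - x) (perp (y - x) (z - x)) (perp (y - x) (w - x)) hu
    (inner_perp _ _ hu) (inner_perp _ _ hu) hind ε hε
  have hb : volume (Metric.ball (midpoint ℝ x y) ε) = volume (Metric.ball (0 : E3) ε) :=
    Measure.addHaar_ball_center _ _ _
  rw [hb, dih, ← hw, ← measure_preimage_add volume (midpoint ℝ x y)]
  congr 1
  ext v
  constructor
  · rintro ⟨h1, h2⟩
    refine ⟨mem_Wd_of_hull x y z w v h1, ?_⟩
    have h3 : dist (midpoint ℝ x y + v) (midpoint ℝ x y) < ε := h2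
    rw [dist_eq_norm, add_sub_cancel_left] at h3
    rw [Metric.mem_ball, dist_zero_right]
    exact h3
  · rintro ⟨⟨s, α, β, hα, hβ, hv⟩, h2⟩
    rw [Metric.mem_ball, dist_zero_right] at h2
    have hv' : v = (s - α * κ - β * μ) • (y - x) + α • (z - x) + β • (w - x) := by
      rw [hv, hp, hq]
      module
    have hs := hsmall (s - α * κ - β * μ) α β (by rw [← hv']; linarith)
    refine ⟨?_, ?_⟩
    · show midpoint ℝ x y + v ∈ _
      rw [hv']
      exact hull_of_coords x y z w _ α β hs.1 hα ((le_abs_self _).trans hs.2.1) hβ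
        ((le_abs_self _).trans hs.2.2)
    · show dist (midpoint ℝ x y + v) (midpoint ℝ x y) < ε
      rw [dist_eq_norm, add_sub_cancel_left]
      exact h2

end BccCov.W2

namespace BccCov
export W2 (local_wedge)
end BccCov
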