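import Pool.Agent.MP_bf7174_co.Defs
import Pool.Agent.MP_bf7174_co.W2
import Pool.Agent.MP_bf7174_co.S
import Pool.Agent.MP_bf7174_co.F
import Pool.Agent.MP_bf7174_co.N

/-!
# [BC3-A] the dihedral angles around an edge add up to `2π`
-/

set_option autoImplicit false

open scoped InnerProductSpace
open MeasureTheory

namespace BccCov.A

open BccCov

theorem mid_mem {t : Set E3} {x y : E3} (hx : x ∈ t) (hy : y ∈ t) :
    midpoint ℝ x y ∈ convexHull ℝ t := by
  have h := (convex_convexHull ℝ t) (subset_convexHull ℝ t hx) (subset_convexHull ℝ t hy)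
    (a := 1 / 2) (b := 1 / 2) (by norm_num) (by norm_num) (by norm_num)
  have e : midpoint ℝ x y = (1 / 2 : ℝ) • x + (1 / 2 : ℝ) • y := by
    rw [midpoint_eq_smul_add, smul_add]
    norm_num
  rw [e]
  exact h

/-- a vertex of the edge belongs to every tetrahedron containing the midpoint -/
theorem vertex_mem {t₀ t : Finset E3} (hi : AffineIndependent ℝ (Subtype.val : {x // x ∈ t₀} → E3))
    {x y c : E3} (hx : x ∈ t₀) (hy : y ∈ t₀) (hxy : x ≠ y) (hc : c = midpoint ℝ x y)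
    (h : c ∈ convexHull ℝ ((t₀ : Set E3) ∩ (t : Set E3))) : x ∈ t := by
  by_contra hxt
  have h1 := hi.notMem_affineSpan_sdiff ⟨x, hx⟩ Set.univ
  apply h1
  have h2 : (Subtype.val : {x // x ∈ t₀} → E3) '' (Set.univ \ {⟨x, hx⟩}) = (t₀ : Set E3) \ {x} := by
    ext z
    constructor
    · rintro ⟨⟨z, hz⟩, hz', rfl⟩
      refine ⟨hz, ?_⟩
      intro h
      apply hz'.2
      exact Subtype.ext h
    · rintro ⟨hz, hz'⟩
      refine ⟨⟨z, hz⟩, ⟨Set.mem_univ _, ?_⟩, rfl⟩
      intro h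
      exact hz' (congrArg Subtype.val h)
  rw [h2]
  have h3 : c ∈ affineSpan ℝ ((t₀ : Set E3) \ {x}) := by
    refine affineSpan_mono ℝ ?_ (convexHull_subset_affineSpan _ h)
    rintro z ⟨hz, hz'⟩
    refine ⟨hz, ?_⟩
    rintro rfl
    exact hxt hz'
  have h4 : y ∈ affineSpan ℝ ((t₀ : Set E3) \ {x}) :=
    subset_affineSpan ℝ _ ⟨hy, fun h => hxy h.symm⟩
  have h5 := AffineMap.lineMap_mem (2 : ℝ) h4 h3
  have h6 : AffineMap.lineMap y c (2 : ℝ) = x := by
    rw [hc, AffineMap.lineMap_apply_module, midpoint_eq_smul_add, smul_smul]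
    norm_num
  rw [h6] at h5
  exact h5

theorem four {t : Finset E3} (ht : t.card = 4) {x y : E3} (hxy : x ≠ y) (h : ({x, y} : Finset E3) ⊆ t) :
    ∃ z w : E3, (t : Set E3) = {x, y, z, w} := by
  classical
  have h1 : (t \ {x, y}).card = 2 := by
    rw [Finset.card_sdiff_of_subset h, ht, Finset.card_pair hxy]
  obtain ⟨z, w, _, hzw⟩ := Finset.card_eq_two.1 h1
  refine ⟨z, w, ?_⟩
  have h2 : t = {x, y} ∪ (t \ {x, y}) := (Finset.union_sdiff_of_subset h).symm
  rw [h2, hzw]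
  ext v
  simp only [Finset.coe_union, Finset.coe_insert, Finset.coe_singleton, Set.mem_union,
    Set.mem_insert_iff, Set.mem_singleton_iff]
  tauto

/-- **[BC3-A]** The dihedral angles around an edge add up to `2π`. -/
theorem angle_sum {X : Set E3} {D : Set (Finset E3)} {r : ℝ} (hT : IsTriangulation X D)
    (hI : ∀ t ∈ D, Inscribed t r) (hfin : ∀ R : ℝ, (X ∩ Metric.closedBall (0 : E3) R).Finite)
    (m : Finset E3) (hm : m.card = 2) (hmD : ∃ t ∈ D, m ⊆ t) (s : Finset (Finset E3))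
    (hs : ∀ t, t ∈ s ↔ t ∈ D ∧ m ⊆ t) :
    ∑ t ∈ s, tdih t m = 2 * Real.pi := by
  classical
  obtain ⟨x, y, hxy, rfl⟩ := Finset.card_eq_two.1 hm
  obtain ⟨t₀, ht₀, hmt₀⟩ := hmD
  obtain ⟨c, hc⟩ : ∃ c, c = midpoint ℝ x y := ⟨_, rfl⟩
  have hxt₀ : x ∈ t₀ := hmt₀ (by simp)
  have hyt₀ : y ∈ t₀ := hmt₀ (by simp)
  have hct₀ : c ∈ convexHull ℝ (t₀ : Set E3) := by
    rw [hc]; exact mid_mem hxt₀ hyt₀
  have key1 : ∀ t ∈ D, c ∈ convexHull ℝ (t : Set E3) → t ∈ s := by
    intro t ht hct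
    have h1 : c ∈ convexHull ℝ ((t₀ : Set E3) ∩ (t : Set E3)) := by
      rw [← hT.faceToFace t₀ ht₀ t ht]
      exact ⟨hct₀, hct⟩
    rw [hs]
    refine ⟨ht, ?_⟩
    intro v hv
    rw [Finset.mem_insert, Finset.mem_singleton] at hv
    rcases hv with rfl | rfl
    · exact vertex_mem (hT.indep t₀ ht₀) hxt₀ hyt₀ hxy hc h1
    · exact vertex_mem (hT.indep t₀ ht₀) hyt₀ hxt₀ hxy.symm (by rw [hc, midpoint_comm]) h1
  obtain ⟨_, hf2, _, hf4⟩ := finiteness hT hI hfin
  set T : Set (Finset E3) := {t | t ∈ D ∧ ∃ x ∈ t, ‖x‖ ≤ (‖c‖ + 1) + 2 * r} with hTdef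
  have hTf : T.Finite := hf2 _
  have hcov := hf4 (‖c‖ + 1)
  -- small radii
  have hev1 : ∀ᶠ ε in nhdsWithin (0 : ℝ) (Set.Ioi 0), ∀ t ∈ T, t ∉ s →
      Disjoint (convexHull ℝ (t : Set E3)) (Metric.ball c ε) := by
    rw [Filter.eventually_all_finite hTf]
    intro t ht
    by_cases hts : t ∈ s
    · exact Filter.Eventually.of_forall fun _ h => absurd hts h
    · have hct : c ∉ convexHull ℝ (t : Set E3) := fun h => hts (key1 t ht.1 h)
      have hclosed : IsClosed (convexHull ℝ (t : Set E3)) :=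
        (Set.Finite.isCompact_convexHull ℝ t.finite_toSet).isClosed
      obtain ⟨δ, hδ, hδ'⟩ := Metric.isOpen_iff.1 hclosed.isOpen_compl c hct
      filter_upwards [Ioo_mem_nhdsGT hδ] with ε hε _
      rw [Set.disjoint_left]
      intro v hv hv'
      exact hδ' (Metric.ball_subset_ball hε.2.le hv') hv
  have hev2 : ∀ᶠ ε in nhdsWithin (0 : ℝ) (Set.Ioi 0), ∀ t ∈ s,
      volume (convexHull ℝ (t : Set E3) ∩ Metric.ball c ε) =
        ENNReal.ofReal (tdih t {x, y} / (2 * Real.pi)) * volume (Metric.ball c ε) := by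
    rw [Filter.eventually_all_finset]
    intro t ht
    obtain ⟨htD, hmt⟩ := (hs t).1 ht
    obtain ⟨z, w, hzw⟩ := four (hT.card_eq t htD) hxy hmt
    have hdet : det3 x y z w ≠ 0 := tdih_facts.2.2 x y z w t (hT.card_eq t htD) hzw (hT.indep t htD)
    obtain ⟨ε₀, hε₀, hw⟩ := local_wedge x y z w hdet
    have htd : tdih t {x, y} = dih x y z w :=
      tdih_facts.1 x y z w t {x, y} (hT.card_eq t htD) (by simp) hzw
    filter_upwards [Ioo_mem_nhdsGT hε₀] with ε hε
    rw [htd, hzw, hc]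
    exact hw ε hε.1 hε.2.le
  have hev3 : ∀ᶠ ε in nhdsWithin (0 : ℝ) (Set.Ioi 0), 0 < ε ∧ ε < 1 := Ioo_mem_nhdsGT one_pos
  obtain ⟨ε, h1, h2, hε0, hε1⟩ := (hev1.and (hev2.and hev3)).exists
  -- the ball is covered
  have hball : Metric.ball c ε = ⋃ t ∈ s, (convexHull ℝ (t : Set E3) ∩ Metric.ball c ε) := by
    apply Set.Subset.antisymm
    · intro v hv
      have hv1 : v ∈ Metric.closedBall (0 : E3) (‖c‖ + 1) := by
        rw [mem_closedBall_zero_iff]
        have h3 : ‖v - c‖ < ε := by rw [← dist_eq_norm]; exact hv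
        have h4 : ‖v‖ ≤ ‖v - c‖ + ‖c‖ := by
          have := norm_add_le (v - c) c
          rwa [sub_add_cancel] at this
        linarith
      have hv2 := hcov hv1
      rw [Set.mem_iUnion₂] at hv2
      obtain ⟨t, ht, hvt⟩ := hv2
      have hts : t ∈ s := by
        by_contra hts
        exact Set.disjoint_left.1 (h1 t ht hts) hvt hv
      rw [Set.mem_iUnion₂]
      exact ⟨t, hts, hvt, hv⟩
    · intro v hv
      rw [Set.mem_iUnion₂] at hv
      obtain ⟨t, _, hv⟩ := hv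
      exact hv.2
  have hsum : volume (Metric.ball c ε) =
      ∑ t ∈ s, volume (convexHull ℝ (t : Set E3) ∩ Metric.ball c ε) := by
    conv_lhs => rw [hball]
    refine measure_biUnion_finset₀ ?_ ?_
    · intro t ht t' ht' hne
      have h3 := null_inter hT t t' ((hs t).1 ht).1 ((hs t').1 ht').1 hne
      refine measure_mono_null ?_ h3
      rintro v ⟨hv, hv'⟩
      exact ⟨hv.1, hv'.1⟩
    · intro t _
      have hclosed : IsClosed (convexHull ℝ (t : Set E3)) :=
        (Set.Finite.isCompact_convexHull ℝ t.finite_toSet).isClosed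
      exact (hclosed.measurableSet.inter measurableSet_ball).nullMeasurableSet
  rw [Finset.sum_congr rfl h2, ← Finset.sum_mul] at hsum
  have hv0 : volume (Metric.ball c ε) ≠ 0 := (Metric.measure_ball_pos volume c hε0).ne'
  have hvt : volume (Metric.ball c ε) ≠ ⊤ := measure_ball_lt_top.ne
  have hone : ∑ t ∈ s, ENNReal.ofReal (tdih t {x, y} / (2 * Real.pi)) = 1 := by
    have h3 : (∑ t ∈ s, ENNReal.ofReal (tdih t {x, y} / (2 * Real.pi))) *
        volume (Metric.ball c ε) = 1 * volume (Metric.ball c ε) := by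
      rw [one_mul]; exact hsum.symm
    exact (ENNReal.mul_left_inj hv0 hvt).1 h3
  have hpos : ∀ t ∈ s, 0 ≤ tdih t {x, y} / (2 * Real.pi) := fun t _ =>
    div_nonneg (tdih_facts.2.1 t {x, y}).1 (by positivity)
  rw [← ENNReal.ofReal_sum_of_nonneg hpos, ENNReal.ofReal_eq_one, ← Finset.sum_div,
    div_eq_one_iff_eq (by positivity)] at hone
  exact hone

end BccCov.A

namespace BccCov
export A (angle_sum)
end BccCov
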