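import Pool.Agent.MP_bf7174_co.Defs
import Pool.Agent.MP_bf7174_co.F
import Pool.Agent.MP_bf7174_co.N

set_option autoImplicit false

open scoped InnerProductSpace
open MeasureTheory

namespace BccCov.C

/-- double counting of incidences -/
theorem four_card_le {X : Set E3} {D : Set (Finset E3)} (hT : IsTriangulation X D)
    (h24 : ∀ x ∈ X, {t | t ∈ D ∧ x ∈ t}.encard ≤ 24)
    (T : Finset (Finset E3)) (hTD : ∀ t ∈ T, t ∈ D) (Y : Finset E3) (hYX : ∀ x ∈ Y, x ∈ X)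
    (hTY : ∀ t ∈ T, ∀ x ∈ t, x ∈ Y) : T.card ≤ 6 * Y.card := by
  classical
  have h1 : ∑ t ∈ T, t.card = ∑ x ∈ Y, (T.filter (fun t => x ∈ t)).card := by
    simp only [Finset.card_eq_sum_ones]
    refine Finset.sum_comm' fun t x => ?_
    simp only [Finset.mem_filter]
    exact ⟨fun h => ⟨⟨h.1, h.2⟩, hTY t h.1 x h.2⟩, fun h => ⟨h.1.1, h.1.2⟩⟩
  have h2 : ∑ t ∈ T, t.card = 4 * T.card := by
    rw [Finset.sum_congr rfl (fun t ht => hT.card_eq t (hTD t ht)), Finset.sum_const, smul_eq_mul,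
      mul_comm]
  have h3 : ∑ x ∈ Y, (T.filter (fun t => x ∈ t)).card ≤ ∑ x ∈ Y, 24 := by
    refine Finset.sum_le_sum fun x hx => ?_
    have h4 : ((T.filter (fun t => x ∈ t) : Finset (Finset E3)) : Set (Finset E3)) ⊆
        {t | t ∈ D ∧ x ∈ t} := by
      intro t ht
      rw [Finset.mem_coe, Finset.mem_filter] at ht
      exact ⟨hTD t ht.1, ht.2⟩
    have h5 := (Set.encard_le_encard h4).trans (h24 x (hYX x hx))
    rw [Set.encard_coe_eq_coe_finsetCard] at h5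
    exact_mod_cast h5
  rw [Finset.sum_const, smul_eq_mul] at h3
  omega

theorem counting {X : Set E3} {D : Set (Finset E3)} {r : ℝ} (hr : 0 < r) (hT : IsTriangulation X D)
    (hI : ∀ t ∈ D, Inscribed t r) (hfin : ∀ R : ℝ, (X ∩ Metric.closedBall (0 : E3) R).Finite)
    (h24 : ∀ x ∈ X, {t | t ∈ D ∧ x ∈ t}.encard ≤ 24)
    (K C : ℝ) (hK : 0 ≤ K) (hC : 0 ≤ C) (wt : Finset E3 → Finset E3 → ℝ)
    (hwC : ∀ t m, |wt t m| ≤ C)
    (hvol : ∀ t ∈ D, (volume (convexHull ℝ (t : Set E3))).toReal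
      ≤ K + ∑ m ∈ t.powersetCard 2, wt t m)
    (hedge : ∀ (m : Finset E3) (s : Finset (Finset E3)), m.card = 2 → (∃ t ∈ D, m ⊆ t) →
      (∀ t, t ∈ s ↔ t ∈ D ∧ m ⊆ t) → ∑ t ∈ s, wt t m ≤ 0) (R : ℝ) :
    (volume (Metric.closedBall (0 : E3) R)).toReal
      ≤ 6 * K * NN X (R + 4 * r) + 36 * C * (NN X (R + 4 * r) - NN X R) := by
  classical
  obtain ⟨hF1, hF2, -, hF4⟩ := finiteness hT hI hfin
  -- the finite set of tetrahedra
  let T : Finset (Finset E3) := (hF2 (R + 2 * r)).toFinset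
  have hTm : ∀ t, t ∈ T ↔ t ∈ D ∧ ∃ x ∈ t, ‖x‖ ≤ R + 2 * r := by
    intro t
    simp only [T, Set.Finite.mem_toFinset, Set.mem_ofPred_eq]
  have hTD : ∀ t ∈ T, t ∈ D := fun t ht => ((hTm t).1 ht).1
  have hdist : ∀ t ∈ D, ∀ x ∈ t, ∀ y ∈ t, ‖x‖ ≤ ‖y‖ + 2 * r := by
    intro t ht x hx y hy
    have h1 := hF1 t ht x (subset_convexHull ℝ _ (Finset.mem_coe.2 hx)) y
      (subset_convexHull ℝ _ (Finset.mem_coe.2 hy))
    rw [dist_eq_norm] at h1
    have h2 : ‖x‖ ≤ ‖y‖ + ‖x - y‖ := by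
      have := norm_add_le y (x - y)
      rwa [add_sub_cancel] at this
    linarith
  -- point sets
  let Y1 : Finset E3 := (hfin (R + 4 * r)).toFinset
  let Y0 : Finset E3 := (hfin R).toFinset
  have hY1m : ∀ x, x ∈ Y1 ↔ x ∈ X ∧ ‖x‖ ≤ R + 4 * r := by
    intro x
    simp only [Y1, Set.Finite.mem_toFinset, Set.mem_inter_iff, mem_closedBall_zero_iff]
  have hY0m : ∀ x, x ∈ Y0 ↔ x ∈ X ∧ ‖x‖ ≤ R := by
    intro x
    simp only [Y0, Set.Finite.mem_toFinset, Set.mem_inter_iff, mem_closedBall_zero_iff]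
  have hN1 : NN X (R + 4 * r) = Y1.card := Set.ncard_eq_toFinset_card _ (hfin (R + 4 * r))
  have hN0 : NN X R = Y0.card := Set.ncard_eq_toFinset_card _ (hfin R)
  have hY01 : Y0 ⊆ Y1 := by
    intro x hx
    rw [hY0m] at hx
    rw [hY1m]
    exact ⟨hx.1, by linarith [hx.2]⟩
  have hTY1 : ∀ t ∈ T, ∀ x ∈ t, x ∈ Y1 := by
    intro t ht x hx
    obtain ⟨htD, y, hy, hyn⟩ := (hTm t).1 ht
    rw [hY1m]
    exact ⟨hT.vertices t htD x hx, by linarith [hdist t htD x hx y hy]⟩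
  have hcT : T.card ≤ 6 * Y1.card :=
    four_card_le hT h24 T hTD Y1 (fun x hx => ((hY1m x).1 hx).1) hTY1
  -- boundary tetrahedra
  let B : Finset (Finset E3) := T.filter (fun t => ∃ y ∈ t, R + 2 * r < ‖y‖)
  have hBm : ∀ t, t ∈ B ↔ t ∈ T ∧ ∃ y ∈ t, R + 2 * r < ‖y‖ := by
    intro t
    simp only [B, Finset.mem_filter]
  have hcB : B.card ≤ 6 * (Y1 \ Y0).card := by
    refine four_card_le hT h24 B (fun t ht => hTD t ((hBm t).1 ht).1) (Y1 \ Y0)
      (fun x hx => ((hY1m x).1 (Finset.mem_sdiff.1 hx).1).1) ?_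
    intro t ht x hx
    obtain ⟨htT, y, hy, hyn⟩ := (hBm t).1 ht
    rw [Finset.mem_sdiff]
    refine ⟨hTY1 t htT x hx, fun h0 => ?_⟩
    have h1 := ((hY0m x).1 h0).2
    have h2 := hdist t (hTD t htT) y hy x hx
    linarith
  have hcY : (Y1 \ Y0).card + Y0.card = Y1.card := Finset.card_sdiff_add_card_eq_card hY01
  -- volume
  have hvfin : ∀ t : Finset E3, volume (convexHull ℝ (t : Set E3)) ≠ ⊤ := fun t =>
    (Set.Finite.isCompact_convexHull ℝ t.finite_toSet).measure_lt_top.ne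
  have hV : (volume (Metric.closedBall (0 : E3) R)).toReal
      ≤ ∑ t ∈ T, (volume (convexHull ℝ (t : Set E3))).toReal := by
    have h1 : Metric.closedBall (0 : E3) R ⊆ ⋃ t ∈ T, convexHull ℝ (t : Set E3) := by
      intro z hz
      have h2 := hF4 R hz
      simp only [Set.mem_iUnion, exists_prop] at h2 ⊢
      obtain ⟨t, ht, hzt⟩ := h2
      exact ⟨t, (hTm t).2 ht, hzt⟩
    have h3 : volume (Metric.closedBall (0 : E3) R)
        ≤ ∑ t ∈ T, volume (convexHull ℝ (t : Set E3)) :=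
      (measure_mono h1).trans (measure_biUnion_finset_le _ _)
    rw [← ENNReal.toReal_sum fun t _ => hvfin t]
    exact ENNReal.toReal_mono (ENNReal.sum_ne_top.2 fun t _ => hvfin t) h3
  -- splitting
  let Q : Finset E3 → Prop := fun m => ∀ x ∈ m, ‖x‖ ≤ R + 2 * r
  have hsplit : ∑ t ∈ T, ∑ m ∈ t.powersetCard 2, wt t m =
      ∑ t ∈ T, ∑ m ∈ (t.powersetCard 2).filter Q, wt t m +
      ∑ t ∈ T, ∑ m ∈ (t.powersetCard 2).filter (fun m => ¬ Q m), wt t m := by
    rw [← Finset.sum_add_distrib]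
    refine Finset.sum_congr rfl fun t _ => ?_
    rw [Finset.sum_filter_add_sum_filter_not]
  -- inner pairs
  have hin : ∑ t ∈ T, ∑ m ∈ (t.powersetCard 2).filter Q, wt t m ≤ 0 := by
    rw [Finset.sum_comm' (s' := fun m => T.filter (fun t => m ⊆ t))
      (t' := T.biUnion (fun t => (t.powersetCard 2).filter Q)) ?_]
    · refine Finset.sum_nonpos fun m hm => ?_
      rw [Finset.mem_biUnion] at hm
      obtain ⟨t0, ht0, hm0⟩ := hm
      rw [Finset.mem_filter, Finset.mem_powersetCard] at hm0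
      obtain ⟨⟨hmt0, hmc⟩, hmQ⟩ := hm0
      refine hedge m _ hmc ⟨t0, hTD t0 ht0, hmt0⟩ fun t => ?_
      rw [Finset.mem_filter]
      refine ⟨fun h => ⟨hTD t h.1, h.2⟩, fun h => ⟨(hTm t).2 ⟨h.1, ?_⟩, h.2⟩⟩
      have hne : m.Nonempty := by
        rw [← Finset.card_pos]; omega
      obtain ⟨x, hx⟩ := hne
      exact ⟨x, h.2 hx, hmQ x hx⟩
    · intro t m
      simp only [Finset.mem_filter, Finset.mem_powersetCard, Finset.mem_biUnion]
      constructor
      · rintro ⟨h1, ⟨h2, h3⟩, h4⟩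
        exact ⟨⟨h1, h2⟩, t, h1, ⟨h2, h3⟩, h4⟩
      · rintro ⟨⟨h1, h2⟩, t', h3, ⟨h4, h5⟩, h6⟩
        exact ⟨h1, ⟨h2, h5⟩, h6⟩
  -- boundary pairs
  have hout : ∑ t ∈ T, ∑ m ∈ (t.powersetCard 2).filter (fun m => ¬ Q m), wt t m
      ≤ B.card * (6 * C) := by
    have h1 : ∀ t ∈ T, ∑ m ∈ (t.powersetCard 2).filter (fun m => ¬ Q m), wt t m
        ≤ if (∃ y ∈ t, R + 2 * r < ‖y‖) then 6 * C else 0 := by
      intro t ht
      split_ifs with hy
      · have h2 : ∑ m ∈ (t.powersetCard 2).filter (fun m => ¬ Q m), wt t m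
            ≤ ∑ m ∈ (t.powersetCard 2).filter (fun m => ¬ Q m), C :=
          Finset.sum_le_sum fun m _ => (le_abs_self _).trans (hwC t m)
        refine h2.trans ?_
        rw [Finset.sum_const, nsmul_eq_mul]
        refine mul_le_mul_of_nonneg_right ?_ hC
        have h3 : ((t.powersetCard 2).filter (fun m => ¬ Q m)).card ≤ 6 := by
          refine (Finset.card_filter_le _ _).trans ?_
          rw [Finset.card_powersetCard, hT.card_eq t (hTD t ht)]
          decide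
        exact_mod_cast h3
      · rw [Finset.sum_eq_zero]
        intro m hm
        exfalso
        rw [Finset.mem_filter, Finset.mem_powersetCard] at hm
        apply hm.2
        intro x hx
        by_contra hc
        push Not at hc
        exact hy ⟨x, hm.1.1 hx, hc⟩
    refine (Finset.sum_le_sum h1).trans ?_
    rw [← Finset.sum_filter, Finset.sum_const, nsmul_eq_mul]
  -- conclusion
  have htot : ∑ t ∈ T, (volume (convexHull ℝ (t : Set E3))).toReal
      ≤ T.card * K + ∑ t ∈ T, ∑ m ∈ t.powersetCard 2, wt t m := by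
    have h1 := Finset.sum_le_sum fun t ht => hvol t (hTD t ht)
    rwa [Finset.sum_add_distrib, Finset.sum_const, nsmul_eq_mul] at h1
  have e1 : (T.card : ℝ) ≤ 6 * NN X (R + 4 * r) := by
    rw [hN1]; exact_mod_cast hcT
  have e2 : (B.card : ℝ) ≤ 6 * (NN X (R + 4 * r) - NN X R) := by
    rw [hN1, hN0]
    have h1 : (B.card : ℝ) ≤ 6 * ((Y1 \ Y0).card : ℝ) := by exact_mod_cast hcB
    have h2 : ((Y1 \ Y0).card : ℝ) + Y0.card = Y1.card := by exact_mod_cast hcY
    linarith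
  have e3 := mul_le_mul_of_nonneg_right e1 hK
  have e4 := mul_le_mul_of_nonneg_right e2 (by positivity : 0 ≤ 6 * C)
  linarith

end BccCov.C

namespace BccCov
export C (counting)
end BccCov
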