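import Mathlib

/-!
# MP_bf7174_co (thinnest covering of three-space by equal balls), project [BC3]: definitions
-/

set_option autoImplicit false

open scoped InnerProductSpace

namespace BccCov

/-- Euclidean three-space. -/
abbrev E3 := EuclideanSpace ℝ (Fin 3)

/-- `D` is a face-to-face decomposition of three-space into (nondegenerate) tetrahedra with vertices
in `X`. A tetrahedron is given by the finite set of its four vertices. -/
structure IsTriangulation (X : Set E3) (D : Set (Finset E3)) : Prop where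
  card_eq : ∀ t ∈ D, t.card = 4
  indep : ∀ t ∈ D, AffineIndependent ℝ (Subtype.val : {x // x ∈ t} → E3)
  vertices : ∀ t ∈ D, ∀ x ∈ t, x ∈ X
  cover : (⋃ t ∈ D, convexHull ℝ (t : Set E3)) = Set.univ
  faceToFace : ∀ t ∈ D, ∀ t' ∈ D,
    convexHull ℝ (t : Set E3) ∩ convexHull ℝ (t' : Set E3)
      = convexHull ℝ ((t : Set E3) ∩ (t' : Set E3))

/-- All points of `t` lie on a sphere of radius at most `r`. -/
def Inscribed (t : Finset E3) (r : ℝ) : Prop :=
  ∃ (o : E3) (ρ : ℝ), ρ ≤ r ∧ ∀ x ∈ t, dist x o = ρ

/-- The constant `c = 16 √5 / 375`; `5 c R³` is the volume of the bcc tetrahedron with circumradius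
`R`. -/
noncomputable def cc : ℝ := 16 * √5 / 375

/-- six times the signed volume of the tetrahedron `x y z w` -/
noncomputable def det3 (x y z w : E3) : ℝ :=
  (y 0 - x 0) * ((z 1 - x 1) * (w 2 - x 2) - (z 2 - x 2) * (w 1 - x 1))
  - (y 1 - x 1) * ((z 0 - x 0) * (w 2 - x 2) - (z 2 - x 2) * (w 0 - x 0))
  + (y 2 - x 2) * ((z 0 - x 0) * (w 1 - x 1) - (z 1 - x 1) * (w 0 - x 0))

/-- component of `v` orthogonal to `u` -/
noncomputable def perp (u v : E3) : E3 := v - (⟪u, v⟫_ℝ / ⟪u, u⟫_ℝ) • u

/-- dihedral angle of the tetrahedron `x y z w` at the edge `x y` -/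
noncomputable def dih (x y z w : E3) : ℝ :=
  InnerProductGeometry.angle (perp (y - x) (z - x)) (perp (y - x) (w - x))

/-- dihedral angle of the tetrahedron `t` at the edge `m ⊆ t`; the set below is a singleton -/
noncomputable def tdih (t m : Finset E3) : ℝ :=
  sSup {θ : ℝ | ∃ x y z w : E3, (m : Set E3) = {x, y} ∧ (t : Set E3) = {x, y, z, w} ∧
    θ = dih x y z w}

/-- number of points of `X` in the closed ball of radius `R` about the origin -/
noncomputable def NN (X : Set E3) (R : ℝ) : ℕ := (X ∩ Metric.closedBall (0 : E3) R).ncard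

end BccCov
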