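import Pool.Agent.MP_bf7174_co.Defs

/-!
# MP_bf7174_co (thinnest covering of three-space by equal balls): the body-centred cubic lattice
-/

set_option autoImplicit false

open scoped InnerProductSpace
open MeasureTheory

namespace BccCov

/-- The body-centred cubic lattice `ℤ³ ∪ (ℤ³ + (1/2, 1/2, 1/2))`. -/
def bcc : Set E3 := {v | (∀ i, ∃ n : ℤ, v i = n) ∨ (∀ i, ∃ n : ℤ, v i = n + 1 / 2)}

/-- The linear parametrisation of `bcc` by `ℤ³`. -/
noncomputable def BB (x : Fin 3 → ℤ) : E3 :=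
  !₂[((-x 0 + x 1 + x 2 : ℤ) : ℝ) / 2, ((x 0 - x 1 + x 2 : ℤ) : ℝ) / 2,
    ((x 0 + x 1 - x 2 : ℤ) : ℝ) / 2]

/-- The `j`-th vertex of the Kuhn tetrahedron with base point `x` and permutation `σ`:
`x`, `x + e_{σ 0}`, `x + e_{σ 0} + e_{σ 1}`, `x + (1, 1, 1)`. -/
def kv (x : Fin 3 → ℤ) (σ : Equiv.Perm (Fin 3)) (j : Fin 4) : Fin 3 → ℤ :=
  fun i => x i + if (σ.symm i : ℕ) < j then 1 else 0

/-- The image of a Kuhn tetrahedron under a map `p` of its vertices. -/
noncomputable def ktet (p : (Fin 3 → ℤ) → E3) (x : Fin 3 → ℤ) (σ : Equiv.Perm (Fin 3)) :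
    Finset E3 :=
  open Classical in Finset.univ.image fun j : Fin 4 => p (kv x σ j)

/-- all tetrahedra -/
def KD (p : (Fin 3 → ℤ) → E3) : Set (Finset E3) := {t | ∃ x σ, t = ktet p x σ}

/-- marked edges: images of pairs whose difference has exactly two coordinates `1` and one `0` -/
def KM (p : (Fin 3 → ℤ) → E3) : Set (Finset E3) :=
  {m | ∃ (x : Fin 3 → ℤ) (k : Fin 3),
    (m : Set E3) = {p x, p (fun i => x i + if i = k then 0 else 1)}}

end BccCov
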