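import Pool.Agent.MP_bf7174_co.Defs

set_option autoImplicit false

open scoped InnerProductSpace

namespace BccCov.G1

theorem angle_le (p q : E3) (k h : ℝ) (hk : 0 < k) (hh : 0 < h) (hpq : ‖p - q‖ = 2 * k)
    (hA : ‖p‖ ^ 2 * ‖q‖ ^ 2 - ⟪p, q⟫_ℝ ^ 2 = (2 * k * h) ^ 2) :
    InnerProductGeometry.angle p q ≤ 2 * Real.arctan (k / h) := by
  have hkh : 0 < k * h := by positivity
  set c : ℝ := ⟪p, q⟫_ℝ with hc
  set P : ℝ := ‖p‖ * ‖q‖ with hP
  have hP2 : P ^ 2 = c ^ 2 + 4 * k ^ 2 * h ^ 2 := by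
    rw [hP, mul_pow]; linarith
  have hP0 : 0 ≤ P := by positivity
  have hPpos : 0 < P := by
    rcases hP0.lt_or_eq with h' | h'
    · exact h'
    · rw [← h'] at hP2
      nlinarith [sq_nonneg c, mul_pos hkh hkh]
  have hsum : ‖p‖ ^ 2 + ‖q‖ ^ 2 = 4 * k ^ 2 + 2 * c := by
    have := norm_sub_sq_real p q
    rw [hpq] at this
    linarith
  have hc1 : h ^ 2 - k ^ 2 ≤ c := by
    have h1 : 4 * P ^ 2 ≤ (4 * k ^ 2 + 2 * c) ^ 2 := by
      rw [← hsum, hP]; nlinarith [sq_nonneg (‖p‖ ^ 2 - ‖q‖ ^ 2)]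
    rw [hP2] at h1
    have h2 : 16 * k ^ 2 * (h ^ 2) ≤ 16 * k ^ 2 * (k ^ 2 + c) := by nlinarith
    have h3 : 0 < 16 * k ^ 2 := by positivity
    have := le_of_mul_le_mul_left h2 h3
    linarith
  have key : (h ^ 2 - k ^ 2) * P ≤ c * (h ^ 2 + k ^ 2) := by
    rcases le_or_gt 0 c with h0 | h0
    · rcases le_or_gt (h ^ 2 - k ^ 2) 0 with h1 | h1
      · have : 0 ≤ c * (h ^ 2 + k ^ 2) := by positivity
        nlinarith
      · refine (pow_le_pow_iff_left₀ (by positivity) (by positivity) two_ne_zero).1 ?_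
        rw [mul_pow _ P, mul_pow c, hP2]
        have h2 : (h ^ 2 - k ^ 2) ^ 2 ≤ c ^ 2 := by nlinarith
        have h3 : 0 < 4 * k ^ 2 * h ^ 2 := by positivity
        nlinarith [mul_le_mul_of_nonneg_left h2 h3.le]
    · have h1 : h ^ 2 - k ^ 2 < 0 := by linarith
      have : (-c) * (h ^ 2 + k ^ 2) ≤ (k ^ 2 - h ^ 2) * P := by
        refine (pow_le_pow_iff_left₀ (by have := neg_pos.2 h0; positivity)
          (by have : 0 < k ^ 2 - h ^ 2 := by linarith
              positivity) two_ne_zero).1 ?_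
        rw [mul_pow (-c), mul_pow _ P, hP2]
        have h2 : c ^ 2 ≤ (k ^ 2 - h ^ 2) ^ 2 := by nlinarith
        have h3 : 0 < 4 * k ^ 2 * h ^ 2 := by positivity
        nlinarith [mul_le_mul_of_nonneg_left h2 h3.le]
      linarith
  have hpi := Real.pi_pos
  have harc0 : 0 < Real.arctan (k / h) := Real.arctan_pos.2 (by positivity)
  have harc1 : Real.arctan (k / h) < Real.pi / 2 := Real.arctan_lt_pi_div_two _
  rw [← Real.strictAntiOn_cos.le_iff_ge (a := 2 * Real.arctan (k / h))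
    (b := InnerProductGeometry.angle p q) ⟨by linarith, by linarith⟩
    ⟨InnerProductGeometry.angle_nonneg _ _, InnerProductGeometry.angle_le_pi _ _⟩]
  rw [Real.cos_two_mul, Real.cos_sq_arctan, InnerProductGeometry.cos_angle, ← hc, ← hP]
  have e : 2 * (1 / (1 + (k / h) ^ 2)) - 1 = (h ^ 2 - k ^ 2) / (h ^ 2 + k ^ 2) := by
    field_simp
    ring
  rw [e, div_le_div_iff₀ (by positivity) hPpos]
  exact key

end BccCov.G1

namespace BccCov
export G1 (angle_le)
end BccCov
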