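import Pool.Agent.MP_bf7174_co.Defs
import Pool.Agent.MP_bf7174_co.G1

set_option autoImplicit false

open scoped InnerProductSpace

namespace BccCov.G2

lemma inner3 (u v : E3) : ⟪u, v⟫_ℝ = u 0 * v 0 + u 1 * v 1 + u 2 * v 2 := by
  simp [PiLp.inner_apply, Fin.sum_univ_three]; ring

lemma perp_inner (u v v' : E3) (hu : ⟪u, u⟫_ℝ ≠ 0) :
    ⟪perp u v, perp u v'⟫_ℝ = ⟪v, v'⟫_ℝ - ⟪u, v⟫_ℝ * ⟪u, v'⟫_ℝ / ⟪u, u⟫_ℝ := by
  unfold perp
  rw [inner_sub_left, inner_sub_right, inner_sub_right, inner_smul_left, inner_smul_right,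
    inner_smul_right, inner_smul_left, real_inner_comm u v]
  simp only [conj_trivial]
  field_simp
  ring

lemma perp_sub (u v v' : E3) : perp u v - perp u v' = perp u (v - v') := by
  unfold perp
  rw [inner_sub_right, sub_div, sub_smul]
  abel

lemma gram (x y z w : E3) :
    ⟪y - x, y - x⟫_ℝ * ⟪z - x, z - x⟫_ℝ * ⟪w - x, w - x⟫_ℝ
      - ⟪z - x, z - x⟫_ℝ * ⟪y - x, w - x⟫_ℝ ^ 2 - ⟪w - x, w - x⟫_ℝ * ⟪y - x, z - x⟫_ℝ ^ 2
      - ⟪y - x, y - x⟫_ℝ * ⟪z - x, w - x⟫_ℝ ^ 2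
      + 2 * ⟪z - x, w - x⟫_ℝ * ⟪y - x, z - x⟫_ℝ * ⟪y - x, w - x⟫_ℝ
      = det3 x y z w ^ 2 := by
  simp only [inner3, PiLp.sub_apply]
  unfold det3
  generalize y 0 - x 0 = a0
  generalize y 1 - x 1 = a1
  generalize y 2 - x 2 = a2
  generalize z 0 - x 0 = b0
  generalize z 1 - x 1 = b1
  generalize z 2 - x 2 = b2
  generalize w 0 - x 0 = c0
  generalize w 1 - x 1 = c1
  generalize w 2 - x 2 = c2
  ring

lemma det3_swap (x y z w : E3) : det3 z w x y = det3 x y z w := by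
  unfold det3; ring

lemma half (x y z w : E3) (a b s d : ℝ) (ha : 0 < a) (hb : 0 < b) (hs : 0 < s)
    (hd : 0 < d) (h1 : ⟪y - x, y - x⟫_ℝ = 4 * a ^ 2) (h2 : ⟪w - z, w - z⟫_ℝ = 4 * b ^ 2)
    (h3 : 16 * a ^ 2 * b ^ 2 * s ^ 2 = 16 * a ^ 2 * b ^ 2 - ⟪y - x, w - z⟫_ℝ ^ 2)
    (h4 : (4 * a * b * s * d) ^ 2 = det3 x y z w ^ 2) :
    dih x y z w ≤ 2 * Real.arctan (b * s / d) := by
  have hu : ⟪y - x, y - x⟫_ℝ ≠ 0 := by rw [h1]; positivity
  have ha2 : a ≠ 0 := ha.ne'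
  unfold dih
  apply angle_le _ _ (b * s) d (by positivity) hd
  · rw [perp_sub]
    have e : z - x - (w - x) = -(w - z) := by abel
    have : ‖perp (y - x) (z - x - (w - x))‖ ^ 2 = (2 * (b * s)) ^ 2 := by
      rw [← real_inner_self_eq_norm_sq, perp_inner _ _ _ hu, e, inner_neg_neg, inner_neg_right,
        h2, h1]
      field_simp
      nlinarith [h3]
    exact (pow_left_inj₀ (norm_nonneg _) (by positivity) two_ne_zero).1 this
  · rw [← real_inner_self_eq_norm_sq, ← real_inner_self_eq_norm_sq, perp_inner _ _ _ hu,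
      perp_inner _ _ _ hu, perp_inner _ _ _ hu]
    have hg := gram x y z w
    rw [← h4, h1] at hg
    rw [h1]
    generalize ⟪z - x, z - x⟫_ℝ = P at *
    generalize ⟪w - x, w - x⟫_ℝ = Q at *
    generalize ⟪z - x, w - x⟫_ℝ = R at *
    generalize ⟪y - x, z - x⟫_ℝ = al at *
    generalize ⟪y - x, w - x⟫_ℝ = be at *
    have key : (P - al * al / (4 * a ^ 2)) * (Q - be * be / (4 * a ^ 2))
        - (R - al * be / (4 * a ^ 2)) ^ 2
        = (4 * a ^ 2 * P * Q - P * be ^ 2 - Q * al ^ 2 - 4 * a ^ 2 * R ^ 2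
          + 2 * R * al * be) / (4 * a ^ 2) := by
      field_simp
      ring
    rw [key, hg]
    field_simp
    ring

lemma det_le (x y z w v : E3) (α β : ℝ) (hv : v = (z - x) + α • (y - x) + β • (w - z)) :
    det3 x y z w ^ 2 ≤ (⟪y - x, y - x⟫_ℝ * ⟪w - z, w - z⟫_ℝ - ⟪y - x, w - z⟫_ℝ ^ 2) *
      ‖v‖ ^ 2 := by
  rw [← real_inner_self_eq_norm_sq]
  have e0 : v 0 = (z 0 - x 0) + α * (y 0 - x 0) + β * (w 0 - z 0) := by
    rw [hv]; simp
  have e1 : v 1 = (z 1 - x 1) + α * (y 1 - x 1) + β * (w 1 - z 1) := by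
    rw [hv]; simp
  have e2 : v 2 = (z 2 - x 2) + α * (y 2 - x 2) + β * (w 2 - z 2) := by
    rw [hv]; simp
  simp only [inner3, PiLp.sub_apply]
  have hdet : det3 x y z w =
      ((y 1 - x 1) * (w 2 - z 2) - (y 2 - x 2) * (w 1 - z 1)) * (-(v 0))
      + ((y 2 - x 2) * (w 0 - z 0) - (y 0 - x 0) * (w 2 - z 2)) * (-(v 1))
      + ((y 0 - x 0) * (w 1 - z 1) - (y 1 - x 1) * (w 0 - z 0)) * (-(v 2)) := by
    rw [e0, e1, e2]; unfold det3; ring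
  rw [hdet]
  generalize v 0 = v0
  generalize v 1 = v1
  generalize v 2 = v2
  generalize y 0 - x 0 = a0
  generalize y 1 - x 1 = a1
  generalize y 2 - x 2 = a2
  generalize w 0 - z 0 = b0
  generalize w 1 - z 1 = b1
  generalize w 2 - z 2 = b2
  nlinarith [sq_nonneg ((a1 * b2 - a2 * b1) * v1 - (a2 * b0 - a0 * b2) * v0),
    sq_nonneg ((a1 * b2 - a2 * b1) * v2 - (a0 * b1 - a1 * b0) * v0),
    sq_nonneg ((a2 * b0 - a0 * b2) * v2 - (a0 * b1 - a1 * b0) * v1)]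

lemma mid_dist (x y o : E3) (ρ a : ℝ) (hx : dist x o = ρ) (hy : dist y o = ρ)
    (h1 : ⟪y - x, y - x⟫_ℝ = 4 * a ^ 2) :
    ‖(1 / 2 : ℝ) • (x + y) - o‖ = √(ρ ^ 2 - a ^ 2) := by
  have hx2 : ⟪x - o, x - o⟫_ℝ = ρ ^ 2 := by
    rw [real_inner_self_eq_norm_sq, ← dist_eq_norm, hx]
  have hy2 : ⟪y - o, y - o⟫_ℝ = ρ ^ 2 := by
    rw [real_inner_self_eq_norm_sq, ← dist_eq_norm, hy]
  have : ‖(1 / 2 : ℝ) • (x + y) - o‖ ^ 2 = ρ ^ 2 - a ^ 2 := by
    rw [← real_inner_self_eq_norm_sq]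
    simp only [inner3, PiLp.sub_apply, PiLp.add_apply, PiLp.smul_apply, smul_eq_mul] at *
    nlinarith
  rw [← this, Real.sqrt_sq (norm_nonneg _)]

lemma pos_of_ne_zero' {t : ℝ} (h : 0 ≤ t) (h' : t ≠ 0) : 0 < t := lt_of_le_of_ne h h'.symm

theorem params (x y z w o : E3) (ρ : ℝ) (hx : dist x o = ρ) (hy : dist y o = ρ)
    (hz : dist z o = ρ) (hw : dist w o = ρ) (h : det3 x y z w ≠ 0) :
    ∃ a b s d : ℝ, 0 < a ∧ a ≤ ρ ∧ 0 < b ∧ b ≤ ρ ∧ 0 < s ∧ s ≤ 1 ∧ 0 < d ∧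
      d ≤ √(ρ ^ 2 - a ^ 2) + √(ρ ^ 2 - b ^ 2) ∧
      |det3 x y z w| = 4 * a * b * s * d ∧
      dih x y z w ≤ 2 * Real.arctan (b * s / d) ∧
      dih z w x y ≤ 2 * Real.arctan (a * s / d) := by
  have hdet2 : 0 < det3 x y z w ^ 2 := by positivity
  set N2 : ℝ := ⟪y - x, y - x⟫_ℝ * ⟪w - z, w - z⟫_ℝ - ⟪y - x, w - z⟫_ℝ ^ 2 with hN2
  have hN : 0 < N2 := by
    have := det_le x y z w (z - x) 0 0 (by simp)
    rw [← hN2] at this
    by_contra hneg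
    push Not at hneg
    nlinarith [sq_nonneg ‖z - x‖]
  have hA0 : 0 ≤ ⟪y - x, y - x⟫_ℝ := real_inner_self_nonneg
  have hB0 : 0 ≤ ⟪w - z, w - z⟫_ℝ := real_inner_self_nonneg
  have hAB : 0 < ⟪y - x, y - x⟫_ℝ * ⟪w - z, w - z⟫_ℝ := by
    nlinarith [sq_nonneg ⟪y - x, w - z⟫_ℝ]
  have hA : 0 < ⟪y - x, y - x⟫_ℝ := by
    rcases hA0.lt_or_eq with h' | h'
    · exact h'
    · rw [← h'] at hAB; simp at hAB
  have hB : 0 < ⟪w - z, w - z⟫_ℝ := by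
    rcases hB0.lt_or_eq with h' | h'
    · exact h'
    · rw [← h'] at hAB; simp at hAB
  have hAn : 0 < ‖y - x‖ := by
    rw [real_inner_self_eq_norm_sq] at hA
    exact pos_of_ne_zero' (norm_nonneg _) (fun h0 => by rw [h0] at hA; simp at hA)
  have hBn : 0 < ‖w - z‖ := by
    rw [real_inner_self_eq_norm_sq] at hB
    exact pos_of_ne_zero' (norm_nonneg _) (fun h0 => by rw [h0] at hB; simp at hB)
  set a : ℝ := ‖y - x‖ / 2 with ha
  set b : ℝ := ‖w - z‖ / 2 with hb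
  have ha0 : 0 < a := by positivity
  have hb0 : 0 < b := by positivity
  have h1 : ⟪y - x, y - x⟫_ℝ = 4 * a ^ 2 := by
    rw [real_inner_self_eq_norm_sq, ha]; ring
  have h2 : ⟪w - z, w - z⟫_ℝ = 4 * b ^ 2 := by
    rw [real_inner_self_eq_norm_sq, hb]; ring
  set s : ℝ := √N2 / (4 * a * b) with hs
  have hsN : 0 < √N2 := Real.sqrt_pos.2 hN
  have hs0 : 0 < s := by positivity
  set d : ℝ := |det3 x y z w| / √N2 with hd
  have hd0 : 0 < d := by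
    have := abs_pos.2 h
    positivity
  have hdet : |det3 x y z w| = 4 * a * b * s * d := by
    rw [hs, hd]; field_simp
  have hN2' : √N2 ^ 2 = N2 := Real.sq_sqrt hN.le
  have hs2 : 16 * a ^ 2 * b ^ 2 * s ^ 2 = 16 * a ^ 2 * b ^ 2 - ⟪y - x, w - z⟫_ℝ ^ 2 := by
    have : 16 * a ^ 2 * b ^ 2 * s ^ 2 = √N2 ^ 2 := by
      rw [hs]; field_simp; norm_num
    rw [this, hN2', hN2, h1, h2]; ring
  have hdd : (4 * a * b * s * d) ^ 2 = det3 x y z w ^ 2 := by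
    rw [← hdet, sq_abs]
  refine ⟨a, b, s, d, ha0, ?_, hb0, ?_, hs0, ?_, hd0, ?_, hdet, ?_, ?_⟩
  · have : ‖y - x‖ ≤ 2 * ρ := by
      rw [← dist_eq_norm]
      calc dist y x ≤ dist y o + dist o x := dist_triangle _ _ _
        _ = 2 * ρ := by rw [dist_comm o x, hx, hy]; ring
    rw [ha]; linarith
  · have : ‖w - z‖ ≤ 2 * ρ := by
      rw [← dist_eq_norm]
      calc dist w z ≤ dist w o + dist o z := dist_triangle _ _ _
        _ = 2 * ρ := by rw [dist_comm o z, hz, hw]; ring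
    rw [hb]; linarith
  · have : s ^ 2 ≤ 1 := by
      have h16 : 0 < 16 * a ^ 2 * b ^ 2 := by positivity
      have : 16 * a ^ 2 * b ^ 2 * s ^ 2 ≤ 16 * a ^ 2 * b ^ 2 * 1 := by
        rw [hs2]; nlinarith [sq_nonneg ⟪y - x, w - z⟫_ℝ]
      exact le_of_mul_le_mul_left this h16
    nlinarith
  · have hle := det_le x y z w ((1 / 2 : ℝ) • (z + w) - (1 / 2 : ℝ) • (x + y)) (-1 / 2) (1 / 2)
      (by ext i; simp; ring)
    rw [← hN2, ← sq_abs (det3 x y z w)] at hle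
    have hd_le : d ≤ ‖(1 / 2 : ℝ) • (z + w) - (1 / 2 : ℝ) • (x + y)‖ := by
      rw [hd, div_le_iff₀ hsN]
      refine (pow_le_pow_iff_left₀ (abs_nonneg _) (by positivity) two_ne_zero).1 ?_
      rw [mul_pow, hN2']
      linarith
    refine hd_le.trans ?_
    rw [← mid_dist x y o ρ a hx hy h1, ← mid_dist z w o ρ b hz hw h2]
    have : (1 / 2 : ℝ) • (z + w) - (1 / 2 : ℝ) • (x + y)
        = ((1 / 2 : ℝ) • (z + w) - o) - ((1 / 2 : ℝ) • (x + y) - o) := by abel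
    rw [this]
    refine (norm_sub_le _ _).trans ?_
    rw [add_comm]
  · exact half x y z w a b s d ha0 hb0 hs0 hd0 h1 h2 hs2 hdd
  · refine half z w x y b a s d hb0 ha0 hs0 hd0 h2 h1 ?_ ?_
    · rw [real_inner_comm]; linarith
    · rw [det3_swap, ← hdd]; ring

end BccCov.G2

namespace BccCov
export G2 (params)
end BccCov
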