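import Pool.Agent.MP_bf7174_co.Defs

set_option autoImplicit false

namespace BccCov.G3

/-- the function -/
noncomputable def g3f (u : ℝ) : ℝ :=
  25 * √5 * u ^ 2 / ((1 + 4 * u ^ 2) * √(1 + 4 * u ^ 2)) + 4 * Real.arctan u

theorem g3_hasDeriv (u : ℝ) : HasDerivAt g3f
    (4 / (1 + u ^ 2) - 50 * √5 * u * (2 * u ^ 2 - 1) / ((1 + 4 * u ^ 2) ^ 2 * √(1 + 4 * u ^ 2))) u := by
  have hw : 0 < 1 + 4 * u ^ 2 := by positivity
  have hs : 0 < √(1 + 4 * u ^ 2) := Real.sqrt_pos.2 hw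
  have hss : √(1 + 4 * u ^ 2) ^ 2 = 1 + 4 * u ^ 2 := Real.sq_sqrt hw.le
  have h1 : HasDerivAt (fun u : ℝ => 1 + 4 * u ^ 2) (8 * u) u := by
    refine (((hasDerivAt_pow 2 u).const_mul 4).const_add 1).congr_deriv ?_
    simp only [Nat.cast_ofNat, Nat.add_one_sub_one, pow_one]
    ring
  have h2 := h1.sqrt hw.ne'
  have h3 := h1.mul h2
  have h4 : HasDerivAt (fun u : ℝ => 25 * √5 * u ^ 2) (25 * √5 * (2 * u)) u := by
    refine ((hasDerivAt_pow 2 u).const_mul (25 * √5)).congr_deriv ?_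
    simp only [Nat.cast_ofNat, Nat.add_one_sub_one, pow_one]
  have h5 := h4.div h3 (mul_pos hw hs).ne'
  have h6 := (Real.hasDerivAt_arctan u).const_mul 4
  have h7 := h5.add h6
  refine h7.congr_deriv ?_
  set s := √(1 + 4 * u ^ 2) with hsd
  simp only [Pi.mul_apply]
  have e1 : (1 + 4 * u ^ 2) = s ^ 2 := hss.symm
  have hs0 : s ≠ 0 := hs.ne'
  have h8 : (25 * √5 * (2 * u) * ((1 + 4 * u ^ 2) * s) -
      25 * √5 * u ^ 2 * (8 * u * s + (1 + 4 * u ^ 2) * (8 * u / (2 * s)))) /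
      ((1 + 4 * u ^ 2) * s) ^ 2 = - (50 * √5 * u * (2 * u ^ 2 - 1) / ((1 + 4 * u ^ 2) ^ 2 * s)) := by
    rw [e1]
    field_simp
    have e2 : u ^ 2 = (s ^ 2 - 1) / 4 := by rw [← e1]; ring
    rw [e2]
    ring
  rw [h8]
  ring

theorem g3_Q (v : ℝ) (hv : 1 / 2 ≤ v) :
    0 < 16 - 12164 * v + 15396 * v ^ 2 + 63136 * v ^ 3 + 33616 * v ^ 4 := by
  obtain ⟨t, rfl⟩ : ∃ t, v = 1 / 2 + t := ⟨v - 1 / 2, by ring⟩
  have ht : 0 ≤ t := by linarith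
  have e : 16 - 12164 * (1 / 2 + t) + 15396 * (1 / 2 + t) ^ 2 + 63136 * (1 / 2 + t) ^ 3 +
      33616 * (1 / 2 + t) ^ 4 = 7776 + 67392 * t + 160524 * t ^ 2 + 130368 * t ^ 3 + 33616 * t ^ 4 := by
    ring
  rw [e]
  positivity

theorem g3_id (v : ℝ) : 16 * (1 + 4 * v) ^ 5 - 12500 * v * (2 * v - 1) ^ 2 * (1 + v) ^ 2 =
    (1 - v) * (16 - 12164 * v + 15396 * v ^ 2 + 63136 * v ^ 3 + 33616 * v ^ 4) := by
  ring

theorem g3_sq1 (u : ℝ) : (50 * √5 * u * (2 * u ^ 2 - 1) * (1 + u ^ 2)) ^ 2 =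
    12500 * u ^ 2 * (2 * u ^ 2 - 1) ^ 2 * (1 + u ^ 2) ^ 2 := by
  have h5 : √5 ^ 2 = (5 : ℝ) := Real.sq_sqrt (by norm_num)
  calc (50 * √5 * u * (2 * u ^ 2 - 1) * (1 + u ^ 2)) ^ 2 =
      √5 ^ 2 * (2500 * u ^ 2 * (2 * u ^ 2 - 1) ^ 2 * (1 + u ^ 2) ^ 2) := by ring
    _ = _ := by rw [h5]; ring

theorem g3_sq2 (u : ℝ) : (4 * ((1 + 4 * u ^ 2) ^ 2 * √(1 + 4 * u ^ 2))) ^ 2 = 16 * (1 + 4 * u ^ 2) ^ 5 := by
  have h5 : √(1 + 4 * u ^ 2) ^ 2 = 1 + 4 * u ^ 2 := Real.sq_sqrt (by positivity)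
  calc (4 * ((1 + 4 * u ^ 2) ^ 2 * √(1 + 4 * u ^ 2))) ^ 2 =
      √(1 + 4 * u ^ 2) ^ 2 * (16 * (1 + 4 * u ^ 2) ^ 4) := by ring
    _ = _ := by rw [h5]; ring

theorem g3_nonneg (u : ℝ) (h0 : 0 ≤ u) (h1 : u ≤ 1) : 0 ≤
    4 / (1 + u ^ 2) - 50 * √5 * u * (2 * u ^ 2 - 1) / ((1 + 4 * u ^ 2) ^ 2 * √(1 + 4 * u ^ 2)) := by
  have hw : 0 < 1 + 4 * u ^ 2 := by positivity
  have hs : 0 < √(1 + 4 * u ^ 2) := Real.sqrt_pos.2 hw
  rw [sub_nonneg, div_le_div_iff₀ (by positivity) (by positivity)]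
  have hB : 0 ≤ 4 * ((1 + 4 * u ^ 2) ^ 2 * √(1 + 4 * u ^ 2)) := by positivity
  rcases le_total (2 * u ^ 2) 1 with h | h
  · refine le_trans ?_ hB
    have : 0 ≤ 50 * √5 * u * (1 + u ^ 2) := by positivity
    nlinarith
  · have hA : 0 ≤ 50 * √5 * u * (2 * u ^ 2 - 1) * (1 + u ^ 2) := by
      have : 0 ≤ 2 * u ^ 2 - 1 := by linarith
      positivity
    rw [← pow_le_pow_iff_left₀ hA hB two_ne_zero, g3_sq1, g3_sq2, ← sub_nonneg, g3_id]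
    have h2 : u ^ 2 ≤ 1 := by nlinarith
    exact mul_nonneg (by linarith) (g3_Q _ (by linarith)).le

theorem g3_nonpos (u : ℝ) (h1 : 1 ≤ u) :
    4 / (1 + u ^ 2) - 50 * √5 * u * (2 * u ^ 2 - 1) / ((1 + 4 * u ^ 2) ^ 2 * √(1 + 4 * u ^ 2)) ≤ 0 := by
  have hw : 0 < 1 + 4 * u ^ 2 := by positivity
  have hs : 0 < √(1 + 4 * u ^ 2) := Real.sqrt_pos.2 hw
  have h2 : 1 ≤ u ^ 2 := by nlinarith
  rw [sub_nonpos, div_le_div_iff₀ (by positivity) (by positivity)]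
  have hB : 0 ≤ 4 * ((1 + 4 * u ^ 2) ^ 2 * √(1 + 4 * u ^ 2)) := by positivity
  have hA : 0 ≤ 50 * √5 * u * (2 * u ^ 2 - 1) * (1 + u ^ 2) := by
    have : 0 ≤ 2 * u ^ 2 - 1 := by linarith
    have : 0 ≤ u := by linarith
    positivity
  rw [← pow_le_pow_iff_left₀ hB hA two_ne_zero, g3_sq1, g3_sq2, ← sub_nonpos, g3_id]
  exact mul_nonpos_of_nonpos_of_nonneg (by linarith) (g3_Q _ (by linarith)).le

theorem g3_one : g3f 1 = 5 + Real.pi := by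
  unfold g3f
  rw [Real.arctan_one]
  have h5 : √5 ^ 2 = (5 : ℝ) := Real.sq_sqrt (by norm_num)
  have h50 : √5 ≠ (0 : ℝ) := by positivity
  have e : (1 : ℝ) + 4 * 1 ^ 2 = 5 := by norm_num
  rw [e]
  field_simp
  ring

theorem one_var (u : ℝ) (hu : 0 ≤ u) :
    25 * √5 * u ^ 2 / ((1 + 4 * u ^ 2) * √(1 + 4 * u ^ 2)) + 4 * Real.arctan u
      ≤ 5 + Real.pi := by
  change g3f u ≤ _
  rw [← g3_one]
  have hc : Continuous g3f := continuous_iff_continuousAt.2 fun x => (g3_hasDeriv x).continuousAt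
  rcases le_total u 1 with h | h
  · have hm : MonotoneOn g3f (Set.Icc 0 1) := by
      apply monotoneOn_of_deriv_nonneg (convex_Icc 0 1) hc.continuousOn
      · exact fun x _ => (g3_hasDeriv x).differentiableAt.differentiableWithinAt
      · intro x hx
        rw [interior_Icc] at hx
        rw [(g3_hasDeriv x).deriv]
        exact g3_nonneg x hx.1.le hx.2.le
    exact hm ⟨hu, h⟩ ⟨by norm_num, le_rfl⟩ h
  · have hm : AntitoneOn g3f (Set.Ici 1) := by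
      apply antitoneOn_of_deriv_nonpos (convex_Ici 1) hc.continuousOn
      · exact fun x _ => (g3_hasDeriv x).differentiableAt.differentiableWithinAt
      · intro x hx
        rw [interior_Ici] at hx
        rw [(g3_hasDeriv x).deriv]
        exact g3_nonpos x (le_of_lt hx)
    exact hm Set.self_mem_Ici h h

end BccCov.G3

namespace BccCov
export G3 (one_var)
end BccCov
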