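import Pool.Agent.MP_bf7174_co.Defs
import Pool.Agent.MP_bf7174_co.G3

set_option autoImplicit false

open scoped InnerProductSpace

namespace BccCov.G4

theorem arctan_concave : ConcaveOn ℝ (Set.Ici (0 : ℝ)) Real.arctan := by
  apply AntitoneOn.concaveOn_of_deriv (convex_Ici 0)
  · exact Real.continuous_arctan.continuousOn
  · exact Real.differentiable_arctan.differentiableOn
  · intro x hx y hy hxy
    rw [interior_Ici] at hx hy
    rw [Real.deriv_arctan]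
    simp only
    have hx0 : (0 : ℝ) < x := hx
    apply one_div_le_one_div_of_le (by positivity)
    nlinarith

theorem arctan_mid (s t : ℝ) (hs : 0 ≤ s) (ht : 0 ≤ t) :
    Real.arctan s + Real.arctan t ≤ 2 * Real.arctan ((s + t) / 2) := by
  have h := arctan_concave.2 (Set.mem_Ici.2 hs) (Set.mem_Ici.2 ht)
    (show (0 : ℝ) ≤ 1 / 2 by norm_num) (show (0 : ℝ) ≤ 1 / 2 by norm_num) (by norm_num)
  simp only [smul_eq_mul] at h
  have e : (1 / 2 * s + 1 / 2 * t) = (s + t) / 2 := by ring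
  rw [e] at h
  linarith

theorem two_var (a b : ℝ) (ha : 0 < a) (ha1 : a ≤ 1) (hb : 0 < b) (hb1 : b ≤ 1)
    (hd : 0 < √(1 - a ^ 2) + √(1 - b ^ 2)) :
    2 / 3 * a * b * (√(1 - a ^ 2) + √(1 - b ^ 2))
      + 2 * cc * (Real.arctan (b / (√(1 - a ^ 2) + √(1 - b ^ 2)))
        + Real.arctan (a / (√(1 - a ^ 2) + √(1 - b ^ 2)))) ≤ cc * (5 + Real.pi) := by
  have hA : √(1 - a ^ 2) ^ 2 = 1 - a ^ 2 := Real.sq_sqrt (by nlinarith)
  have hB : √(1 - b ^ 2) ^ 2 = 1 - b ^ 2 := Real.sq_sqrt (by nlinarith)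
  have hA0 : 0 ≤ √(1 - a ^ 2) := Real.sqrt_nonneg _
  have hB0 : 0 ≤ √(1 - b ^ 2) := Real.sqrt_nonneg _
  generalize √(1 - a ^ 2) = A at *
  generalize √(1 - b ^ 2) = B at *
  obtain ⟨d, hddef⟩ : ∃ d, d = A + B := ⟨_, rfl⟩
  rw [← hddef] at hd ⊢
  have hcc : 0 < cc := by unfold cc; positivity
  have h5 : √5 * √5 = (5 : ℝ) := Real.mul_self_sqrt (by norm_num)
  obtain ⟨u, hu⟩ : ∃ u, u = (a + b) / d / 2 := ⟨_, rfl⟩
  have hu0 : 0 ≤ u := by rw [hu]; positivity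
  have h1 := one_var u hu0
  -- angles
  have h2 : Real.arctan (b / d) + Real.arctan (a / d) ≤ 2 * Real.arctan u := by
    have := arctan_mid (b / d) (a / d) (by positivity) (by positivity)
    have e : (b / d + a / d) / 2 = u := by rw [hu]; ring
    rwa [e] at this
  -- the product
  have hSsq : √(d ^ 2 + (a + b) ^ 2) ^ 2 = d ^ 2 + (a + b) ^ 2 := Real.sq_sqrt (by positivity)
  have hS0 : 0 < √(d ^ 2 + (a + b) ^ 2) := by positivity
  generalize √(d ^ 2 + (a + b) ^ 2) = S at *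
  have hS2 : S ≤ 2 := by
    have : S ^ 2 ≤ 2 ^ 2 := by
      rw [hSsq, hddef]
      have : a * b + A * B ≤ 1 := by nlinarith [sq_nonneg (a - b), sq_nonneg (A - B)]
      nlinarith
    exact le_of_sq_le_sq this (by norm_num)
  have e1 : 1 + 4 * u ^ 2 = S ^ 2 / d ^ 2 := by
    rw [hSsq, hu]; field_simp; ring
  have e2 : √(1 + 4 * u ^ 2) = S / d := by
    rw [e1, ← div_pow, Real.sqrt_sq (by positivity)]
  have e3 : u ^ 2 / ((1 + 4 * u ^ 2) * √(1 + 4 * u ^ 2)) = (a + b) ^ 2 * d / (4 * S ^ 3) := by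
    rw [e2, e1, hu]; field_simp; ring
  obtain ⟨w, hw⟩ : ∃ w, w = u ^ 2 / ((1 + 4 * u ^ 2) * √(1 + 4 * u ^ 2)) := ⟨_, rfl⟩
  have h3 : a * b * d ≤ 8 * w := by
    rw [hw, e3]
    have : a * b * S ^ 3 ≤ 2 * (a + b) ^ 2 := by
      have hS3 : S ^ 3 ≤ 8 := by
        calc S ^ 3 ≤ 2 ^ 3 := pow_le_pow_left₀ hS0.le hS2 3
          _ = 8 := by norm_num
      have hab : 0 < a * b := by positivity
      nlinarith [sq_nonneg (a - b), mul_le_mul_of_nonneg_left hS3 hab.le]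
    have h4 : 8 * ((a + b) ^ 2 * d / (4 * S ^ 3)) = 2 * (a + b) ^ 2 * d / S ^ 3 := by
      field_simp; ring
    rw [h4, le_div_iff₀ (by positivity)]
    have h5 := mul_le_mul_of_nonneg_right this hd.le
    linarith
  -- assembly
  have hc : cc * (25 * √5) = 16 / 3 := by
    unfold cc
    linear_combination (16 * 25 / 375) * h5
  have h4 : cc * (25 * √5 * u ^ 2 / ((1 + 4 * u ^ 2) * √(1 + 4 * u ^ 2)) + 4 * Real.arctan u)
      ≤ cc * (5 + Real.pi) := mul_le_mul_of_nonneg_left h1 hcc.le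
  have h5' : cc * (25 * √5 * u ^ 2 / ((1 + 4 * u ^ 2) * √(1 + 4 * u ^ 2)) + 4 * Real.arctan u)
      = 16 / 3 * w + 4 * cc * Real.arctan u := by
    rw [← hc, hw]; ring
  rw [h5'] at h4
  have h6 := mul_le_mul_of_nonneg_left h2 (by positivity : 0 ≤ 2 * cc)
  linarith

end BccCov.G4

namespace BccCov
export G4 (two_var)
end BccCov
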