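import Pool.Agent.MP_bf7174_co.Defs
import Pool.Agent.MP_bf7174_co.G4

set_option autoImplicit false

open scoped InnerProductSpace

namespace BccCov.G5

theorem arctan_concave : ConcaveOn ℝ (Set.Ici (0 : ℝ)) Real.arctan := by
  apply AntitoneOn.concaveOn_of_deriv (convex_Ici 0)
  · exact Real.continuous_arctan.continuousOn
  · exact Real.differentiable_arctan.differentiableOn
  · intro x hx y hy hxy
    rw [interior_Ici] at hx hy
    rw [Real.deriv_arctan]
    simp only
    have hx0 : (0 : ℝ) < x := hx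
    apply one_div_le_one_div_of_le (by positivity)
    nlinarith

/-- `arctan (b / d) ≤ (1 - t) π/2 + t arctan (b / D)` for `d = t D`. -/
theorem arctan_conv (b d D : ℝ) (hb : 0 < b) (hd : 0 < d) (hD : d ≤ D) :
    Real.arctan (b / d) ≤ (1 - d / D) * (Real.pi / 2) + d / D * Real.arctan (b / D) := by
  have hD0 : 0 < D := lt_of_lt_of_le hd hD
  have e : ∀ x : ℝ, 0 < x → Real.arctan (b / x) = Real.pi / 2 - Real.arctan (x / b) := by
    intro x hx
    have := Real.arctan_inv_of_pos (x := x / b) (by positivity)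
    rw [inv_div] at this
    exact this
  rw [e d hd, e D hD0]
  have ht : 0 ≤ 1 - d / D := by
    rw [sub_nonneg, div_le_one hD0]; exact hD
  have h := arctan_concave.2 (x := 0) (y := D / b) (Set.mem_Ici.2 le_rfl)
    (Set.mem_Ici.2 (by positivity)) ht (show (0 : ℝ) ≤ d / D by positivity) (by ring)
  simp only [smul_eq_mul, Real.arctan_zero, mul_zero, zero_add] at h
  have e2 : d / D * (D / b) = d / b := by field_simp
  rw [e2] at h
  linarith

theorem real_ineq (a b s d : ℝ) (ha : 0 < a) (ha1 : a ≤ 1) (hb : 0 < b) (hb1 : b ≤ 1)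
    (hs : 0 < s) (hs1 : s ≤ 1) (hd : 0 < d) (hd1 : d ≤ √(1 - a ^ 2) + √(1 - b ^ 2)) :
    2 / 3 * a * b * s * d + 2 * cc * (Real.arctan (b * s / d) + Real.arctan (a * s / d))
      ≤ cc * (5 + Real.pi) := by
  have hcc : 0 < cc := by unfold cc; positivity
  have h2 := two_var a b ha ha1 hb hb1 (lt_of_lt_of_le hd hd1)
  generalize √(1 - a ^ 2) + √(1 - b ^ 2) = D at *
  have hD0 : 0 < D := lt_of_lt_of_le hd hd1
  have hs' : ∀ x : ℝ, 0 < x → Real.arctan (x * s / d) ≤ Real.arctan (x / d) := by
    intro x hx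
    apply Real.arctan_mono
    apply div_le_div_of_nonneg_right _ hd.le
    nlinarith
  have hA := (hs' a ha).trans (arctan_conv a d D ha hd hd1)
  have hB := (hs' b hb).trans (arctan_conv b d D hb hd hd1)
  have hp : 2 / 3 * a * b * s * d ≤ 2 / 3 * a * b * d := by
    have : 0 < 2 / 3 * a * b * d := by positivity
    nlinarith
  obtain ⟨t, ht⟩ : ∃ t, t = d / D := ⟨_, rfl⟩
  have htd : d = t * D := by rw [ht]; field_simp
  have ht0 : 0 < t := by rw [ht]; positivity
  have ht1 : t ≤ 1 := by rw [ht, div_le_one hD0]; exact hd1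
  rw [← ht] at hA hB
  have hpi : Real.pi ≤ 5 := by linarith [Real.pi_le_four]
  have hsum : Real.arctan (b * s / d) + Real.arctan (a * s / d) ≤
      (1 - t) * Real.pi + t * (Real.arctan (b / D) + Real.arctan (a / D)) := by linarith
  have h3 := mul_le_mul_of_nonneg_left hsum (by positivity : 0 ≤ 2 * cc)
  have h4 := mul_le_mul_of_nonneg_left h2 ht0.le
  have h5 : (1 - t) * (2 * cc * Real.pi) ≤ (1 - t) * (cc * (5 + Real.pi)) := by
    apply mul_le_mul_of_nonneg_left _ (by linarith)
    nlinarith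
  have h6 : 2 / 3 * a * b * d = t * (2 / 3 * a * b * D) := by rw [htd]; ring
  nlinarith

end BccCov.G5

namespace BccCov
export G5 (real_ineq)
end BccCov
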