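import Pool.Agent.MP_bf7174_co.Defs
import Pool.Agent.MP_bf7174_co.G2
import Pool.Agent.MP_bf7174_co.G5

set_option autoImplicit false

open scoped InnerProductSpace

namespace BccCov.G6

theorem local_ineq (x y z w o : E3) (ρ r : ℝ) (hρ : ρ ≤ r) (hx : dist x o = ρ)
    (hy : dist y o = ρ) (hz : dist z o = ρ) (hw : dist w o = ρ) (h : det3 x y z w ≠ 0) :
    |det3 x y z w| / 6 ≤ cc * r ^ 3 * (5 + Real.pi - dih x y z w - dih z w x y) := by
  obtain ⟨a, b, s, d, ha, haρ, hb, hbρ, hs, hs1, hd, hd1, hdet, h1, h2⟩ :=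
    params x y z w o ρ hx hy hz hw h
  have hρ0 : 0 < ρ := lt_of_lt_of_le ha haρ
  have hcc : 0 < cc := by unfold cc; positivity
  have hD : d / ρ ≤ √(1 - (a / ρ) ^ 2) + √(1 - (b / ρ) ^ 2) := by
    have e : ∀ t : ℝ, √(1 - (t / ρ) ^ 2) = √(ρ ^ 2 - t ^ 2) / ρ := by
      intro t
      have : 1 - (t / ρ) ^ 2 = (ρ ^ 2 - t ^ 2) / ρ ^ 2 := by field_simp
      rw [this, Real.sqrt_div' _ (by positivity), Real.sqrt_sq hρ0.le]
    rw [e a, e b, ← add_div]
    exact div_le_div_of_nonneg_right hd1 hρ0.le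
  have hreal := real_ineq (a / ρ) (b / ρ) s (d / ρ) (by positivity)
    ((div_le_one hρ0).2 haρ) (by positivity) ((div_le_one hρ0).2 hbρ) hs hs1 (by positivity) hD
  have e1 : b / ρ * s / (d / ρ) = b * s / d := by field_simp
  have e2 : a / ρ * s / (d / ρ) = a * s / d := by field_simp
  rw [e1, e2] at hreal
  have h3 : 2 / 3 * (a / ρ) * (b / ρ) * s * (d / ρ) ≤
      cc * (5 + Real.pi - dih x y z w - dih z w x y) := by
    have := mul_le_mul_of_nonneg_left h1 hcc.le
    have := mul_le_mul_of_nonneg_left h2 hcc.le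
    nlinarith
  have h4 : |det3 x y z w| / 6 ≤ cc * ρ ^ 3 * (5 + Real.pi - dih x y z w - dih z w x y) := by
    have e : |det3 x y z w| / 6 = ρ ^ 3 * (2 / 3 * (a / ρ) * (b / ρ) * s * (d / ρ)) := by
      rw [hdet]; field_simp; ring
    rw [e]
    calc ρ ^ 3 * (2 / 3 * (a / ρ) * (b / ρ) * s * (d / ρ))
        ≤ ρ ^ 3 * (cc * (5 + Real.pi - dih x y z w - dih z w x y)) :=
          mul_le_mul_of_nonneg_left h3 (by positivity)
      _ = _ := by ring
  have hpos : 0 ≤ 5 + Real.pi - dih x y z w - dih z w x y := by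
    have := InnerProductGeometry.angle_le_pi (perp (y - x) (z - x)) (perp (y - x) (w - x))
    have := InnerProductGeometry.angle_le_pi (perp (w - z) (x - z)) (perp (w - z) (y - z))
    have := Real.pi_le_four
    unfold dih
    linarith
  refine h4.trans (mul_le_mul_of_nonneg_right ?_ hpos)
  exact mul_le_mul_of_nonneg_left (pow_le_pow_left₀ hρ0.le hρ 3) hcc.le

end BccCov.G6

namespace BccCov
export G6 (local_ineq)
end BccCov
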