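import Pool.Agent.MP_bf7174_co.DefsL
import Pool.Agent.MP_bf7174_co.F

/-!
# [BC3-LA] strictly Delaunay families of tetrahedra tile space
-/

set_option autoImplicit false

open scoped InnerProductSpace
open MeasureTheory

namespace BccCov

namespace LA

/-- difference of the powers with respect to two spheres -/
noncomputable def gg (o o' : E3) (ρ ρ' : ℝ) (y : E3) : ℝ :=
  (dist y o' ^ 2 - ρ' ^ 2) - (dist y o ^ 2 - ρ ^ 2)

theorem gg_eq (o o' : E3) (ρ ρ' : ℝ) (y : E3) :
    gg o o' ρ ρ' y = ⟪(2 : ℝ) • (o - o'), y⟫_ℝ + (‖o'‖ ^ 2 - ρ' ^ 2 - ‖o‖ ^ 2 + ρ ^ 2) := by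
  unfold gg
  rw [dist_eq_norm, dist_eq_norm, norm_sub_sq_real, norm_sub_sq_real, inner_smul_left,
    inner_sub_left, real_inner_comm y o, real_inner_comm y o']
  simp only [conj_trivial]
  ring

/-- `gg` is affine. -/
theorem gg_sum {ι : Type} (s : Finset ι) (w : ι → ℝ) (p : ι → E3) (h1 : ∑ i ∈ s, w i = 1)
    (o o' : E3) (ρ ρ' : ℝ) :
    gg o o' ρ ρ' (∑ i ∈ s, w i • p i) = ∑ i ∈ s, w i * gg o o' ρ ρ' (p i) := by
  simp only [gg_eq]
  generalize (‖o'‖ ^ 2 - ρ' ^ 2 - ‖o‖ ^ 2 + ρ ^ 2) = c
  simp only [inner_sum, inner_smul_right, mul_add, Finset.sum_add_distrib]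
  rw [← Finset.sum_mul, h1, one_mul]

theorem gg_pos {t t' : Finset E3} {X : Set E3} {o o' : E3} {ρ ρ' : ℝ}
    (hne' : t'.Nonempty) (h1 : ∀ x ∈ t, dist x o = ρ) (h1' : ∀ x ∈ t', dist x o' = ρ')
    (h2' : ∀ x ∈ X, x ∉ t' → ρ' < dist x o') (hX : ∀ x ∈ t, x ∈ X) (x : E3) (hx : x ∈ t)
    (hx' : x ∉ t') : 0 < gg o o' ρ ρ' x := by
  obtain ⟨a, ha⟩ := hne'
  have hρ : 0 ≤ ρ' := by rw [← h1' a ha]; exact dist_nonneg
  unfold gg
  rw [h1 x hx]
  have h3 := h2' x (hX x hx) hx'
  have : ρ' ^ 2 < dist x o' ^ 2 := by gcongr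
  linarith

theorem gg_zero {t t' : Finset E3} {o o' : E3} {ρ ρ' : ℝ}
    (h1 : ∀ x ∈ t, dist x o = ρ) (h1' : ∀ x ∈ t', dist x o' = ρ')
    (x : E3) (hx : x ∈ t) (hx' : x ∈ t') : gg o o' ρ ρ' x = 0 := by
  unfold gg
  rw [h1 x hx, h1' x hx']
  ring

theorem gg_swap (o o' : E3) (ρ ρ' : ℝ) (x : E3) : gg o' o ρ' ρ x = - gg o o' ρ ρ' x := by
  unfold gg
  ring

/-- face to face -/
theorem face_to_face {X : Set E3} {t t' : Finset E3} (hne : t.Nonempty) (hne' : t'.Nonempty)
    (hX : ∀ x ∈ t, x ∈ X) (hX' : ∀ x ∈ t', x ∈ X)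
    (hs : ∃ (o : E3) (ρ : ℝ), (∀ x ∈ t, dist x o = ρ) ∧ ∀ x ∈ X, x ∉ t → ρ < dist x o)
    (hs' : ∃ (o : E3) (ρ : ℝ), (∀ x ∈ t', dist x o = ρ) ∧ ∀ x ∈ X, x ∉ t' → ρ < dist x o) :
    convexHull ℝ (t : Set E3) ∩ convexHull ℝ (t' : Set E3)
      = convexHull ℝ ((t : Set E3) ∩ (t' : Set E3)) := by
  obtain ⟨o, ρ, h1, h2⟩ := hs
  obtain ⟨o', ρ', h1', h2'⟩ := hs'
  apply Set.Subset.antisymm
  · rintro y ⟨hy, hy'⟩
    rw [Finset.mem_convexHull'] at hy hy'
    obtain ⟨w, hw0, hw1, hwy⟩ := hy
    obtain ⟨w', hw0', hw1', hwy'⟩ := hy'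
    have hsum : gg o o' ρ ρ' (∑ y ∈ t, w y • y) = ∑ x ∈ t, w x * gg o o' ρ ρ' x :=
      gg_sum t w (fun x => x) hw1 o o' ρ ρ'
    have hsum' : gg o' o ρ' ρ (∑ y ∈ t', w' y • y) = ∑ x ∈ t', w' x * gg o' o ρ' ρ x :=
      gg_sum t' w' (fun x => x) hw1' o' o ρ' ρ
    rw [hwy] at hsum
    rw [hwy'] at hsum'
    have hg : 0 ≤ gg o o' ρ ρ' y := by
      rw [hsum]
      refine Finset.sum_nonneg fun x hx => mul_nonneg (hw0 x hx) ?_
      by_cases hxt : x ∈ t'
      · exact (gg_zero h1 h1' x hx hxt).ge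
      · exact (gg_pos hne' h1 h1' h2' hX x hx hxt).le
    have hg' : 0 ≤ gg o' o ρ' ρ y := by
      rw [hsum']
      refine Finset.sum_nonneg fun x hx => mul_nonneg (hw0' x hx) ?_
      by_cases hxt : x ∈ t
      · exact (gg_zero h1' h1 x hx hxt).ge
      · exact (gg_pos hne h1' h1 h2 hX' x hx hxt).le
    rw [gg_swap] at hg'
    have hg0 : gg o o' ρ ρ' y = 0 := le_antisymm (by linarith) hg
    have hterm : ∀ x ∈ t, w x * gg o o' ρ ρ' x = 0 := by
      have : ∑ x ∈ t, w x * gg o o' ρ ρ' x = 0 := by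
        rw [← hg0, hsum]
      refine (Finset.sum_eq_zero_iff_of_nonneg ?_).mp this
      intro x hx
      refine mul_nonneg (hw0 x hx) ?_
      by_cases hxt : x ∈ t'
      · exact (gg_zero h1 h1' x hx hxt).ge
      · exact (gg_pos hne' h1 h1' h2' hX x hx hxt).le
    have hw : ∀ x ∈ t, x ∉ t' → w x = 0 := by
      intro x hx hxt
      have := gg_pos hne' h1 h1' h2' hX x hx hxt
      rcases mul_eq_zero.mp (hterm x hx) with h | h
      · exact h
      · exact absurd h this.ne'
    classical
    have e1 : (t : Set E3) ∩ (t' : Set E3) = ((t.filter (· ∈ t') : Finset E3) : Set E3) := by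
      ext x; simp
    rw [e1, Finset.mem_convexHull']
    refine ⟨w, fun x hx => hw0 x (Finset.mem_filter.mp hx).1, ?_, ?_⟩
    · rw [← hw1, Finset.sum_filter]
      refine Finset.sum_congr rfl fun x hx => ?_
      split_ifs with h
      · rfl
      · exact (hw x hx h).symm
    · rw [← hwy, Finset.sum_filter]
      refine Finset.sum_congr rfl fun x hx => ?_
      split_ifs with h
      · rfl
      · rw [hw x hx h, zero_smul]
  · exact Set.subset_inter (convexHull_mono Set.inter_subset_left)
      (convexHull_mono Set.inter_subset_right)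

/-- the affine basis given by a tetrahedron -/
noncomputable def bas (t : Finset E3) (hc : t.card = 4)
    (hi : AffineIndependent ℝ (Subtype.val : {x // x ∈ t} → E3)) :
    AffineBasis {x // x ∈ t} ℝ E3 :=
  ⟨Subtype.val, hi, by
    rw [hi.affineSpan_eq_top_iff_card_eq_finrank_add_one]
    simp [hc]⟩

theorem bas_apply (t : Finset E3) (hc : t.card = 4)
    (hi : AffineIndependent ℝ (Subtype.val : {x // x ∈ t} → E3)) (i : {x // x ∈ t}) :
    bas t hc hi i = i.1 := rfl

theorem bas_range (t : Finset E3) (hc : t.card = 4)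
    (hi : AffineIndependent ℝ (Subtype.val : {x // x ∈ t} → E3)) :
    Set.range (bas t hc hi) = (t : Set E3) := by
  ext x
  constructor
  · rintro ⟨i, rfl⟩
    exact i.2
  · intro hx
    exact ⟨⟨x, hx⟩, rfl⟩

theorem mem_hull (t : Finset E3) (hc : t.card = 4)
    (hi : AffineIndependent ℝ (Subtype.val : {x // x ∈ t} → E3)) (q : E3) :
    q ∈ convexHull ℝ (t : Set E3) ↔ ∀ i, 0 ≤ (bas t hc hi).coord i q := by
  rw [← bas_range t hc hi, AffineBasis.convexHull_eq_nonneg_coord]
  rfl

theorem gg_coord (t : Finset E3) (hc : t.card = 4)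
    (hi : AffineIndependent ℝ (Subtype.val : {x // x ∈ t} → E3)) (q o o' : E3) (ρ ρ' : ℝ) :
    gg o o' ρ ρ' q = ∑ i, (bas t hc hi).coord i q * gg o o' ρ ρ' i.1 := by
  conv_lhs => rw [← (bas t hc hi).linear_combination_coord_eq_self q]
  rw [gg_sum _ _ _ ((bas t hc hi).sum_coord_apply_eq_one q)]
  rfl

/-- two vanishing coordinates: the point is on the line of an edge -/
theorem two_zero (t : Finset E3) (hc : t.card = 4)
    (hi : AffineIndependent ℝ (Subtype.val : {x // x ∈ t} → E3)) (q : E3) (i j : {x // x ∈ t})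
    (hij : i ≠ j) (h1 : (bas t hc hi).coord i q = 0) (h2 : (bas t hc hi).coord j q = 0) :
    ∃ a ∈ t, ∃ b ∈ t, q ∈ line[ℝ, a, b] := by
  classical
  have hcard : ((Finset.univ : Finset {x // x ∈ t}).erase i |>.erase j).card = 2 := by
    rw [Finset.card_erase_of_mem, Finset.card_erase_of_mem (Finset.mem_univ _), Finset.card_univ,
      Fintype.card_coe, hc]
    exact Finset.mem_erase.mpr ⟨hij.symm, Finset.mem_univ _⟩
  obtain ⟨a, b, hab, hs⟩ := Finset.card_eq_two.mp hcard
  have hsub : ∀ k : {x // x ∈ t}, k ∉ ({a, b} : Finset _) → (bas t hc hi).coord k q = 0 := by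
    intro k hk
    rw [← hs] at hk
    simp only [Finset.mem_erase, Finset.mem_univ, and_true, not_and, not_not] at hk
    by_cases hkj : k = j
    · rw [hkj]; exact h2
    · rw [hk hkj]; exact h1
  have e1 := (bas t hc hi).linear_combination_coord_eq_self q
  have e2 := (bas t hc hi).sum_coord_apply_eq_one q
  rw [← Finset.sum_subset (Finset.subset_univ ({a, b} : Finset _))
    (fun k _ hk => by rw [hsub k hk, zero_smul]), Finset.sum_pair hab] at e1
  rw [← Finset.sum_subset (Finset.subset_univ ({a, b} : Finset _))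
    (fun k _ hk => hsub k hk), Finset.sum_pair hab] at e2
  refine ⟨a.1, a.2, b.1, b.2, ?_⟩
  have e3 : q = AffineMap.lineMap a.1 b.1 ((bas t hc hi).coord b q) := by
    rw [AffineMap.lineMap_apply, vsub_eq_sub, vadd_eq_add]
    conv_lhs => rw [← e1]
    rw [bas_apply, bas_apply]
    have : (bas t hc hi).coord a q = 1 - (bas t hc hi).coord b q := by linarith
    rw [this]
    module
  rw [e3]
  exact AffineMap.lineMap_mem_affineSpan_pair _ _ _

/-- the union is a neighbourhood of each of its points which are not on edges -/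
theorem nhd {X : Set E3} {D : Set (Finset E3)}
    (hcard : ∀ t ∈ D, t.card = 4)
    (hind : ∀ t ∈ D, AffineIndependent ℝ (Subtype.val : {x // x ∈ t} → E3))
    (hX : ∀ t ∈ D, ∀ x ∈ t, x ∈ X)
    (hsph : ∀ t ∈ D, ∃ (o : E3) (ρ : ℝ), (∀ x ∈ t, dist x o = ρ) ∧
      ∀ x ∈ X, x ∉ t → ρ < dist x o)
    (hnb : ∀ t ∈ D, ∀ f ⊆ t, f.card = 3 → ∃ t' ∈ D, t' ≠ t ∧ f ⊆ t') (q : E3)
    (hq : q ∈ ⋃ t ∈ D, convexHull ℝ (t : Set E3))
    (hedge : ∀ a ∈ X, ∀ b ∈ X, q ∉ line[ℝ, a, b]) :
    q ∈ interior (⋃ t ∈ D, convexHull ℝ (t : Set E3)) := by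
  classical
  simp only [Set.mem_iUnion, exists_prop] at hq
  obtain ⟨t, ht, hqt⟩ := hq
  have hone : ∀ (s : Finset E3) (hs : s ∈ D) (i j : {x // x ∈ s}), i ≠ j →
      (bas s (hcard s hs) (hind s hs)).coord i q = 0 →
      (bas s (hcard s hs) (hind s hs)).coord j q ≠ 0 := by
    intro s hs i j hij h1 h2
    obtain ⟨a, ha, b, hb, hab⟩ := two_zero s (hcard s hs) (hind s hs) q i j hij h1 h2
    exact hedge a (hX s hs a ha) b (hX s hs b hb) hab
  have hcont : ∀ (s : Finset E3) (hs : s ∈ D) (i : {x // x ∈ s}),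
      Continuous ((bas s (hcard s hs) (hind s hs)).coord i) := by
    intro s hs i
    exact ((bas s (hcard s hs) (hind s hs)).coord i).continuous_of_finiteDimensional
  rw [mem_hull t (hcard t ht) (hind t ht)] at hqt
  by_cases hall : ∀ i, 0 < (bas t (hcard t ht) (hind t ht)).coord i q
  · -- interior point
    rw [mem_interior_iff_mem_nhds]
    have h1 : ∀ᶠ p in nhds q, ∀ i, 0 < (bas t (hcard t ht) (hind t ht)).coord i p := by
      rw [Filter.eventually_all]
      intro i
      exact (hcont t ht i).continuousAt.eventually (lt_mem_nhds (hall i))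
    filter_upwards [h1] with p hp
    simp only [Set.mem_iUnion, exists_prop]
    exact ⟨t, ht, (mem_hull t (hcard t ht) (hind t ht) p).mpr fun i => (hp i).le⟩
  · push Not at hall
    obtain ⟨x, hx⟩ := hall
    have hx0 : (bas t (hcard t ht) (hind t ht)).coord x q = 0 := le_antisymm hx (hqt x)
    have hpos : ∀ i, i ≠ x → 0 < (bas t (hcard t ht) (hind t ht)).coord i q := by
      intro i hi
      exact lt_of_le_of_ne (hqt i) (Ne.symm (hone t ht x i (Ne.symm hi) hx0))
    -- the neighbour
    obtain ⟨t', ht', htt', hf⟩ := hnb t ht (t.erase x.1) (Finset.erase_subset _ _)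
      (by rw [Finset.card_erase_of_mem x.2, hcard t ht])
    have hxt' : x.1 ∉ t' := by
      intro h
      apply htt'
      symm
      refine Finset.eq_of_subset_of_card_le ?_ (by rw [hcard t ht, hcard t' ht'])
      intro y hy
      by_cases hyx : y = x.1
      · rw [hyx]; exact h
      · exact hf (Finset.mem_erase.mpr ⟨hyx, hy⟩)
    obtain ⟨x', hx't', hx't⟩ : ∃ x' ∈ t', x' ∉ t := by
      by_contra hcon
      push Not at hcon
      have : t' = t := Finset.eq_of_subset_of_card_le hcon (by rw [hcard t ht, hcard t' ht'])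
      exact htt' this
    have ht'eq : ∀ y ∈ t', y ≠ x' → y ∈ t := by
      have h1 : insert x' (t.erase x.1) = t' := by
        refine Finset.eq_of_subset_of_card_le ?_ ?_
        · intro y hy
          rcases Finset.mem_insert.mp hy with h | h
          · rw [h]; exact hx't'
          · exact hf h
        · rw [Finset.card_insert_of_notMem, Finset.card_erase_of_mem x.2, hcard t ht, hcard t' ht']
          intro h
          exact hx't (Finset.mem_of_mem_erase h)
      intro y hy hyx
      rw [← h1] at hy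
      rcases Finset.mem_insert.mp hy with h | h
      · exact absurd h hyx
      · exact Finset.mem_of_mem_erase h
    obtain ⟨o, ρ, h1, h2⟩ := hsph t ht
    obtain ⟨o', ρ', h1', h2'⟩ := hsph t' ht'
    have hne : t.Nonempty := ⟨x.1, x.2⟩
    have hne' : t'.Nonempty := ⟨x', hx't'⟩
    have hgx : 0 < gg o o' ρ ρ' x.1 := gg_pos hne' h1 h1' h2' (hX t ht) x.1 x.2 hxt'
    have hgx' : gg o o' ρ ρ' x' < 0 := by
      have := gg_pos hne h1' h1 h2 (hX t' ht') x' hx't' hx't
      rw [gg_swap] at this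
      linarith
    have hgt : ∀ p, gg o o' ρ ρ' p = (bas t (hcard t ht) (hind t ht)).coord x p
        * gg o o' ρ ρ' x.1 := by
      intro p
      rw [gg_coord t (hcard t ht) (hind t ht) p o o' ρ ρ', Finset.sum_eq_single x]
      · intro i _ hi
        have : i.1 ∈ t' := hf (Finset.mem_erase.mpr ⟨fun h => hi (Subtype.ext h), i.2⟩)
        rw [gg_zero h1 h1' i.1 i.2 this, mul_zero]
      · intro h
        exact absurd (Finset.mem_univ _) h
    have hgt' : ∀ p, gg o o' ρ ρ' p = (bas t' (hcard t' ht') (hind t' ht')).coord ⟨x', hx't'⟩ p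
        * gg o o' ρ ρ' x' := by
      intro p
      rw [gg_coord t' (hcard t' ht') (hind t' ht') p o o' ρ ρ', Finset.sum_eq_single ⟨x', hx't'⟩]
      · intro i _ hi
        have : i.1 ∈ t := ht'eq i.1 i.2 (fun h => hi (Subtype.ext h))
        rw [gg_zero h1 h1' i.1 this i.2, mul_zero]
      · intro h
        exact absurd (Finset.mem_univ _) h
    have hgq : gg o o' ρ ρ' q = 0 := by rw [hgt q, hx0, zero_mul]
    have hx0' : (bas t' (hcard t' ht') (hind t' ht')).coord ⟨x', hx't'⟩ q = 0 := by
      have := hgt' q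
      rw [hgq] at this
      rcases mul_eq_zero.mp this.symm with h | h
      · exact h
      · exact absurd h hgx'.ne
    -- `q` is in the hull of `t'`
    have hqt' : q ∈ convexHull ℝ (t' : Set E3) := by
      have e1 := (bas t (hcard t ht) (hind t ht)).linear_combination_coord_eq_self q
      have e2 := (bas t (hcard t ht) (hind t ht)).sum_coord_apply_eq_one q
      rw [← e1]
      have e3 : ∑ i, (bas t (hcard t ht) (hind t ht)).coord i q • (bas t (hcard t ht) (hind t ht)) i
          = ∑ i ∈ Finset.univ.erase x, (bas t (hcard t ht) (hind t ht)).coord i q •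
            (bas t (hcard t ht) (hind t ht)) i := by
        rw [← Finset.add_sum_erase _ _ (Finset.mem_univ x), hx0, zero_smul, zero_add]
      have e4 : ∑ i ∈ Finset.univ.erase x, (bas t (hcard t ht) (hind t ht)).coord i q = 1 := by
        rw [← e2, ← Finset.add_sum_erase _ _ (Finset.mem_univ x), hx0, zero_add]
      rw [e3]
      refine (convex_convexHull ℝ (t' : Set E3)).sum_mem (fun i _ => hqt i) e4 ?_
      intro i hi
      refine subset_convexHull ℝ _ ?_
      exact hf (Finset.mem_erase.mpr ⟨fun h => (Finset.mem_erase.mp hi).1 (Subtype.ext h), i.2⟩)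
    rw [mem_hull t' (hcard t' ht') (hind t' ht')] at hqt'
    have hpos' : ∀ i, i ≠ ⟨x', hx't'⟩ → 0 < (bas t' (hcard t' ht') (hind t' ht')).coord i q := by
      intro i hi
      exact lt_of_le_of_ne (hqt' i) (Ne.symm (hone t' ht' _ i (Ne.symm hi) hx0'))
    rw [mem_interior_iff_mem_nhds]
    have hev : ∀ᶠ p in nhds q, ∀ i, i ≠ x → 0 < (bas t (hcard t ht) (hind t ht)).coord i p := by
      rw [Filter.eventually_all]
      intro i
      by_cases hi : i = x
      · exact Filter.Eventually.of_forall fun p h => absurd hi h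
      · filter_upwards [(hcont t ht i).continuousAt.eventually (lt_mem_nhds (hpos i hi))] with p hp _
        exact hp
    have hev' : ∀ᶠ p in nhds q, ∀ i, i ≠ ⟨x', hx't'⟩ →
        0 < (bas t' (hcard t' ht') (hind t' ht')).coord i p := by
      rw [Filter.eventually_all]
      intro i
      by_cases hi : i = ⟨x', hx't'⟩
      · exact Filter.Eventually.of_forall fun p h => absurd hi h
      · filter_upwards [(hcont t' ht' i).continuousAt.eventually (lt_mem_nhds (hpos' i hi))]
          with p hp _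
        exact hp
    filter_upwards [hev, hev'] with p hp hp'
    simp only [Set.mem_iUnion, exists_prop]
    rcases le_total 0 (gg o o' ρ ρ' p) with hgp | hgp
    · refine ⟨t, ht, (mem_hull t (hcard t ht) (hind t ht) p).mpr fun i => ?_⟩
      by_cases hi : i = x
      · rw [hi]
        rw [hgt p] at hgp
        exact nonneg_of_mul_nonneg_left hgp hgx
      · exact (hp i hi).le
    · refine ⟨t', ht', (mem_hull t' (hcard t' ht') (hind t' ht') p).mpr fun i => ?_⟩
      by_cases hi : i = ⟨x', hx't'⟩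
      · rw [hi]
        rw [hgt' p] at hgp
        by_contra hneg
        push Not at hneg
        have := mul_pos_of_neg_of_neg hneg hgx'
        linarith
      · exact (hp' i hi).le

/-- **[BC3-LA]** Strictly Delaunay families of tetrahedra with a neighbour across every face tile space. -/
theorem delaunay_tiles (X : Set E3) (D : Set (Finset E3)) (r : ℝ)
    (hfin : ∀ R : ℝ, (X ∩ Metric.closedBall (0 : E3) R).Finite) (hne : D.Nonempty)
    (hcard : ∀ t ∈ D, t.card = 4)
    (hind : ∀ t ∈ D, AffineIndependent ℝ (Subtype.val : {x // x ∈ t} → E3))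
    (hX : ∀ t ∈ D, ∀ x ∈ t, x ∈ X)
    (hsph : ∀ t ∈ D, ∃ (o : E3) (ρ : ℝ), ρ ≤ r ∧ (∀ x ∈ t, dist x o = ρ) ∧
      ∀ x ∈ X, x ∉ t → ρ < dist x o)
    (hnb : ∀ t ∈ D, ∀ f ⊆ t, f.card = 3 → ∃ t' ∈ D, t' ≠ t ∧ f ⊆ t') :
    IsTriangulation X D := by
  have hsph' : ∀ t ∈ D, ∃ (o : E3) (ρ : ℝ), (∀ x ∈ t, dist x o = ρ) ∧
      ∀ x ∈ X, x ∉ t → ρ < dist x o := by
    intro t ht
    obtain ⟨o, ρ, _, h1, h2⟩ := hsph t ht
    exact ⟨o, ρ, h1, h2⟩
  have hnonempty : ∀ t ∈ D, t.Nonempty := by
    intro t ht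
    rw [← Finset.card_pos, hcard t ht]
    norm_num
  refine ⟨hcard, hind, hX, ?_, ?_⟩
  · -- the cover
    -- closedness
    have hclosed : IsClosed (⋃ t ∈ D, convexHull ℝ (t : Set E3)) := by
      rw [Set.biUnion_eq_iUnion]
      refine LocallyFinite.isClosed_iUnion ?_ ?_
      · intro p
        refine ⟨Metric.ball p 1, Metric.ball_mem_nhds p one_pos, ?_⟩
        have hA := (hfin (‖p‖ + 1 + 2 * r)).finite_subsets
        have hB : {t : Finset E3 | (t : Set E3) ⊆ X ∩ Metric.closedBall 0 (‖p‖ + 1 + 2 * r)}.Finite :=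
          hA.preimage (fun a _ b _ h => Finset.coe_injective h)
        refine (hB.preimage (f := fun t : D => (t : Finset E3))
          (fun a _ b _ h => Subtype.ext h)).subset ?_
        rintro ⟨t, ht⟩ ⟨q, hq, hqp⟩
        obtain ⟨o, ρ, hρ, h1, h2⟩ := hsph t ht
        intro x hx
        refine ⟨hX t ht x hx, ?_⟩
        rw [mem_closedBall_zero_iff]
        have hq2 : dist q o ≤ ρ := by
          have : convexHull ℝ (t : Set E3) ⊆ Metric.closedBall o ρ := by
            refine convexHull_min ?_ (convex_closedBall o ρ)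
            intro y hy
            rw [Metric.mem_closedBall]
            exact (h1 y hy).le
          exact this hq
        have h3 : dist x q ≤ 2 * r := by
          calc dist x q ≤ dist x o + dist o q := dist_triangle _ _ _
            _ ≤ ρ + ρ := by rw [h1 x hx, dist_comm o q]; linarith
            _ ≤ 2 * r := by linarith
        have h4 : dist q p < 1 := hqp
        calc ‖x‖ = dist x 0 := (dist_zero_right x).symm
          _ ≤ dist x q + dist q p + dist p 0 := dist_triangle4 _ _ _ _
          _ ≤ ‖p‖ + 1 + 2 * r := by rw [dist_zero_right p]; linarith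
      · intro t
        exact (Set.Finite.isCompact_convexHull ℝ (Finset.finite_toSet _)).isClosed
    -- countability
    have hXc : X.Countable := by
      have : X ⊆ ⋃ n : ℕ, X ∩ Metric.closedBall (0 : E3) n := by
        intro x hx
        obtain ⟨n, hn⟩ := exists_nat_ge ‖x‖
        exact Set.mem_iUnion.mpr ⟨n, hx, by rwa [mem_closedBall_zero_iff]⟩
      exact (Set.countable_iUnion fun n : ℕ => (hfin n).countable).mono this
    by_contra hcon
    obtain ⟨z, hz⟩ := (Set.ne_univ_iff_exists_notMem _).mp hcon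
    -- a good starting point
    obtain ⟨t₀, ht₀⟩ := hne
    have hint : (interior (convexHull ℝ (t₀ : Set E3))).Nonempty := by
      rw [interior_convexHull_nonempty_iff_affineSpan_eq_top]
      rw [← bas_range t₀ (hcard t₀ ht₀) (hind t₀ ht₀)]
      exact (bas t₀ (hcard t₀ ht₀) (hind t₀ ht₀)).tot
    have hplane : ∀ a b : E3, affineSpan ℝ (Set.range ![z, a, b]) ≠ ⊤ := by
      intro a b htop
      have h1 := finrank_vectorSpan_range_le ℝ ![z, a, b] (n := 2) (by simp)
      rw [← direction_affineSpan, htop, AffineSubspace.direction_top, finrank_top] at h1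
      simp at h1
    have hnull : volume (⋃ a ∈ X, ⋃ b ∈ X, (affineSpan ℝ (Set.range ![z, a, b]) : Set E3)) = 0 := by
      rw [measure_biUnion_null_iff hXc]
      intro a _
      rw [measure_biUnion_null_iff hXc]
      intro b _
      exact Measure.addHaar_affineSubspace _ _ (hplane a b)
    obtain ⟨y, hyi, hyn⟩ : ∃ y ∈ interior (convexHull ℝ (t₀ : Set E3)),
        y ∉ ⋃ a ∈ X, ⋃ b ∈ X, (affineSpan ℝ (Set.range ![z, a, b]) : Set E3) := by
      by_contra hcon2
      push Not at hcon2
      have h1 : 0 < volume (interior (convexHull ℝ (t₀ : Set E3))) :=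
        isOpen_interior.measure_pos _ hint
      have h2 := measure_mono (μ := volume) hcon2
      rw [hnull] at h2
      exact absurd h1 (not_lt.mpr h2)
    -- connectedness of the segment
    have hseg : segment ℝ y z ⊆ interior (⋃ t ∈ D, convexHull ℝ (t : Set E3)) ∪
        (⋃ t ∈ D, convexHull ℝ (t : Set E3))ᶜ := by
      intro q hq
      by_cases hqU : q ∈ ⋃ t ∈ D, convexHull ℝ (t : Set E3)
      · left
        refine nhd hcard hind hX hsph' hnb q hqU ?_
        intro a ha b hb hab
        have hqz : q ≠ z := fun h => hz (h ▸ hqU)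
        apply hyn
        simp only [Set.mem_iUnion, exists_prop]
        refine ⟨a, ha, b, hb, ?_⟩
        rw [segment_eq_image_lineMap] at hq
        obtain ⟨τ, hτ, rfl⟩ := hq
        have hτ1 : 1 - τ ≠ 0 := by
          intro h
          apply hqz
          have : τ = 1 := by linarith
          rw [this, AffineMap.lineMap_apply_one]
        have hzm : z ∈ affineSpan ℝ (Set.range ![z, a, b]) :=
          subset_affineSpan ℝ _ ⟨0, rfl⟩
        have hqm : AffineMap.lineMap y z τ ∈ affineSpan ℝ (Set.range ![z, a, b]) := by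
          refine affineSpan_mono ℝ ?_ hab
          rintro w (rfl | rfl)
          · exact ⟨1, rfl⟩
          · exact ⟨2, rfl⟩
        have hy : y = AffineMap.lineMap z (AffineMap.lineMap y z τ) (1 / (1 - τ)) := by
          simp only [AffineMap.lineMap_apply, vsub_eq_sub, vadd_eq_add]
          have : τ • (z - y) + y - z = (1 - τ) • (y - z) := by module
          rw [this, smul_smul, one_div, inv_mul_cancel₀ hτ1, one_smul]
          abel
        rw [hy]
        exact AffineMap.lineMap_mem _ hzm hqm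
      · right
        exact hqU
    have hy0 : y ∈ interior (⋃ t ∈ D, convexHull ℝ (t : Set E3)) :=
      interior_mono (Set.subset_biUnion_of_mem (u := fun t : Finset E3 =>
        convexHull ℝ (t : Set E3)) ht₀) hyi
    obtain ⟨q, _, hq1, hq2⟩ := (convex_segment y z).isPreconnected _ _ isOpen_interior
      hclosed.isOpen_compl hseg ⟨y, left_mem_segment ℝ y z, hy0⟩ ⟨z, right_mem_segment ℝ y z, hz⟩
    exact hq2 (interior_subset hq1)
  · intro t ht t' ht'
    exact face_to_face (hnonempty t ht) (hnonempty t' ht') (hX t ht) (hX t' ht') (hsph' t ht)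
      (hsph' t' ht')

end LA

end BccCov

namespace BccCov
export LA (delaunay_tiles)
end BccCov
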