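import Pool.Agent.MP_bf7174_co.DefsL

/-!
# [BC3-LB] the Delaunay tetrahedra of the body-centred cubic lattice
-/

set_option autoImplicit false

open scoped InnerProductSpace
open MeasureTheory

namespace BccCov.LB

theorem BB_zero (x : Fin 3 → ℤ) : BB x 0 = ((-x 0 + x 1 + x 2 : ℤ) : ℝ) / 2 := rfl
theorem BB_one (x : Fin 3 → ℤ) : BB x 1 = ((x 0 - x 1 + x 2 : ℤ) : ℝ) / 2 := rfl
theorem BB_two (x : Fin 3 → ℤ) : BB x 2 = ((x 0 + x 1 - x 2 : ℤ) : ℝ) / 2 := rfl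

theorem ext3 {v w : E3} (h0 : v 0 = w 0) (h1 : v 1 = w 1) (h2 : v 2 = w 2) : v = w := by
  ext i
  fin_cases i
  · exact h0
  · exact h1
  · exact h2

theorem mem_bcc (v : E3) : v ∈ bcc ↔ ∃ x, v = BB x := by
  constructor
  · rintro (h | h)
    · obtain ⟨a, ha⟩ := h 0
      obtain ⟨b, hb⟩ := h 1
      obtain ⟨c, hc⟩ := h 2
      refine ⟨![b + c, a + c, a + b], ext3 ?_ ?_ ?_⟩
      · rw [BB_zero, ha]
        simp only [Matrix.cons_val_zero, Matrix.cons_val_one, Matrix.cons_val]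
        push_cast; ring
      · rw [BB_one, hb]
        simp only [Matrix.cons_val_zero, Matrix.cons_val_one, Matrix.cons_val]
        push_cast; ring
      · rw [BB_two, hc]
        simp only [Matrix.cons_val_zero, Matrix.cons_val_one, Matrix.cons_val]
        push_cast; ring
    · obtain ⟨a, ha⟩ := h 0
      obtain ⟨b, hb⟩ := h 1
      obtain ⟨c, hc⟩ := h 2
      refine ⟨![b + c + 1, a + c + 1, a + b + 1], ext3 ?_ ?_ ?_⟩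
      · rw [BB_zero, ha]
        simp only [Matrix.cons_val_zero, Matrix.cons_val_one, Matrix.cons_val]
        push_cast; ring
      · rw [BB_one, hb]
        simp only [Matrix.cons_val_zero, Matrix.cons_val_one, Matrix.cons_val]
        push_cast; ring
      · rw [BB_two, hc]
        simp only [Matrix.cons_val_zero, Matrix.cons_val_one, Matrix.cons_val]
        push_cast; ring
  · rintro ⟨x, rfl⟩
    obtain ⟨k, hk⟩ := Int.even_or_odd' (x 0 + x 1 + x 2)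
    rcases hk with hk | hk
    · left
      have h0 : BB x 0 = ((k - x 0 : ℤ) : ℝ) := by
        rw [BB_zero, show -x 0 + x 1 + x 2 = 2 * (k - x 0) by omega]
        push_cast; ring
      have h1 : BB x 1 = ((k - x 1 : ℤ) : ℝ) := by
        rw [BB_one, show x 0 - x 1 + x 2 = 2 * (k - x 1) by omega]
        push_cast; ring
      have h2 : BB x 2 = ((k - x 2 : ℤ) : ℝ) := by
        rw [BB_two, show x 0 + x 1 - x 2 = 2 * (k - x 2) by omega]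
        push_cast; ring
      intro i
      fin_cases i
      · exact ⟨_, h0⟩
      · exact ⟨_, h1⟩
      · exact ⟨_, h2⟩
    · right
      have h0 : BB x 0 = ((k - x 0 : ℤ) : ℝ) + 1 / 2 := by
        rw [BB_zero, show -x 0 + x 1 + x 2 = 2 * (k - x 0) + 1 by omega]
        push_cast; ring
      have h1 : BB x 1 = ((k - x 1 : ℤ) : ℝ) + 1 / 2 := by
        rw [BB_one, show x 0 - x 1 + x 2 = 2 * (k - x 1) + 1 by omega]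
        push_cast; ring
      have h2 : BB x 2 = ((k - x 2 : ℤ) : ℝ) + 1 / 2 := by
        rw [BB_two, show x 0 + x 1 - x 2 = 2 * (k - x 2) + 1 by omega]
        push_cast; ring
      intro i
      fin_cases i
      · exact ⟨_, h0⟩
      · exact ⟨_, h1⟩
      · exact ⟨_, h2⟩

theorem BB_inj : Function.Injective BB := by
  intro x y h
  have h0 : BB x 0 = BB y 0 := by rw [h]
  have h1 : BB x 1 = BB y 1 := by rw [h]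
  have h2 : BB x 2 = BB y 2 := by rw [h]
  rw [BB_zero, BB_zero, div_left_inj' (by norm_num)] at h0
  rw [BB_one, BB_one, div_left_inj' (by norm_num)] at h1
  rw [BB_two, BB_two, div_left_inj' (by norm_num)] at h2
  have h0' := Int.cast_injective h0
  have h1' := Int.cast_injective h1
  have h2' := Int.cast_injective h2
  funext i
  fin_cases i
  · show x 0 = y 0
    omega
  · show x 1 = y 1
    omega
  · show x 2 = y 2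
    omega

theorem BB_add (x y : Fin 3 → ℤ) : BB (fun i => x i + y i) = BB x + BB y := by
  refine ext3 ?_ ?_ ?_
  · rw [PiLp.add_apply, BB_zero, BB_zero, BB_zero]
    push_cast; ring
  · rw [PiLp.add_apply, BB_one, BB_one, BB_one]
    push_cast; ring
  · rw [PiLp.add_apply, BB_two, BB_two, BB_two]
    push_cast; ring

/-- the six permutations -/
theorem perm_cases (s : Equiv.Perm (Fin 3)) :
    (s 0 = 0 ∧ s 1 = 1 ∧ s 2 = 2) ∨ (s 0 = 0 ∧ s 1 = 2 ∧ s 2 = 1) ∨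
    (s 0 = 1 ∧ s 1 = 0 ∧ s 2 = 2) ∨ (s 0 = 1 ∧ s 1 = 2 ∧ s 2 = 0) ∨
    (s 0 = 2 ∧ s 1 = 0 ∧ s 2 = 1) ∨ (s 0 = 2 ∧ s 1 = 1 ∧ s 2 = 0) := by
  revert s
  decide

theorem core0 (z0 z1 z2 : ℤ)
    (h : (2 * (-z0 + z1 + z2) - 0) ^ 2 + (2 * (z0 - z1 + z2) - 1) ^ 2 +
      (2 * (z0 + z1 - z2) - 2) ^ 2 ≤ 12) :
    (z0 = 0 ∧ z1 = 0 ∧ z2 = 0) ∨ (z0 = 1 ∧ z1 = 0 ∧ z2 = 0) ∨ (z0 = 1 ∧ z1 = 1 ∧ z2 = 0) ∨ (z0 = 1 ∧ z1 = 1 ∧ z2 = 1) := by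
  obtain ⟨a, ha⟩ : ∃ a, a = 2 * (-z0 + z1 + z2) - 0 := ⟨_, rfl⟩
  obtain ⟨b, hb⟩ : ∃ b, b = 2 * (z0 - z1 + z2) - 1 := ⟨_, rfl⟩
  obtain ⟨c, hc⟩ : ∃ c, c = 2 * (z0 + z1 - z2) - 2 := ⟨_, rfl⟩
  have h' := h
  rw [← ha, ← hb, ← hc] at h'
  have ha1 : a ≤ 3 := by nlinarith [sq_nonneg b, sq_nonneg c]
  have ha2 : -3 ≤ a := by nlinarith [sq_nonneg b, sq_nonneg c]
  have hb1 : b ≤ 3 := by nlinarith [sq_nonneg a, sq_nonneg c]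
  have hb2 : -3 ≤ b := by nlinarith [sq_nonneg a, sq_nonneg c]
  have hc1 : c ≤ 3 := by nlinarith [sq_nonneg b, sq_nonneg a]
  have hc2 : -3 ≤ c := by nlinarith [sq_nonneg b, sq_nonneg a]
  have h1 : -1 ≤ z0 ∧ z0 ≤ 2 := by omega
  have h2 : -1 ≤ z1 ∧ z1 ≤ 2 := by omega
  have h3 : -1 ≤ z2 ∧ z2 ≤ 2 := by omega
  clear h' ha1 ha2 hb1 hb2 hc1 hc2 ha hb hc
  obtain ⟨h11, h12⟩ := h1
  obtain ⟨h21, h22⟩ := h2
  obtain ⟨h31, h32⟩ := h3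
  interval_cases z0 <;> interval_cases z1 <;> interval_cases z2 <;>
    first
    | (exfalso; revert h; norm_num; done)
    | simp

theorem core1 (z0 z1 z2 : ℤ)
    (h : (2 * (-z0 + z1 + z2) - 0) ^ 2 + (2 * (z0 - z1 + z2) - 2) ^ 2 +
      (2 * (z0 + z1 - z2) - 1) ^ 2 ≤ 12) :
    (z0 = 0 ∧ z1 = 0 ∧ z2 = 0) ∨ (z0 = 1 ∧ z1 = 0 ∧ z2 = 0) ∨ (z0 = 1 ∧ z1 = 0 ∧ z2 = 1) ∨ (z0 = 1 ∧ z1 = 1 ∧ z2 = 1) := by
  obtain ⟨a, ha⟩ : ∃ a, a = 2 * (-z0 + z1 + z2) - 0 := ⟨_, rfl⟩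
  obtain ⟨b, hb⟩ : ∃ b, b = 2 * (z0 - z1 + z2) - 2 := ⟨_, rfl⟩
  obtain ⟨c, hc⟩ : ∃ c, c = 2 * (z0 + z1 - z2) - 1 := ⟨_, rfl⟩
  have h' := h
  rw [← ha, ← hb, ← hc] at h'
  have ha1 : a ≤ 3 := by nlinarith [sq_nonneg b, sq_nonneg c]
  have ha2 : -3 ≤ a := by nlinarith [sq_nonneg b, sq_nonneg c]
  have hb1 : b ≤ 3 := by nlinarith [sq_nonneg a, sq_nonneg c]
  have hb2 : -3 ≤ b := by nlinarith [sq_nonneg a, sq_nonneg c]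
  have hc1 : c ≤ 3 := by nlinarith [sq_nonneg b, sq_nonneg a]
  have hc2 : -3 ≤ c := by nlinarith [sq_nonneg b, sq_nonneg a]
  have h1 : -1 ≤ z0 ∧ z0 ≤ 2 := by omega
  have h2 : -1 ≤ z1 ∧ z1 ≤ 2 := by omega
  have h3 : -1 ≤ z2 ∧ z2 ≤ 2 := by omega
  clear h' ha1 ha2 hb1 hb2 hc1 hc2 ha hb hc
  obtain ⟨h11, h12⟩ := h1
  obtain ⟨h21, h22⟩ := h2
  obtain ⟨h31, h32⟩ := h3
  interval_cases z0 <;> interval_cases z1 <;> interval_cases z2 <;>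
    first
    | (exfalso; revert h; norm_num; done)
    | simp

theorem core2 (z0 z1 z2 : ℤ)
    (h : (2 * (-z0 + z1 + z2) - 1) ^ 2 + (2 * (z0 - z1 + z2) - 0) ^ 2 +
      (2 * (z0 + z1 - z2) - 2) ^ 2 ≤ 12) :
    (z0 = 0 ∧ z1 = 0 ∧ z2 = 0) ∨ (z0 = 0 ∧ z1 = 1 ∧ z2 = 0) ∨ (z0 = 1 ∧ z1 = 1 ∧ z2 = 0) ∨ (z0 = 1 ∧ z1 = 1 ∧ z2 = 1) := by
  obtain ⟨a, ha⟩ : ∃ a, a = 2 * (-z0 + z1 + z2) - 1 := ⟨_, rfl⟩
  obtain ⟨b, hb⟩ : ∃ b, b = 2 * (z0 - z1 + z2) - 0 := ⟨_, rfl⟩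
  obtain ⟨c, hc⟩ : ∃ c, c = 2 * (z0 + z1 - z2) - 2 := ⟨_, rfl⟩
  have h' := h
  rw [← ha, ← hb, ← hc] at h'
  have ha1 : a ≤ 3 := by nlinarith [sq_nonneg b, sq_nonneg c]
  have ha2 : -3 ≤ a := by nlinarith [sq_nonneg b, sq_nonneg c]
  have hb1 : b ≤ 3 := by nlinarith [sq_nonneg a, sq_nonneg c]
  have hb2 : -3 ≤ b := by nlinarith [sq_nonneg a, sq_nonneg c]
  have hc1 : c ≤ 3 := by nlinarith [sq_nonneg b, sq_nonneg a]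
  have hc2 : -3 ≤ c := by nlinarith [sq_nonneg b, sq_nonneg a]
  have h1 : -1 ≤ z0 ∧ z0 ≤ 2 := by omega
  have h2 : -1 ≤ z1 ∧ z1 ≤ 2 := by omega
  have h3 : -1 ≤ z2 ∧ z2 ≤ 2 := by omega
  clear h' ha1 ha2 hb1 hb2 hc1 hc2 ha hb hc
  obtain ⟨h11, h12⟩ := h1
  obtain ⟨h21, h22⟩ := h2
  obtain ⟨h31, h32⟩ := h3
  interval_cases z0 <;> interval_cases z1 <;> interval_cases z2 <;>
    first
    | (exfalso; revert h; norm_num; done)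
    | simp

theorem core3 (z0 z1 z2 : ℤ)
    (h : (2 * (-z0 + z1 + z2) - 1) ^ 2 + (2 * (z0 - z1 + z2) - 2) ^ 2 +
      (2 * (z0 + z1 - z2) - 0) ^ 2 ≤ 12) :
    (z0 = 0 ∧ z1 = 0 ∧ z2 = 0) ∨ (z0 = 0 ∧ z1 = 0 ∧ z2 = 1) ∨ (z0 = 1 ∧ z1 = 0 ∧ z2 = 1) ∨ (z0 = 1 ∧ z1 = 1 ∧ z2 = 1) := by
  obtain ⟨a, ha⟩ : ∃ a, a = 2 * (-z0 + z1 + z2) - 1 := ⟨_, rfl⟩
  obtain ⟨b, hb⟩ : ∃ b, b = 2 * (z0 - z1 + z2) - 2 := ⟨_, rfl⟩
  obtain ⟨c, hc⟩ : ∃ c, c = 2 * (z0 + z1 - z2) - 0 := ⟨_, rfl⟩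
  have h' := h
  rw [← ha, ← hb, ← hc] at h'
  have ha1 : a ≤ 3 := by nlinarith [sq_nonneg b, sq_nonneg c]
  have ha2 : -3 ≤ a := by nlinarith [sq_nonneg b, sq_nonneg c]
  have hb1 : b ≤ 3 := by nlinarith [sq_nonneg a, sq_nonneg c]
  have hb2 : -3 ≤ b := by nlinarith [sq_nonneg a, sq_nonneg c]
  have hc1 : c ≤ 3 := by nlinarith [sq_nonneg b, sq_nonneg a]
  have hc2 : -3 ≤ c := by nlinarith [sq_nonneg b, sq_nonneg a]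
  have h1 : -1 ≤ z0 ∧ z0 ≤ 2 := by omega
  have h2 : -1 ≤ z1 ∧ z1 ≤ 2 := by omega
  have h3 : -1 ≤ z2 ∧ z2 ≤ 2 := by omega
  clear h' ha1 ha2 hb1 hb2 hc1 hc2 ha hb hc
  obtain ⟨h11, h12⟩ := h1
  obtain ⟨h21, h22⟩ := h2
  obtain ⟨h31, h32⟩ := h3
  interval_cases z0 <;> interval_cases z1 <;> interval_cases z2 <;>
    first
    | (exfalso; revert h; norm_num; done)
    | simp

theorem core4 (z0 z1 z2 : ℤ)
    (h : (2 * (-z0 + z1 + z2) - 2) ^ 2 + (2 * (z0 - z1 + z2) - 0) ^ 2 +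
      (2 * (z0 + z1 - z2) - 1) ^ 2 ≤ 12) :
    (z0 = 0 ∧ z1 = 0 ∧ z2 = 0) ∨ (z0 = 0 ∧ z1 = 1 ∧ z2 = 0) ∨ (z0 = 0 ∧ z1 = 1 ∧ z2 = 1) ∨ (z0 = 1 ∧ z1 = 1 ∧ z2 = 1) := by
  obtain ⟨a, ha⟩ : ∃ a, a = 2 * (-z0 + z1 + z2) - 2 := ⟨_, rfl⟩
  obtain ⟨b, hb⟩ : ∃ b, b = 2 * (z0 - z1 + z2) - 0 := ⟨_, rfl⟩
  obtain ⟨c, hc⟩ : ∃ c, c = 2 * (z0 + z1 - z2) - 1 := ⟨_, rfl⟩
  have h' := h
  rw [← ha, ← hb, ← hc] at h'
  have ha1 : a ≤ 3 := by nlinarith [sq_nonneg b, sq_nonneg c]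
  have ha2 : -3 ≤ a := by nlinarith [sq_nonneg b, sq_nonneg c]
  have hb1 : b ≤ 3 := by nlinarith [sq_nonneg a, sq_nonneg c]
  have hb2 : -3 ≤ b := by nlinarith [sq_nonneg a, sq_nonneg c]
  have hc1 : c ≤ 3 := by nlinarith [sq_nonneg b, sq_nonneg a]
  have hc2 : -3 ≤ c := by nlinarith [sq_nonneg b, sq_nonneg a]
  have h1 : -1 ≤ z0 ∧ z0 ≤ 2 := by omega
  have h2 : -1 ≤ z1 ∧ z1 ≤ 2 := by omega
  have h3 : -1 ≤ z2 ∧ z2 ≤ 2 := by omega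
  clear h' ha1 ha2 hb1 hb2 hc1 hc2 ha hb hc
  obtain ⟨h11, h12⟩ := h1
  obtain ⟨h21, h22⟩ := h2
  obtain ⟨h31, h32⟩ := h3
  interval_cases z0 <;> interval_cases z1 <;> interval_cases z2 <;>
    first
    | (exfalso; revert h; norm_num; done)
    | simp

theorem core5 (z0 z1 z2 : ℤ)
    (h : (2 * (-z0 + z1 + z2) - 2) ^ 2 + (2 * (z0 - z1 + z2) - 1) ^ 2 +
      (2 * (z0 + z1 - z2) - 0) ^ 2 ≤ 12) :
    (z0 = 0 ∧ z1 = 0 ∧ z2 = 0) ∨ (z0 = 0 ∧ z1 = 0 ∧ z2 = 1) ∨ (z0 = 0 ∧ z1 = 1 ∧ z2 = 1) ∨ (z0 = 1 ∧ z1 = 1 ∧ z2 = 1) := by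
  obtain ⟨a, ha⟩ : ∃ a, a = 2 * (-z0 + z1 + z2) - 2 := ⟨_, rfl⟩
  obtain ⟨b, hb⟩ : ∃ b, b = 2 * (z0 - z1 + z2) - 1 := ⟨_, rfl⟩
  obtain ⟨c, hc⟩ : ∃ c, c = 2 * (z0 + z1 - z2) - 0 := ⟨_, rfl⟩
  have h' := h
  rw [← ha, ← hb, ← hc] at h'
  have ha1 : a ≤ 3 := by nlinarith [sq_nonneg b, sq_nonneg c]
  have ha2 : -3 ≤ a := by nlinarith [sq_nonneg b, sq_nonneg c]
  have hb1 : b ≤ 3 := by nlinarith [sq_nonneg a, sq_nonneg c]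
  have hb2 : -3 ≤ b := by nlinarith [sq_nonneg a, sq_nonneg c]
  have hc1 : c ≤ 3 := by nlinarith [sq_nonneg b, sq_nonneg a]
  have hc2 : -3 ≤ c := by nlinarith [sq_nonneg b, sq_nonneg a]
  have h1 : -1 ≤ z0 ∧ z0 ≤ 2 := by omega
  have h2 : -1 ≤ z1 ∧ z1 ≤ 2 := by omega
  have h3 : -1 ≤ z2 ∧ z2 ≤ 2 := by omega
  clear h' ha1 ha2 hb1 hb2 hc1 hc2 ha hb hc
  obtain ⟨h11, h12⟩ := h1
  obtain ⟨h21, h22⟩ := h2
  obtain ⟨h31, h32⟩ := h3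
  interval_cases z0 <;> interval_cases z1 <;> interval_cases z2 <;>
    first
    | (exfalso; revert h; norm_num; done)
    | simp

/-- the integer square sum attached to a permutation -/
theorem core (s : Equiv.Perm (Fin 3)) (z0 z1 z2 : ℤ)
    (h : (2 * (-z0 + z1 + z2) - ((s 0 : ℕ) : ℤ)) ^ 2 + (2 * (z0 - z1 + z2) - ((s 1 : ℕ) : ℤ)) ^ 2 +
      (2 * (z0 + z1 - z2) - ((s 2 : ℕ) : ℤ)) ^ 2 ≤ 12) :
    ∃ j : Fin 4, z0 = (if (s 0 : ℕ) < j then 1 else 0) ∧ z1 = (if (s 1 : ℕ) < j then 1 else 0) ∧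
      z2 = (if (s 2 : ℕ) < j then 1 else 0) := by
  rcases perm_cases s with ⟨h0, h1, h2⟩ | ⟨h0, h1, h2⟩ | ⟨h0, h1, h2⟩ | ⟨h0, h1, h2⟩ | ⟨h0, h1, h2⟩ |
    ⟨h0, h1, h2⟩
  · rw [h0, h1, h2] at h ⊢
    rcases core0 z0 z1 z2 (by simpa using h) with h | h | h | h
    · exact ⟨0, by simpa using h⟩
    · exact ⟨1, by simpa using h⟩
    · exact ⟨2, by simpa using h⟩
    · exact ⟨3, by simpa using h⟩
  · rw [h0, h1, h2] at h ⊢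
    rcases core1 z0 z1 z2 (by simpa using h) with h | h | h | h
    · exact ⟨0, by simpa using h⟩
    · exact ⟨1, by simpa using h⟩
    · exact ⟨2, by simpa using h⟩
    · exact ⟨3, by simpa using h⟩
  · rw [h0, h1, h2] at h ⊢
    rcases core2 z0 z1 z2 (by simpa using h) with h | h | h | h
    · exact ⟨0, by simpa using h⟩
    · exact ⟨1, by simpa using h⟩
    · exact ⟨2, by simpa using h⟩
    · exact ⟨3, by simpa using h⟩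
  · rw [h0, h1, h2] at h ⊢
    rcases core3 z0 z1 z2 (by simpa using h) with h | h | h | h
    · exact ⟨0, by simpa using h⟩
    · exact ⟨1, by simpa using h⟩
    · exact ⟨2, by simpa using h⟩
    · exact ⟨3, by simpa using h⟩
  · rw [h0, h1, h2] at h ⊢
    rcases core4 z0 z1 z2 (by simpa using h) with h | h | h | h
    · exact ⟨0, by simpa using h⟩
    · exact ⟨1, by simpa using h⟩
    · exact ⟨2, by simpa using h⟩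
    · exact ⟨3, by simpa using h⟩
  · rw [h0, h1, h2] at h ⊢
    rcases core5 z0 z1 z2 (by simpa using h) with h | h | h | h
    · exact ⟨0, by simpa using h⟩
    · exact ⟨1, by simpa using h⟩
    · exact ⟨2, by simpa using h⟩
    · exact ⟨3, by simpa using h⟩

theorem det_ne (x : Fin 3 → ℤ) (σ : Equiv.Perm (Fin 3)) :
    det3 (BB (kv x σ 0)) (BB (kv x σ 1)) (BB (kv x σ 2)) (BB (kv x σ 3)) ≠ 0 := by
  have key : det3 (BB (kv x σ 0)) (BB (kv x σ 1)) (BB (kv x σ 2)) (BB (kv x σ 3)) = 1 / 2 ∨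
      det3 (BB (kv x σ 0)) (BB (kv x σ 1)) (BB (kv x σ 2)) (BB (kv x σ 3)) = -(1 / 2) := by
    rcases perm_cases σ.symm with ⟨h0, h1, h2⟩ | ⟨h0, h1, h2⟩ | ⟨h0, h1, h2⟩ | ⟨h0, h1, h2⟩ |
      ⟨h0, h1, h2⟩ | ⟨h0, h1, h2⟩ <;>
    · simp only [det3, BB_zero, BB_one, BB_two, kv, h0, h1, h2]
      norm_num
      first
      | (left; ring_nf; done)
      | (right; ring_nf; done)
  rcases key with h | h <;> rw [h] <;> norm_num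

/-- the centre -/
noncomputable def cen (x : Fin 3 → ℤ) (σ : Equiv.Perm (Fin 3)) : E3 :=
  !₂[BB x 0 + ((σ.symm 0 : ℕ) : ℝ) / 4, BB x 1 + ((σ.symm 1 : ℕ) : ℝ) / 4,
    BB x 2 + ((σ.symm 2 : ℕ) : ℝ) / 4]

theorem cen_zero (x : Fin 3 → ℤ) (σ : Equiv.Perm (Fin 3)) :
    cen x σ 0 = BB x 0 + ((σ.symm 0 : ℕ) : ℝ) / 4 := rfl
theorem cen_one (x : Fin 3 → ℤ) (σ : Equiv.Perm (Fin 3)) :
    cen x σ 1 = BB x 1 + ((σ.symm 1 : ℕ) : ℝ) / 4 := rfl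
theorem cen_two (x : Fin 3 → ℤ) (σ : Equiv.Perm (Fin 3)) :
    cen x σ 2 = BB x 2 + ((σ.symm 2 : ℕ) : ℝ) / 4 := rfl

theorem dist_cen (x y : Fin 3 → ℤ) (σ : Equiv.Perm (Fin 3)) :
    dist (BB y) (cen x σ) = √(((((2 * (-(y 0 - x 0) + (y 1 - x 1) + (y 2 - x 2)) -
        ((σ.symm 0 : ℕ) : ℤ)) ^ 2 + (2 * ((y 0 - x 0) - (y 1 - x 1) + (y 2 - x 2)) -
        ((σ.symm 1 : ℕ) : ℤ)) ^ 2 + (2 * ((y 0 - x 0) + (y 1 - x 1) - (y 2 - x 2)) -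
        ((σ.symm 2 : ℕ) : ℤ)) ^ 2 : ℤ)) : ℝ) / 16) := by
  rw [EuclideanSpace.dist_eq, Fin.sum_univ_three, Real.dist_eq, Real.dist_eq, Real.dist_eq, sq_abs,
    sq_abs, sq_abs, cen_zero, cen_one, cen_two, BB_zero, BB_one, BB_two, BB_zero, BB_one, BB_two]
  congr 1
  push_cast
  ring

theorem dist_vertex (x : Fin 3 → ℤ) (σ : Equiv.Perm (Fin 3)) (j : Fin 4) :
    dist (BB (kv x σ j)) (cen x σ) = √5 / 4 := by
  rw [dist_cen]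
  have h16 : √5 / 4 = √((5 : ℝ) / 16) := by
    rw [Real.sqrt_div' _ (by norm_num : (0 : ℝ) ≤ 16)]
    rw [show (16 : ℝ) = 4 ^ 2 by norm_num, Real.sqrt_sq (by norm_num)]
  rw [h16]
  congr 2
  norm_cast
  rcases perm_cases σ.symm with ⟨h0, h1, h2⟩ | ⟨h0, h1, h2⟩ | ⟨h0, h1, h2⟩ | ⟨h0, h1, h2⟩ |
    ⟨h0, h1, h2⟩ | ⟨h0, h1, h2⟩ <;> fin_cases j <;> simp [kv, h0, h1, h2]

theorem dist_other (x : Fin 3 → ℤ) (σ : Equiv.Perm (Fin 3)) (y : Fin 3 → ℤ)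
    (hy : ∀ j, y ≠ kv x σ j) : √13 / 4 ≤ dist (BB y) (cen x σ) := by
  rw [dist_cen]
  have h16 : √13 / 4 = √((13 : ℝ) / 16) := by
    rw [Real.sqrt_div' _ (by norm_num : (0 : ℝ) ≤ 16)]
    rw [show (16 : ℝ) = 4 ^ 2 by norm_num, Real.sqrt_sq (by norm_num)]
  rw [h16]
  apply Real.sqrt_le_sqrt
  apply div_le_div_of_nonneg_right _ (by norm_num)
  by_contra hcon
  push Not at hcon
  have h12 : (2 * (-(y 0 - x 0) + (y 1 - x 1) + (y 2 - x 2)) -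
        ((σ.symm 0 : ℕ) : ℤ)) ^ 2 + (2 * ((y 0 - x 0) - (y 1 - x 1) + (y 2 - x 2)) -
        ((σ.symm 1 : ℕ) : ℤ)) ^ 2 + (2 * ((y 0 - x 0) + (y 1 - x 1) - (y 2 - x 2)) -
        ((σ.symm 2 : ℕ) : ℤ)) ^ 2 ≤ 12 := by
    have h13 : (2 * (-(y 0 - x 0) + (y 1 - x 1) + (y 2 - x 2)) -
        ((σ.symm 0 : ℕ) : ℤ)) ^ 2 + (2 * ((y 0 - x 0) - (y 1 - x 1) + (y 2 - x 2)) -
        ((σ.symm 1 : ℕ) : ℤ)) ^ 2 + (2 * ((y 0 - x 0) + (y 1 - x 1) - (y 2 - x 2)) -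
        ((σ.symm 2 : ℕ) : ℤ)) ^ 2 < 13 := by exact_mod_cast hcon
    omega
  obtain ⟨j, h0, h1, h2⟩ := core σ.symm _ _ _ h12
  refine hy j ?_
  funext i
  fin_cases i
  · show y 0 = x 0 + (if (σ.symm 0 : ℕ) < j then 1 else 0)
    rw [← h0]; ring
  · show y 1 = x 1 + (if (σ.symm 1 : ℕ) < j then 1 else 0)
    rw [← h1]; ring
  · show y 2 = x 2 + (if (σ.symm 2 : ℕ) < j then 1 else 0)
    rw [← h2]; ring

theorem bcc_facts :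
    (∀ v : E3, v ∈ bcc ↔ ∃ x, v = BB x) ∧ Function.Injective BB ∧
    (∀ x y : Fin 3 → ℤ, BB (fun i => x i + y i) = BB x + BB y) ∧
    (∀ x σ, det3 (BB (kv x σ 0)) (BB (kv x σ 1)) (BB (kv x σ 2)) (BB (kv x σ 3)) ≠ 0) ∧
    (∀ x σ, ∃ o : E3, (∀ j, dist (BB (kv x σ j)) o = √5 / 4) ∧
      ∀ y, (∀ j, y ≠ kv x σ j) → √13 / 4 ≤ dist (BB y) o) :=
  ⟨mem_bcc, BB_inj, BB_add, det_ne, fun x σ => ⟨cen x σ, dist_vertex x σ, dist_other x σ⟩⟩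

end BccCov.LB

namespace BccCov
export LB (bcc_facts)
end BccCov
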