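import Pool.Agent.MP_bf7174_co.DefsL

set_option autoImplicit false

open scoped InnerProductSpace

namespace BccCov.LK1

/-- the vertex vectors of the Kuhn tetrahedron with base point `0` -/
def w (σ : Equiv.Perm (Fin 3)) (j : Fin 4) : Fin 3 → ℤ :=
  fun i => if (σ.symm i : ℕ) < j then 1 else 0

theorem kv_eq (x : Fin 3 → ℤ) (σ : Equiv.Perm (Fin 3)) (j : Fin 4) : kv x σ j = x + w σ j := rfl

theorem w_inj : ∀ (σ : Equiv.Perm (Fin 3)) (j j' : Fin 4), w σ j = w σ j' → j = j' := by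
  decide

theorem w_nb : ∀ (σ : Equiv.Perm (Fin 3)) (j : Fin 4),
    ∃ σ' : Equiv.Perm (Fin 3), ∃ a b : Fin 4,
      (∀ j' : Fin 4, j' ≠ j → ∃ j'' : Fin 4, w σ j' = (w σ a - w σ b) + w σ' j'') ∧
      ∃ j'' : Fin 4, ∀ j' : Fin 4, (w σ a - w σ b) + w σ' j'' ≠ w σ j' := by
  decide

theorem w_mark : ∀ (σ : Equiv.Perm (Fin 3)) (k : Fin 3) (j j' : Fin 4),
    (w σ j' = w σ j + fun i => if i = k then 0 else 1) →
      (w σ j = 0 ∧ σ 2 = k) ∨ (w σ j = (fun i => if i = k then 1 else 0) ∧ σ 0 = k) := by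
  decide

theorem card_two : ∀ k : Fin 3,
    (Finset.univ.filter fun σ : Equiv.Perm (Fin 3) => σ 2 = k).card = 2 ∧
    (Finset.univ.filter fun σ : Equiv.Perm (Fin 3) => σ 0 = k).card = 2 := by
  decide

theorem mem_ktet {p : (Fin 3 → ℤ) → E3} {x : Fin 3 → ℤ} {σ : Equiv.Perm (Fin 3)} {v : E3} :
    v ∈ ktet p x σ ↔ ∃ j : Fin 4, p (kv x σ j) = v := by
  unfold ktet
  rw [Finset.mem_image]
  constructor
  · rintro ⟨j, _, h⟩
    exact ⟨j, h⟩
  · rintro ⟨j, h⟩
    exact ⟨j, Finset.mem_univ _, h⟩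

theorem mem_ktet_iff {p : (Fin 3 → ℤ) → E3} (hp : Function.Injective p) {x y : Fin 3 → ℤ}
    {σ : Equiv.Perm (Fin 3)} : p y ∈ ktet p x σ ↔ ∃ j : Fin 4, y = x + w σ j := by
  rw [mem_ktet]
  constructor
  · rintro ⟨j, h⟩
    exact ⟨j, (hp h).symm⟩
  · rintro ⟨j, h⟩
    exact ⟨j, by rw [h]; rfl⟩

theorem kuhn_counts (p : (Fin 3 → ℤ) → E3) (hp : Function.Injective p) :
    (∀ t ∈ KD p, t.card = 4) ∧
    (∀ t ∈ KD p, ∀ f ⊆ t, f.card = 3 → ∃ t' ∈ KD p, t' ≠ t ∧ f ⊆ t') ∧
    (∀ m ∈ KM p, {t | t ∈ KD p ∧ m ⊆ t}.encard ≤ 4) ∧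
    (∀ y, {t | t ∈ KD p ∧ p y ∈ t}.encard ≤ 24) := by
  classical
  have hcard : ∀ x σ, (ktet p x σ).card = 4 := by
    intro x σ
    unfold ktet
    have hinj : Function.Injective fun j : Fin 4 => p (kv x σ j) := by
      intro j j' h
      have h1 := hp h
      rw [kv_eq, kv_eq] at h1
      exact w_inj σ j j' (add_left_cancel h1)
    rw [Finset.card_image_of_injective _ hinj]
    rfl
  refine ⟨?_, ?_, ?_, ?_⟩
  · rintro t ⟨x, σ, rfl⟩
    exact hcard x σ
  · rintro t ⟨x, σ, rfl⟩ f hf hf3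
    -- the omitted vertex
    have h1 : ∃ v ∈ ktet p x σ, v ∉ f := by
      by_contra hc
      push Not at hc
      have := Finset.card_le_card (show ktet p x σ ⊆ f from hc)
      rw [hcard, hf3] at this
      omega
    obtain ⟨v, hv, hvf⟩ := h1
    obtain ⟨j, rfl⟩ := mem_ktet.1 hv
    obtain ⟨σ', a, b, h2, j₀, h3⟩ := w_nb σ j
    refine ⟨ktet p (x + (w σ a - w σ b)) σ', ⟨_, _, rfl⟩, ?_, ?_⟩
    · intro he
      have h4 : p (x + (w σ a - w σ b) + w σ' j₀) ∈ ktet p x σ := by
        rw [← he, mem_ktet_iff hp]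
        exact ⟨j₀, rfl⟩
      rw [mem_ktet_iff hp] at h4
      obtain ⟨j', h5⟩ := h4
      rw [add_assoc] at h5
      exact h3 j' (add_left_cancel h5)
    · intro u hu
      obtain ⟨j', rfl⟩ := mem_ktet.1 (hf hu)
      have hne : j' ≠ j := by
        rintro rfl
        exact hvf hu
      obtain ⟨j'', h6⟩ := h2 j' hne
      rw [mem_ktet_iff hp]
      refine ⟨j'', ?_⟩
      rw [kv_eq, h6, add_assoc]
  · rintro m ⟨x, k, hm⟩
    set S : Finset (Finset E3) :=
      ((Finset.univ.filter fun σ : Equiv.Perm (Fin 3) => σ 2 = k).image fun σ => ktet p x σ) ∪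
      ((Finset.univ.filter fun σ : Equiv.Perm (Fin 3) => σ 0 = k).image fun σ =>
        ktet p (x - fun i => if i = k then 1 else 0) σ) with hS
    have hsub : {t | t ∈ KD p ∧ m ⊆ t} ⊆ (S : Set (Finset E3)) := by
      rintro t ⟨⟨x', σ, rfl⟩, hmt⟩
      have h1 : p x ∈ ktet p x' σ := by
        apply hmt
        rw [← Finset.mem_coe, hm]
        exact Or.inl rfl
      have h2 : p (fun i => x i + if i = k then 0 else 1) ∈ ktet p x' σ := by
        apply hmt
        rw [← Finset.mem_coe, hm]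
        exact Or.inr rfl
      rw [mem_ktet_iff hp] at h1 h2
      obtain ⟨j, h1⟩ := h1
      obtain ⟨j', h2⟩ := h2
      have h3 : w σ j' = w σ j + fun i => if i = k then 0 else 1 := by
        have h4 : (x + fun i => if i = k then (0 : ℤ) else 1) = x' + w σ j' := h2
        rw [h1, add_assoc] at h4
        exact (add_left_cancel h4).symm
      rw [Finset.mem_coe, hS, Finset.mem_union, Finset.mem_image, Finset.mem_image]
      rcases w_mark σ k j j' h3 with ⟨h5, h6⟩ | ⟨h5, h6⟩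
      · left
        refine ⟨σ, by rw [Finset.mem_filter]; exact ⟨Finset.mem_univ _, h6⟩, ?_⟩
        rw [h1, h5, add_zero]
      · right
        refine ⟨σ, by rw [Finset.mem_filter]; exact ⟨Finset.mem_univ _, h6⟩, ?_⟩
        rw [h1, h5]
        congr 1
        exact add_sub_cancel_right x' _
    have hScard : S.card ≤ 4 := by
      refine (Finset.card_union_le _ _).trans ?_
      have h1 := (card_two k).1
      have h2 := (card_two k).2
      have h3 := Finset.card_image_le (s := Finset.univ.filter fun σ : Equiv.Perm (Fin 3) => σ 2 = k)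
        (f := fun σ => ktet p x σ)
      have h4 := Finset.card_image_le (s := Finset.univ.filter fun σ : Equiv.Perm (Fin 3) => σ 0 = k)
        (f := fun σ => ktet p (x - fun i => if i = k then 1 else 0) σ)
      omega
    calc {t | t ∈ KD p ∧ m ⊆ t}.encard ≤ (S : Set (Finset E3)).encard := Set.encard_le_encard hsub
      _ = (S.card : ℕ∞) := Set.encard_coe_eq_coe_finsetCard S
      _ ≤ 4 := by exact_mod_cast hScard
  · intro y
    set S : Finset (Finset E3) :=
      (Finset.univ : Finset (Equiv.Perm (Fin 3) × Fin 4)).image fun q => ktet p (y - w q.1 q.2) q.1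
      with hS
    have hsub : {t | t ∈ KD p ∧ p y ∈ t} ⊆ (S : Set (Finset E3)) := by
      rintro t ⟨⟨x', σ, rfl⟩, hyt⟩
      rw [mem_ktet_iff hp] at hyt
      obtain ⟨j, h1⟩ := hyt
      rw [Finset.mem_coe, hS, Finset.mem_image]
      refine ⟨(σ, j), Finset.mem_univ _, ?_⟩
      rw [h1]
      congr 1
      exact add_sub_cancel_right x' _
    have hScard : S.card ≤ 24 := by
      refine Finset.card_image_le.trans ?_
      rw [Finset.card_univ]
      decide
    calc {t | t ∈ KD p ∧ p y ∈ t}.encard ≤ (S : Set (Finset E3)).encard := Set.encard_le_encard hsub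
      _ = (S.card : ℕ∞) := Set.encard_coe_eq_coe_finsetCard S
      _ ≤ 24 := by exact_mod_cast hScard

end BccCov.LK1

namespace BccCov
export LK1 (kuhn_counts)
end BccCov
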