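import Pool.Agent.MP_bf7174_co.DefsL

set_option autoImplicit false

open scoped InnerProductSpace
open MeasureTheory

namespace BccCov.LK2

theorem kv_sum (x : Fin 3 → ℤ) (σ : Equiv.Perm (Fin 3)) (j : Fin 4) :
    ∑ i, kv x σ j i = ∑ i, x i + (j : ℤ) := by
  have h1 : ∑ i, kv x σ j i = ∑ i, x i + ∑ i, (if (σ.symm i : ℕ) < j then (1 : ℤ) else 0) := by
    rw [← Finset.sum_add_distrib]
    rfl
  rw [h1]
  congr 1
  rw [Equiv.sum_comp σ.symm (fun i : Fin 3 => if (i : ℕ) < j then (1 : ℤ) else 0)]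
  clear h1
  revert j
  decide

theorem kv_inj (x : Fin 3 → ℤ) (σ : Equiv.Perm (Fin 3)) : Function.Injective (kv x σ) := by
  intro j j' h
  have h1 := kv_sum x σ j
  have h2 := kv_sum x σ j'
  rw [h, h2] at h1
  have : (j : ℤ) = j' := by linarith
  exact Fin.ext (by exact_mod_cast this)

/-- the difference of a marked pair has coordinate sum `± 2` -/
theorem marked_sum (p : (Fin 3 → ℤ) → E3) (hp : Function.Injective p) (a b : Fin 3 → ℤ)
    (m : Finset E3) (hm : (m : Set E3) = {p a, p b}) (h : m ∈ KM p) :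
    ∑ i, b i = ∑ i, a i + 2 ∨ ∑ i, a i = ∑ i, b i + 2 := by
  obtain ⟨y, k, hyk⟩ := h
  rw [hm] at hyk
  have hs : ∑ i, (fun i => y i + if i = k then (0 : ℤ) else 1) i = ∑ i, y i + 2 := by
    rw [Finset.sum_add_distrib]
    congr 1
    clear hyk
    revert k
    decide
  rcases (Set.pair_eq_pair_iff.1 hyk) with ⟨h1, h2⟩ | ⟨h1, h2⟩
  · have := hp h1
    have := hp h2
    subst a
    subst b
    exact Or.inl hs
  · have := hp h1
    have := hp h2
    subst a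
    subst b
    exact Or.inr hs

theorem comb (J : Finset (Fin 4)) (h : J.card = 3) :
    (0 ∈ J ∧ 2 ∈ J ∧ ¬ (1 ∈ J ∧ 3 ∈ J)) ∨ (1 ∈ J ∧ 3 ∈ J ∧ ¬ (0 ∈ J ∧ 2 ∈ J)) := by
  revert J
  decide

theorem comb2 (j j' : Fin 4) (h : (j' : ℤ) = j + 2 ∨ (j : ℤ) = j' + 2) :
    (j = 0 ∧ j' = 2) ∨ (j = 2 ∧ j' = 0) ∨ (j = 1 ∧ j' = 3) ∨ (j = 3 ∧ j' = 1) := by
  revert j j'
  decide

theorem mark02 (p : (Fin 3 → ℤ) → E3) (x : Fin 3 → ℤ) (σ : Equiv.Perm (Fin 3)) (m : Finset E3)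
    (hm : (m : Set E3) = {p (kv x σ 0), p (kv x σ 2)}) : m ∈ KM p := by
  refine ⟨x, σ 2, ?_⟩
  have h0 : kv x σ 0 = x := by
    funext i
    simp [kv]
  have h2 : kv x σ 2 = fun i => x i + if i = σ 2 then 0 else 1 := by
    funext i
    simp only [kv]
    congr 1
    obtain ⟨k, rfl⟩ := σ.surjective i
    simp only [Equiv.symm_apply_apply, EmbeddingLike.apply_eq_iff_eq]
    revert k
    decide
  rw [hm, h0, h2]

theorem mark13 (p : (Fin 3 → ℤ) → E3) (x : Fin 3 → ℤ) (σ : Equiv.Perm (Fin 3)) (m : Finset E3)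
    (hm : (m : Set E3) = {p (kv x σ 1), p (kv x σ 3)}) : m ∈ KM p := by
  refine ⟨kv x σ 1, σ 0, ?_⟩
  have h2 : kv x σ 3 = fun i => kv x σ 1 i + if i = σ 0 then 0 else 1 := by
    funext i
    simp only [kv]
    rw [add_assoc]
    congr 1
    obtain ⟨k, rfl⟩ := σ.surjective i
    simp only [Equiv.symm_apply_apply, EmbeddingLike.apply_eq_iff_eq]
    revert k
    decide
  rw [hm, h2]

theorem kuhn_marked (p : (Fin 3 → ℤ) → E3) (hp : Function.Injective p) :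
    ∀ t ∈ KD p, ∀ f ⊆ t, f.card = 3 → ∃! m : Finset E3, m ∈ KM p ∧ m.card = 2 ∧ m ⊆ f := by
  classical
  rintro t ⟨x, σ, rfl⟩ f hf hc
  set v : Fin 4 → E3 := fun j => p (kv x σ j) with hv
  have hvi : Function.Injective v := hp.comp (kv_inj x σ)
  have hmem : ∀ a ∈ f, ∃ j, v j = a := by
    intro a ha
    have := hf ha
    simp only [ktet, Finset.mem_image, Finset.mem_univ, true_and] at this
    exact this
  set J : Finset (Fin 4) := Finset.univ.filter (fun j => v j ∈ f) with hJ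
  have hJf : J.image v = f := by
    ext a
    constructor
    · intro ha
      obtain ⟨j, hj, rfl⟩ := Finset.mem_image.1 ha
      exact (Finset.mem_filter.1 hj).2
    · intro ha
      obtain ⟨j, rfl⟩ := hmem a ha
      exact Finset.mem_image_of_mem _ (Finset.mem_filter.2 ⟨Finset.mem_univ _, ha⟩)
  have hJc : J.card = 3 := by
    rw [← Finset.card_image_of_injective J hvi, hJf, hc]
  have hJm : ∀ j, j ∈ J ↔ v j ∈ f := by
    intro j
    simp [hJ]
  have key : ∀ m : Finset E3, m ∈ KM p → m.card = 2 → m ⊆ f →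
      (m = {v 0, v 2} ∧ 0 ∈ J ∧ 2 ∈ J) ∨ (m = {v 1, v 3} ∧ 1 ∈ J ∧ 3 ∈ J) := by
    intro m h1 h2 h3
    obtain ⟨a, b, hab, rfl⟩ := Finset.card_eq_two.1 h2
    have ha : a ∈ f := h3 (by simp)
    have hb : b ∈ f := h3 (by simp)
    obtain ⟨j, rfl⟩ := hmem a ha
    obtain ⟨j', rfl⟩ := hmem b hb
    have h4 := marked_sum p hp (kv x σ j) (kv x σ j') _ (by simp [hv]) h1
    rw [kv_sum, kv_sum] at h4
    have h5 : ((j' : ℕ) : ℤ) = (j : ℕ) + 2 ∨ ((j : ℕ) : ℤ) = (j' : ℕ) + 2 := by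
      rcases h4 with h | h
      · left; linarith
      · right; linarith
    rcases comb2 j j' h5 with ⟨rfl, rfl⟩ | ⟨rfl, rfl⟩ | ⟨rfl, rfl⟩ | ⟨rfl, rfl⟩
    · exact Or.inl ⟨rfl, (hJm _).2 ha, (hJm _).2 hb⟩
    · exact Or.inl ⟨Finset.pair_comm _ _, (hJm _).2 hb, (hJm _).2 ha⟩
    · exact Or.inr ⟨rfl, (hJm _).2 ha, (hJm _).2 hb⟩
    · exact Or.inr ⟨Finset.pair_comm _ _, (hJm _).2 hb, (hJm _).2 ha⟩
  rcases comb J hJc with ⟨h0, h2, hn⟩ | ⟨h1, h3, hn⟩
  · refine ⟨{v 0, v 2}, ⟨mark02 p x σ _ (by simp [hv]), ?_, ?_⟩, ?_⟩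
    · exact Finset.card_pair (fun e => absurd (hvi e) (by decide))
    · intro a ha
      simp only [Finset.mem_insert, Finset.mem_singleton] at ha
      rcases ha with rfl | rfl
      · exact (hJm _).1 h0
      · exact (hJm _).1 h2
    · rintro m ⟨a, b, c⟩
      rcases key m a b c with ⟨h, _, _⟩ | ⟨_, h, h'⟩
      · exact h
      · exact absurd ⟨h, h'⟩ hn
  · refine ⟨{v 1, v 3}, ⟨mark13 p x σ _ (by simp [hv]), ?_, ?_⟩, ?_⟩
    · exact Finset.card_pair (fun e => absurd (hvi e) (by decide))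
    · intro a ha
      simp only [Finset.mem_insert, Finset.mem_singleton] at ha
      rcases ha with rfl | rfl
      · exact (hJm _).1 h1
      · exact (hJm _).1 h3
    · rintro m ⟨a, b, c⟩
      rcases key m a b c with ⟨_, h, h'⟩ | ⟨h, _, _⟩
      · exact absurd ⟨h, h'⟩ hn
      · exact h

end BccCov.LK2

namespace BccCov
export LK2 (kuhn_marked)
end BccCov
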