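import Pool.Agent.MP_bf7174_co.DefsL

set_option autoImplicit false

open scoped InnerProductSpace
open MeasureTheory Filter Topology

namespace BccCov.LP

/-- right hand side -/
noncomputable def al (x y : E3) : ℝ :=
  (y 0 ^ 2 + y 1 ^ 2 + y 2 ^ 2 - (x 0 ^ 2 + x 1 ^ 2 + x 2 ^ 2)) / 2

noncomputable def n0 (x y z w : E3) : ℝ :=
  al x y * ((z 1 - x 1) * (w 2 - x 2) - (z 2 - x 2) * (w 1 - x 1))
  + al x z * ((w 1 - x 1) * (y 2 - x 2) - (w 2 - x 2) * (y 1 - x 1))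
  + al x w * ((y 1 - x 1) * (z 2 - x 2) - (y 2 - x 2) * (z 1 - x 1))

noncomputable def n1 (x y z w : E3) : ℝ :=
  al x y * ((z 2 - x 2) * (w 0 - x 0) - (z 0 - x 0) * (w 2 - x 2))
  + al x z * ((w 2 - x 2) * (y 0 - x 0) - (w 0 - x 0) * (y 2 - x 2))
  + al x w * ((y 2 - x 2) * (z 0 - x 0) - (y 0 - x 0) * (z 2 - x 2))

noncomputable def n2 (x y z w : E3) : ℝ :=
  al x y * ((z 0 - x 0) * (w 1 - x 1) - (z 1 - x 1) * (w 0 - x 0))
  + al x z * ((w 0 - x 0) * (y 1 - x 1) - (w 1 - x 1) * (y 0 - x 0))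
  + al x w * ((y 0 - x 0) * (z 1 - x 1) - (y 1 - x 1) * (z 0 - x 0))

noncomputable def cc (p : Fin 4 → E3) : E3 :=
  !₂[n0 (p 0) (p 1) (p 2) (p 3) / det3 (p 0) (p 1) (p 2) (p 3),
    n1 (p 0) (p 1) (p 2) (p 3) / det3 (p 0) (p 1) (p 2) (p 3),
    n2 (p 0) (p 1) (p 2) (p 3) / det3 (p 0) (p 1) (p 2) (p 3)]

theorem dist_sq (x y : E3) :
    dist x y ^ 2 = (x 0 - y 0) ^ 2 + (x 1 - y 1) ^ 2 + (x 2 - y 2) ^ 2 := by
  rw [EuclideanSpace.dist_eq, Real.sq_sqrt (by positivity), Fin.sum_univ_three]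
  simp only [Real.dist_eq, sq_abs]

theorem lin_of (x y o : E3) (h : dist x o = dist y o) :
    (y 0 - x 0) * o 0 + (y 1 - x 1) * o 1 + (y 2 - x 2) * o 2 = al x y := by
  have h1 : dist x o ^ 2 = dist y o ^ 2 := by rw [h]
  rw [dist_sq, dist_sq] at h1
  rw [al]
  linear_combination h1 / 2

theorem of_lin (x y o : E3)
    (h : (y 0 - x 0) * o 0 + (y 1 - x 1) * o 1 + (y 2 - x 2) * o 2 = al x y) :
    dist y o = dist x o := by
  have h1 : dist y o ^ 2 = dist x o ^ 2 := by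
    rw [dist_sq, dist_sq]
    rw [al] at h
    linear_combination (-2) * h
  exact (pow_left_inj₀ dist_nonneg dist_nonneg (by norm_num)).1 h1

theorem cc_eq (q : Fin 4 → E3) (o : E3) (ρ : ℝ) (hq : ∀ j, dist (q j) o = ρ)
    (hdet : det3 (q 0) (q 1) (q 2) (q 3) ≠ 0) : cc q = o := by
  have h1 := lin_of (q 0) (q 1) o ((hq 0).trans (hq 1).symm)
  have h2 := lin_of (q 0) (q 2) o ((hq 0).trans (hq 2).symm)
  have h3 := lin_of (q 0) (q 3) o ((hq 0).trans (hq 3).symm)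
  have e0 : n0 (q 0) (q 1) (q 2) (q 3) / det3 (q 0) (q 1) (q 2) (q 3) = o 0 := by
    rw [div_eq_iff hdet, n0, ← h1, ← h2, ← h3, det3]; ring
  have e1 : n1 (q 0) (q 1) (q 2) (q 3) / det3 (q 0) (q 1) (q 2) (q 3) = o 1 := by
    rw [div_eq_iff hdet, n1, ← h1, ← h2, ← h3, det3]; ring
  have e2 : n2 (q 0) (q 1) (q 2) (q 3) / det3 (q 0) (q 1) (q 2) (q 3) = o 2 := by
    rw [div_eq_iff hdet, n2, ← h1, ← h2, ← h3, det3]; ring
  rw [cc, e0, e1, e2]
  ext i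
  fin_cases i <;> simp

theorem cc_lin (p : Fin 4 → E3) (hdet : det3 (p 0) (p 1) (p 2) (p 3) ≠ 0) (j : Fin 4) :
    dist (p j) (cc p) = dist (p 0) (cc p) := by
  have c0 : (cc p) 0 = n0 (p 0) (p 1) (p 2) (p 3) / det3 (p 0) (p 1) (p 2) (p 3) := rfl
  have c1 : (cc p) 1 = n1 (p 0) (p 1) (p 2) (p 3) / det3 (p 0) (p 1) (p 2) (p 3) := rfl
  have c2 : (cc p) 2 = n2 (p 0) (p 1) (p 2) (p 3) / det3 (p 0) (p 1) (p 2) (p 3) := rfl
  fin_cases j
  · rfl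
  · apply of_lin
    rw [c0, c1, c2, mul_div_assoc', mul_div_assoc', mul_div_assoc', ← add_div, ← add_div,
      div_eq_iff hdet]
    simp only [Fin.mk_one]
    rw [n0, n1, n2, det3]; ring
  · apply of_lin
    rw [c0, c1, c2, mul_div_assoc', mul_div_assoc', mul_div_assoc', ← add_div, ← add_div,
      div_eq_iff hdet]
    simp only [Fin.reduceFinMk]
    rw [n0, n1, n2, det3]; ring
  · apply of_lin
    rw [c0, c1, c2, mul_div_assoc', mul_div_assoc', mul_div_assoc', ← add_div, ← add_div,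
      div_eq_iff hdet]
    simp only [Fin.reduceFinMk]
    rw [n0, n1, n2, det3]; ring

theorem cont_det : Continuous fun p : Fin 4 → E3 => det3 (p 0) (p 1) (p 2) (p 3) := by
  unfold det3
  fun_prop

theorem cont_n0 : Continuous fun p : Fin 4 → E3 => n0 (p 0) (p 1) (p 2) (p 3) := by
  unfold n0 al
  fun_prop

theorem cont_n1 : Continuous fun p : Fin 4 → E3 => n1 (p 0) (p 1) (p 2) (p 3) := by
  unfold n1 al
  fun_prop

theorem cont_n2 : Continuous fun p : Fin 4 → E3 => n2 (p 0) (p 1) (p 2) (p 3) := by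
  unfold n2 al
  fun_prop

theorem cont_cc (q : Fin 4 → E3) (hdet : det3 (q 0) (q 1) (q 2) (q 3) ≠ 0) :
    ContinuousAt cc q := by
  have h : ContinuousAt (fun p : Fin 4 → E3 => fun i : Fin 3 =>
      (![n0 (p 0) (p 1) (p 2) (p 3) / det3 (p 0) (p 1) (p 2) (p 3),
    n1 (p 0) (p 1) (p 2) (p 3) / det3 (p 0) (p 1) (p 2) (p 3),
    n2 (p 0) (p 1) (p 2) (p 3) / det3 (p 0) (p 1) (p 2) (p 3)] : Fin 3 → ℝ) i) q := by
    rw [continuousAt_pi]
    intro i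
    fin_cases i
    · exact cont_n0.continuousAt.div cont_det.continuousAt hdet
    · exact cont_n1.continuousAt.div cont_det.continuousAt hdet
    · exact cont_n2.continuousAt.div cont_det.continuousAt hdet
  exact (PiLp.continuous_toLp 2 (fun _ : Fin 3 => ℝ)).continuousAt.comp h

theorem circum_perturb (q : Fin 4 → E3) (o : E3) (ρ : ℝ) (hq : ∀ j, dist (q j) o = ρ)
    (hdet : det3 (q 0) (q 1) (q 2) (q 3) ≠ 0) (η : ℝ) (hη : 0 < η) :
    ∃ ε : ℝ, 0 < ε ∧ ∀ p : Fin 4 → E3, (∀ j, dist (p j) (q j) ≤ ε) →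
      det3 (p 0) (p 1) (p 2) (p 3) ≠ 0 ∧
      ∃ (o' : E3) (ρ' : ℝ), dist o' o ≤ η ∧ ∀ j, dist (p j) o' = ρ' := by
  have h1 : ∀ᶠ p in 𝓝 q, det3 (p 0) (p 1) (p 2) (p 3) ≠ 0 :=
    cont_det.continuousAt.eventually_ne hdet
  have h2 : ∀ᶠ p in 𝓝 q, dist (cc p) (cc q) < η :=
    (Metric.tendsto_nhds.1 (cont_cc q hdet)) η hη
  obtain ⟨δ, hδ, h3⟩ := Metric.eventually_nhds_iff.1 (h1.and h2)
  refine ⟨δ / 2, by positivity, fun p hp => ?_⟩
  have h4 : dist p q < δ := by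
    refine lt_of_le_of_lt ((dist_pi_le_iff (by positivity)).2 hp) ?_
    linarith
  obtain ⟨h5, h6⟩ := h3 h4
  refine ⟨h5, cc p, dist (p 0) (cc p), ?_, cc_lin p h5⟩
  rw [cc_eq q o ρ hq hdet] at h6
  exact h6.le

end BccCov.LP

namespace BccCov
export LP (circum_perturb)
end BccCov
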