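import Pool.Agent.MP_bf7174_co.Defs

set_option autoImplicit false

namespace BccCov.M

theorem two_sub {α : Type*} [DecidableEq α] {m t : Finset α} (hm : m.card = 2) (ht : m ⊆ t) :
    ∃ p q : α, p ≠ q ∧ p ∈ t ∧ q ∈ t ∧ m = {p, q} := by
  obtain ⟨p, q, hpq, rfl⟩ := Finset.card_eq_two.1 hm
  exact ⟨p, q, hpq, ht (by simp), ht (by simp), rfl⟩

theorem face {α : Type*} [DecidableEq α] (M : Set (Finset α)) {x y z : α} (hxy : x ≠ y)
    (hxz : x ≠ z) (hyz : y ≠ z)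
    (h : ∃! m : Finset α, m ∈ M ∧ m.card = 2 ∧ m ⊆ {x, y, z}) :
    (({x, y} : Finset α) ∈ M ∨ ({x, z} : Finset α) ∈ M ∨ ({y, z} : Finset α) ∈ M) ∧
      ¬ (({x, y} : Finset α) ∈ M ∧ ({x, z} : Finset α) ∈ M) ∧
      ¬ (({x, y} : Finset α) ∈ M ∧ ({y, z} : Finset α) ∈ M) ∧
      ¬ (({x, z} : Finset α) ∈ M ∧ ({y, z} : Finset α) ∈ M) := by
  obtain ⟨m, ⟨h1, h2, h3⟩, hu⟩ := h
  have c1 : ({x, y} : Finset α).card = 2 := Finset.card_pair hxy
  have c2 : ({x, z} : Finset α).card = 2 := Finset.card_pair hxz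
  have c3 : ({y, z} : Finset α).card = 2 := Finset.card_pair hyz
  have s1 : ({x, y} : Finset α) ⊆ {x, y, z} := by
    intro a ha; simp at ha ⊢; tauto
  have s2 : ({x, z} : Finset α) ⊆ {x, y, z} := by
    intro a ha; simp at ha ⊢; tauto
  have s3 : ({y, z} : Finset α) ⊆ {x, y, z} := by
    intro a ha; simp at ha ⊢; tauto
  have n12 : ({x, y} : Finset α) ≠ {x, z} := by
    intro e
    have : y ∈ ({x, z} : Finset α) := e ▸ (by simp)
    simp [hyz, hxy.symm] at this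
  have n13 : ({x, y} : Finset α) ≠ {y, z} := by
    intro e
    have : x ∈ ({y, z} : Finset α) := e ▸ (by simp)
    simp [hxz, hxy] at this
  have n23 : ({x, z} : Finset α) ≠ {y, z} := by
    intro e
    have : x ∈ ({y, z} : Finset α) := e ▸ (by simp)
    simp [hxz, hxy] at this
  refine ⟨?_, ?_, ?_, ?_⟩
  · obtain ⟨p, q, hpq, hp, hq, rfl⟩ := two_sub h2 h3
    simp only [Finset.mem_insert, Finset.mem_singleton] at hp hq
    rcases hp with rfl | rfl | rfl <;> rcases hq with rfl | rfl | rfl <;>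
      first
        | exact absurd rfl hpq
        | exact Or.inl h1
        | exact Or.inr (Or.inl h1)
        | exact Or.inr (Or.inr h1)
        | (rw [Finset.pair_comm] at h1
           first
             | exact Or.inl h1
             | exact Or.inr (Or.inl h1)
             | exact Or.inr (Or.inr h1))
  · rintro ⟨a, b⟩
    exact n12 ((hu _ ⟨a, c1, s1⟩).trans (hu _ ⟨b, c2, s2⟩).symm)
  · rintro ⟨a, b⟩
    exact n13 ((hu _ ⟨a, c1, s1⟩).trans (hu _ ⟨b, c3, s3⟩).symm)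
  · rintro ⟨a, b⟩
    exact n23 ((hu _ ⟨a, c2, s2⟩).trans (hu _ ⟨b, c3, s3⟩).symm)

/-- The conclusion from the six facts. -/
theorem concl {α : Type*} [DecidableEq α] (M : Set (Finset α)) {x y z w : α} (hxy : x ≠ y)
    (hxz : x ≠ z) (hxw : x ≠ w) (hyz : y ≠ z) (hyw : y ≠ w) (hzw : z ≠ w)
    (t : Finset α) (ht : t = {x, y, z, w})
    (h1 : ({x, y} : Finset α) ∈ M) (h2 : ({z, w} : Finset α) ∈ M) (h3 : ({x, z} : Finset α) ∉ M)
    (h4 : ({x, w} : Finset α) ∉ M) (h5 : ({y, z} : Finset α) ∉ M) (h6 : ({y, w} : Finset α) ∉ M) :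
    ∃ x y z w : α, (t : Set α) = {x, y, z, w} ∧
      ∃ m₁ m₂ : Finset α, (m₁ : Set α) = {x, y} ∧ (m₂ : Set α) = {z, w} ∧ m₁ ≠ m₂ ∧
        m₁ ⊆ t ∧ m₂ ⊆ t ∧ m₁.card = 2 ∧ m₂.card = 2 ∧
        ∀ m ⊆ t, m.card = 2 → (m ∈ M ↔ m = m₁ ∨ m = m₂) := by
  subst ht
  refine ⟨x, y, z, w, by simp, {x, y}, {z, w}, by simp, by simp, ?_, ?_, ?_,
    Finset.card_pair hxy, Finset.card_pair hzw, ?_⟩
  · intro e
    have : x ∈ ({z, w} : Finset α) := e ▸ (by simp)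
    simp [hxz, hxw] at this
  · intro a ha; simp at ha ⊢; tauto
  · intro a ha; simp at ha ⊢; tauto
  · intro m hm hc
    constructor
    · intro hM
      obtain ⟨p, q, hpq, hp, hq, rfl⟩ := two_sub hc hm
      simp only [Finset.mem_insert, Finset.mem_singleton] at hp hq
      rcases hp with rfl | rfl | rfl | rfl <;> rcases hq with rfl | rfl | rfl | rfl <;>
        first
          | exact absurd rfl hpq
          | exact Or.inl rfl
          | exact Or.inr rfl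
          | exact absurd hM ‹_›
          | exact Or.inl (Finset.pair_comm _ _)
          | exact Or.inr (Finset.pair_comm _ _)
          | (rw [Finset.pair_comm] at hM; exact absurd hM ‹_›)
    · rintro (rfl | rfl)
      · exact h1
      · exact h2

theorem prop6 (A B C D E G : Prop)
    (f1 : (A ∨ B ∨ D) ∧ ¬ (A ∧ B) ∧ ¬ (A ∧ D) ∧ ¬ (B ∧ D))
    (f2 : (A ∨ C ∨ E) ∧ ¬ (A ∧ C) ∧ ¬ (A ∧ E) ∧ ¬ (C ∧ E))
    (f3 : (B ∨ C ∨ G) ∧ ¬ (B ∧ C) ∧ ¬ (B ∧ G) ∧ ¬ (C ∧ G))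
    (f4 : (D ∨ E ∨ G) ∧ ¬ (D ∧ E) ∧ ¬ (D ∧ G) ∧ ¬ (E ∧ G)) :
    (A ∧ G ∧ ¬ B ∧ ¬ C ∧ ¬ D ∧ ¬ E) ∨ (B ∧ E ∧ ¬ A ∧ ¬ C ∧ ¬ D ∧ ¬ G) ∨
      (C ∧ D ∧ ¬ A ∧ ¬ B ∧ ¬ E ∧ ¬ G) := by
  by_cases hA : A
  · have hB : ¬ B := fun h => f1.2.1 ⟨hA, h⟩
    have hD : ¬ D := fun h => f1.2.2.1 ⟨hA, h⟩
    have hC : ¬ C := fun h => f2.2.1 ⟨hA, h⟩
    have hE : ¬ E := fun h => f2.2.2.1 ⟨hA, h⟩
    have hG : G := by
      rcases f3.1 with h | h | h
      · exact absurd h hB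
      · exact absurd h hC
      · exact h
    exact Or.inl ⟨hA, hG, hB, hC, hD, hE⟩
  · by_cases hB : B
    · have hD : ¬ D := fun h => f1.2.2.2 ⟨hB, h⟩
      have hC : ¬ C := fun h => f3.2.1 ⟨hB, h⟩
      have hG : ¬ G := fun h => f3.2.2.1 ⟨hB, h⟩
      have hE : E := by
        rcases f2.1 with h | h | h
        · exact absurd h hA
        · exact absurd h hC
        · exact h
      exact Or.inr (Or.inl ⟨hB, hE, hA, hC, hD, hG⟩)
    · have hD : D := by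
        rcases f1.1 with h | h | h
        · exact absurd h hA
        · exact absurd h hB
        · exact h
      have hE : ¬ E := fun h => f4.2.1 ⟨hD, h⟩
      have hG : ¬ G := fun h => f4.2.2.1 ⟨hD, h⟩
      have hC : C := by
        rcases f2.1 with h | h | h
        · exact absurd h hA
        · exact h
        · exact absurd h hE
      exact Or.inr (Or.inr ⟨hC, hD, hA, hB, hE, hG⟩)

theorem gen {α : Type*} [DecidableEq α] (M : Set (Finset α)) (t : Finset α) (ht : t.card = 4)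
    (h : ∀ f ⊆ t, f.card = 3 → ∃! m : Finset α, m ∈ M ∧ m.card = 2 ∧ m ⊆ f) :
    ∃ x y z w : α, (t : Set α) = {x, y, z, w} ∧
      ∃ m₁ m₂ : Finset α, (m₁ : Set α) = {x, y} ∧ (m₂ : Set α) = {z, w} ∧ m₁ ≠ m₂ ∧
        m₁ ⊆ t ∧ m₂ ⊆ t ∧ m₁.card = 2 ∧ m₂.card = 2 ∧
        ∀ m ⊆ t, m.card = 2 → (m ∈ M ↔ m = m₁ ∨ m = m₂) := by
  obtain ⟨x, s, hx, rfl, hs⟩ := Finset.card_eq_succ.1 ht
  obtain ⟨y, z, w, hyz, hyw, hzw, rfl⟩ := Finset.card_eq_three.1 hs
  simp only [Finset.mem_insert, Finset.mem_singleton, not_or] at hx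
  obtain ⟨hxy, hxz, hxw⟩ := hx
  have e3 : ∀ a b c : α, a ≠ b → a ≠ c → b ≠ c → ({a, b, c} : Finset α).card = 3 := by
    intro a b c h1 h2 h3
    exact Finset.card_eq_three.2 ⟨a, b, c, h1, h2, h3, rfl⟩
  have f1 := face M hxy hxz hyz (h {x, y, z} (by simp [Finset.insert_subset_iff])
    (e3 _ _ _ hxy hxz hyz))
  have f2 := face M hxy hxw hyw (h {x, y, w} (by simp [Finset.insert_subset_iff])
    (e3 _ _ _ hxy hxw hyw))
  have f3 := face M hxz hxw hzw (h {x, z, w} (by simp [Finset.insert_subset_iff])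
    (e3 _ _ _ hxz hxw hzw))
  have f4 := face M hyz hyw hzw (h {y, z, w} (by simp [Finset.insert_subset_iff])
    (e3 _ _ _ hyz hyw hzw))
  have key := prop6 _ _ _ _ _ _ f1 f2 f3 f4
  rcases key with ⟨a, b, c, d, e, g⟩ | ⟨a, b, c, d, e, g⟩ | ⟨a, b, c, d, e, g⟩
  · exact concl M hxy hxz hxw hyz hyw hzw _ rfl a b c d e g
  · refine concl M (x := x) (y := z) (z := y) (w := w) hxz hxy hxw hyz.symm hzw hyw _ ?_
      a b c d ?_ g
    · ext p
      simp only [Finset.mem_insert, Finset.mem_singleton]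
      constructor <;> (rintro (h | h | h | h) <;> simp [h])
    · rwa [Finset.pair_comm]
  · refine concl M (x := x) (y := w) (z := y) (w := z) hxw hxy hxz hyw.symm hzw.symm hyz _ ?_
      a b c d ?_ ?_
    · ext p
      simp only [Finset.mem_insert, Finset.mem_singleton]
      constructor <;> (rintro (h | h | h | h) <;> simp [h])
    · rwa [Finset.pair_comm]
    · rwa [Finset.pair_comm]

theorem marked_pair (M : Set (Finset E3)) (t : Finset E3) (ht : t.card = 4)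
    (h : ∀ f ⊆ t, f.card = 3 → ∃! m : Finset E3, m ∈ M ∧ m.card = 2 ∧ m ⊆ f) :
    ∃ x y z w : E3, (t : Set E3) = {x, y, z, w} ∧
      ∃ m₁ m₂ : Finset E3, (m₁ : Set E3) = {x, y} ∧ (m₂ : Set E3) = {z, w} ∧ m₁ ≠ m₂ ∧
        m₁ ⊆ t ∧ m₂ ⊆ t ∧ m₁.card = 2 ∧ m₂.card = 2 ∧
        ∀ m ⊆ t, m.card = 2 → (m ∈ M ↔ m = m₁ ∨ m = m₂) := by
  classical
  exact gen M t ht h

end BccCov.M

namespace BccCov
export M (marked_pair)
end BccCov
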