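import Pool.Agent.MP_bf7174_co.Defs

set_option autoImplicit false

open scoped InnerProductSpace
open MeasureTheory

namespace BccCov.V

/-- the standard simplex -/
def S3 : Set (Fin 3 → ℝ) := {u | 0 ≤ u 0 ∧ 0 ≤ u 1 ∧ 0 ≤ u 2 ∧ u 0 + u 1 + u 2 ≤ 1}

def S2 (t : ℝ) : Set (ℝ × ℝ) := {p | 0 ≤ p.1 ∧ 0 ≤ p.2 ∧ p.1 + p.2 ≤ t}

def S3' : Set (ℝ × (ℝ × ℝ)) := {p | 0 ≤ p.1 ∧ p.2 ∈ S2 (1 - p.1)}

lemma closed_S2 (t : ℝ) : IsClosed (S2 t) := by
  have h1 : IsClosed {p : ℝ × ℝ | 0 ≤ p.1} := isClosed_le continuous_const continuous_fst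
  have h2 : IsClosed {p : ℝ × ℝ | 0 ≤ p.2} := isClosed_le continuous_const continuous_snd
  have h3 : IsClosed {p : ℝ × ℝ | p.1 + p.2 ≤ t} :=
    isClosed_le (continuous_fst.add continuous_snd) continuous_const
  exact h1.inter (h2.inter h3)

lemma closed_S3' : IsClosed S3' := by
  have h1 : IsClosed {p : ℝ × (ℝ × ℝ) | 0 ≤ p.1} := isClosed_le continuous_const continuous_fst
  have h2 : IsClosed {p : ℝ × (ℝ × ℝ) | 0 ≤ p.2.1} := isClosed_le continuous_const (by fun_prop)
  have h3 : IsClosed {p : ℝ × (ℝ × ℝ) | 0 ≤ p.2.2} := isClosed_le continuous_const (by fun_prop)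
  have h4 : IsClosed {p : ℝ × (ℝ × ℝ) | p.2.1 + p.2.2 ≤ 1 - p.1} :=
    isClosed_le (by fun_prop) (by fun_prop)
  exact h1.inter (h2.inter (h3.inter h4))

lemma vol_S2 (t : ℝ) (ht : 0 ≤ t) : volume (S2 t) = ENNReal.ofReal (t ^ 2 / 2) := by
  rw [Measure.volume_eq_prod, Measure.prod_apply (closed_S2 t).measurableSet]
  have h : ∀ a : ℝ, volume (Prod.mk a ⁻¹' S2 t)
      = (Set.Icc 0 t).indicator (fun a => ENNReal.ofReal (t - a)) a := by
    intro a
    by_cases ha : a ∈ Set.Icc 0 t
    · rw [Set.indicator_of_mem ha]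
      have : Prod.mk a ⁻¹' S2 t = Set.Icc 0 (t - a) := by
        ext c
        simp only [S2, Set.mem_preimage, Set.mem_ofPred_eq, Set.mem_Icc]
        constructor
        · rintro ⟨_, h2, h3⟩
          exact ⟨h2, by linarith⟩
        · rintro ⟨h2, h3⟩
          exact ⟨ha.1, h2, by linarith⟩
      rw [this, Real.volume_Icc, sub_zero]
    · rw [Set.indicator_of_notMem ha]
      have : Prod.mk a ⁻¹' S2 t = ∅ := by
        ext c
        simp only [S2, Set.mem_preimage, Set.mem_ofPred_eq, Set.mem_empty_iff_false, iff_false]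
        rintro ⟨h1, h2, h3⟩
        exact ha ⟨h1, by linarith⟩
      rw [this, measure_empty]
  simp_rw [h]
  rw [lintegral_indicator measurableSet_Icc]
  rw [← ofReal_integral_eq_lintegral_ofReal]
  · congr 1
    rw [integral_Icc_eq_integral_Ioc, ← intervalIntegral.integral_of_le ht]
    have hs := intervalIntegral.integral_comp_sub_left (a := 0) (b := t) (fun x : ℝ => x) t
    rw [hs, sub_self, sub_zero, integral_id]
    ring
  · apply Continuous.integrableOn_Icc
    fun_prop
  · rw [Filter.EventuallyLE, ae_restrict_iff' measurableSet_Icc]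
    filter_upwards with a ha
    exact sub_nonneg.2 ha.2

lemma vol_S3' : volume S3' = ENNReal.ofReal (1 / 6) := by
  rw [Measure.volume_eq_prod, Measure.prod_apply closed_S3'.measurableSet]
  have h : ∀ a : ℝ, volume (Prod.mk a ⁻¹' S3')
      = (Set.Icc 0 1).indicator (fun a => ENNReal.ofReal ((1 - a) ^ 2 / 2)) a := by
    intro a
    by_cases ha : a ∈ Set.Icc (0:ℝ) 1
    · rw [Set.indicator_of_mem ha]
      have : Prod.mk a ⁻¹' S3' = S2 (1 - a) := by
        ext c
        simp only [S3', Set.mem_preimage, Set.mem_ofPred_eq]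
        constructor
        · rintro ⟨_, h2⟩
          exact h2
        · intro h2
          exact ⟨ha.1, h2⟩
      rw [this, vol_S2 _ (sub_nonneg.2 ha.2)]
    · rw [Set.indicator_of_notMem ha]
      have : Prod.mk a ⁻¹' S3' = ∅ := by
        ext c
        simp only [S3', S2, Set.mem_preimage, Set.mem_ofPred_eq, Set.mem_empty_iff_false, iff_false]
        rintro ⟨h1, h2, h3, h4⟩
        exact ha ⟨h1, by linarith⟩
      rw [this, measure_empty]
  simp_rw [h]
  rw [lintegral_indicator measurableSet_Icc]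
  rw [← ofReal_integral_eq_lintegral_ofReal]
  · congr 1
    rw [integral_Icc_eq_integral_Ioc, ← intervalIntegral.integral_of_le zero_le_one]
    rw [intervalIntegral.integral_div, intervalIntegral.integral_comp_sub_left (fun x => x ^ 2)]
    simp
    norm_num
  · apply Continuous.integrableOn_Icc
    fun_prop
  · filter_upwards with a
    positivity

lemma vol_S3 : volume S3 = ENNReal.ofReal (1 / 6) := by
  have e1 := volume_preserving_piFinSuccAbove (fun _ : Fin 3 => ℝ) 0
  have e2 := volume_preserving_finTwoArrow ℝ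
  have e3 : MeasurePreserving (Prod.map (id : ℝ → ℝ) (MeasurableEquiv.finTwoArrow (α := ℝ)))
      (volume : Measure (ℝ × (Fin 2 → ℝ))) (volume : Measure (ℝ × (ℝ × ℝ))) :=
    (MeasurePreserving.id volume).prod e2
  have e4 := e3.comp e1
  rw [← vol_S3', ← e4.measure_preimage closed_S3'.measurableSet.nullMeasurableSet]
  congr 1
  ext u
  simp only [S3, S3', S2, Set.mem_preimage, Set.mem_ofPred_eq, Function.comp_apply, Prod.map_fst,
    Prod.map_snd, id]
  have h0 : ((MeasurableEquiv.piFinSuccAbove (fun _ : Fin 3 => ℝ) 0) u).1 = u 0 := rfl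
  have h1 : (MeasurableEquiv.finTwoArrow
    ((MeasurableEquiv.piFinSuccAbove (fun _ : Fin 3 => ℝ) 0) u).2).1 = u 1 := rfl
  have h2 : (MeasurableEquiv.finTwoArrow
    ((MeasurableEquiv.piFinSuccAbove (fun _ : Fin 3 => ℝ) 0) u).2).2 = u 2 := rfl
  rw [h0, h1, h2]
  constructor
  · rintro ⟨a, b, c, d⟩
    exact ⟨a, b, c, by linarith⟩
  · rintro ⟨a, b, c, d⟩
    exact ⟨a, b, c, by linarith⟩

lemma closed_S3 : IsClosed S3 := by
  have h1 : IsClosed {p : Fin 3 → ℝ | 0 ≤ p 0} := isClosed_le continuous_const (by fun_prop)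
  have h2 : IsClosed {p : Fin 3 → ℝ | 0 ≤ p 1} := isClosed_le continuous_const (by fun_prop)
  have h3 : IsClosed {p : Fin 3 → ℝ | 0 ≤ p 2} := isClosed_le continuous_const (by fun_prop)
  have h4 : IsClosed {p : Fin 3 → ℝ | p 0 + p 1 + p 2 ≤ 1} :=
    isClosed_le (by fun_prop) (by fun_prop)
  exact h1.inter (h2.inter (h3.inter h4))

def T3 : Set E3 := {u | 0 ≤ u 0 ∧ 0 ≤ u 1 ∧ 0 ≤ u 2 ∧ u 0 + u 1 + u 2 ≤ 1}

lemma vol_T3 : volume T3 = ENNReal.ofReal (1 / 6) := by
  rw [← vol_S3]
  have e := EuclideanSpace.volume_preserving_symm_measurableEquiv_toLp (Fin 3)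
  rw [← e.measure_preimage closed_S3.measurableSet.nullMeasurableSet]
  rfl

/-- the linear map -/
noncomputable def LL (a b c : E3) : E3 →ₗ[ℝ] E3 where
  toFun u := u 0 • a + u 1 • b + u 2 • c
  map_add' u v := by
    simp only [PiLp.add_apply, add_smul]
    abel
  map_smul' r u := by
    simp only [PiLp.smul_apply, smul_eq_mul, mul_smul, smul_add, RingHom.id_apply]

lemma LL_apply (a b c u : E3) : LL a b c u = u 0 • a + u 1 • b + u 2 • c := rfl

lemma det_LL (x y z w : E3) : LinearMap.det (LL (y - x) (z - x) (w - x)) = det3 x y z w := by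
  rw [← LinearMap.det_toMatrix (EuclideanSpace.basisFun (Fin 3) ℝ).toBasis, Matrix.det_fin_three]
  simp [LinearMap.toMatrix_apply, LL_apply, det3]
  ring

lemma hull_eq (x y z w : E3) : convexHull ℝ ({x, y, z, w} : Set E3)
    = (fun v => x + v) '' (LL (y - x) (z - x) (w - x) '' T3) := by
  apply Set.Subset.antisymm
  · apply convexHull_min
    · rintro p (rfl | rfl | rfl | rfl)
      · exact ⟨0, ⟨0, by simp [T3], by simp⟩, by simp⟩
      · refine ⟨p - x, ⟨EuclideanSpace.single 0 1, by simp [T3], ?_⟩, by simp⟩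
        simp [LL_apply]
      · refine ⟨p - x, ⟨EuclideanSpace.single 1 1, by simp [T3], ?_⟩, by simp⟩
        simp [LL_apply]
      · refine ⟨p - x, ⟨EuclideanSpace.single 2 1, by simp [T3], ?_⟩, by simp⟩
        simp [LL_apply]
    · have hT : Convex ℝ T3 := by
        intro u hu v hv a b ha hb hab
        obtain ⟨h1, h2, h3, h4⟩ := hu
        obtain ⟨k1, k2, k3, k4⟩ := hv
        refine ⟨?_, ?_, ?_, ?_⟩
        · simp only [PiLp.add_apply, PiLp.smul_apply, smul_eq_mul]
          positivity
        · simp only [PiLp.add_apply, PiLp.smul_apply, smul_eq_mul]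
          positivity
        · simp only [PiLp.add_apply, PiLp.smul_apply, smul_eq_mul]
          positivity
        · simp only [PiLp.add_apply, PiLp.smul_apply, smul_eq_mul]
          have := mul_le_mul_of_nonneg_left h4 ha
          have := mul_le_mul_of_nonneg_left k4 hb
          nlinarith
      exact (hT.linear_image _).translate x
  · rintro _ ⟨_, ⟨u, ⟨h1, h2, h3, h4⟩, rfl⟩, rfl⟩
    have hc := convex_convexHull ℝ ({x, y, z, w} : Set E3)
    have key := hc.sum_mem (t := Finset.univ) (w := ![1 - u 0 - u 1 - u 2, u 0, u 1, u 2])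
      (z := ![x, y, z, w]) (by
        intro i _
        fin_cases i
        · simp only [Fin.zero_eta, Matrix.cons_val_zero]
          linarith
        · exact h1
        · exact h2
        · exact h3) (by
        simp only [Fin.sum_univ_four, Matrix.cons_val_zero, Matrix.cons_val_one, Matrix.cons_val]
        ring) (by
        intro i _
        apply subset_convexHull
        fin_cases i <;> simp)
    convert key using 1
    simp only [Fin.sum_univ_four, LL_apply]
    simp only [Matrix.cons_val_zero, Matrix.cons_val_one, Matrix.cons_val]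
    module

theorem vol_tet (x y z w : E3) :
    volume (convexHull ℝ ({x, y, z, w} : Set E3)) = ENNReal.ofReal (|det3 x y z w| / 6) := by
  rw [hull_eq, Set.image_add_left, measure_preimage_add, Measure.addHaar_image_linearMap, det_LL,
    vol_T3, ← ENNReal.ofReal_mul (abs_nonneg _)]
  congr 1
  ring

end BccCov.V

namespace BccCov
export V (vol_tet)
end BccCov
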