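import Pool.Agent.MP_bf7174_co.Defs
import Pool.Agent.MP_bf7174_co.V
import Pool.Agent.MP_bf7174_co.S
import Pool.Agent.MP_bf7174_co.G6
import Pool.Agent.MP_bf7174_co.A
import Pool.Agent.MP_bf7174_co.C
import Pool.Agent.MP_bf7174_co.L
import Pool.Agent.MP_bf7174_co.E
import Pool.Agent.MP_bf7174_co.M

set_option autoImplicit false

open scoped InnerProductSpace
open MeasureTheory

namespace BccCov.T

open BccCov

theorem cc_pos : 0 < cc := by unfold cc; positivity

open Classical in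
/-- the weight function -/
noncomputable def wt (M : Set (Finset E3)) (r : ℝ) (t m : Finset E3) : ℝ :=
  if m ∈ M then cc * r ^ 3 * (Real.pi / 2 - tdih t m) else 0

theorem NN_mono (X : Set E3) (hfin : ∀ R : ℝ, (X ∩ Metric.closedBall (0 : E3) R).Finite) :
    Monotone (NN X) := by
  intro R R' h
  unfold NN
  exact Set.ncard_le_ncard
    (Set.inter_subset_inter_right X (Metric.closedBall_subset_closedBall h)) (hfin R')

theorem wt_bound (M : Set (Finset E3)) (r : ℝ) (hr : 0 < r) (t m : Finset E3) :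
    |wt M r t m| ≤ cc * r ^ 3 * Real.pi := by
  have hk : 0 < cc * r ^ 3 := mul_pos cc_pos (by positivity)
  have hpi := Real.pi_pos
  unfold wt
  split_ifs with h
  · rw [abs_mul, abs_of_pos hk]
    apply mul_le_mul_of_nonneg_left _ hk.le
    obtain ⟨h1, h2⟩ := tdih_facts.2.1 t m
    rw [abs_le]
    constructor <;> linarith
  · rw [abs_zero]; positivity

theorem hvol {X : Set E3} {r : ℝ} (hr : 0 < r) {D : Set (Finset E3)} {M : Set (Finset E3)}
    (hT : IsTriangulation X D) (hI : ∀ t ∈ D, Inscribed t r)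
    (hM : ∀ t ∈ D, ∀ f ⊆ t, f.card = 3 → ∃! m : Finset E3, m ∈ M ∧ m.card = 2 ∧ m ⊆ f)
    (t : Finset E3) (ht : t ∈ D) :
    (volume (convexHull ℝ (t : Set E3))).toReal
      ≤ 5 * (cc * r ^ 3) + ∑ m ∈ t.powersetCard 2, wt M r t m := by
  obtain ⟨x, y, z, w, hxyzw, m₁, m₂, hm₁, hm₂, hne, hs₁, hs₂, hc₁, hc₂, hmark⟩ :=
    marked_pair M t (hT.card_eq t ht) (hM t ht)
  obtain ⟨o, ρ, hρ, ho⟩ := hI t ht
  have hx : x ∈ t := by rw [← Finset.mem_coe, hxyzw]; simp
  have hy : y ∈ t := by rw [← Finset.mem_coe, hxyzw]; simp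
  have hz : z ∈ t := by rw [← Finset.mem_coe, hxyzw]; simp
  have hw : w ∈ t := by rw [← Finset.mem_coe, hxyzw]; simp
  have hdet := tdih_facts.2.2 x y z w t (hT.card_eq t ht) hxyzw (hT.indep t ht)
  have hloc := local_ineq x y z w o ρ r hρ (ho x hx) (ho y hy) (ho z hz) (ho w hw) hdet
  have h1 : tdih t m₁ = dih x y z w :=
    tdih_facts.1 x y z w t m₁ (hT.card_eq t ht) hm₁ hxyzw
  have h2 : tdih t m₂ = dih z w x y := by
    apply tdih_facts.1 z w x y t m₂ (hT.card_eq t ht) hm₂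
    rw [hxyzw]
    ext v
    simp only [Set.mem_insert_iff, Set.mem_singleton_iff]
    tauto
  rw [hxyzw, vol_tet, ENNReal.toReal_ofReal (by positivity)]
  have hsum : ∑ m ∈ t.powersetCard 2, wt M r t m = wt M r t m₁ + wt M r t m₂ := by
    classical
    have hsub : ({m₁, m₂} : Finset (Finset E3)) ⊆ t.powersetCard 2 := by
      intro m hm
      simp only [Finset.mem_insert, Finset.mem_singleton] at hm
      rw [Finset.mem_powersetCard]
      rcases hm with rfl | rfl
      · exact ⟨hs₁, hc₁⟩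
      · exact ⟨hs₂, hc₂⟩
    rw [← Finset.sum_subset hsub, Finset.sum_pair hne]
    intro m hm hm'
    rw [Finset.mem_powersetCard] at hm
    simp only [Finset.mem_insert, Finset.mem_singleton] at hm'
    unfold wt
    rw [if_neg]
    intro hmM
    exact hm' ((hmark m hm.1 hm.2).1 hmM)
  rw [hsum]
  have hm1 : m₁ ∈ M := (hmark m₁ hs₁ hc₁).2 (Or.inl rfl)
  have hm2 : m₂ ∈ M := (hmark m₂ hs₂ hc₂).2 (Or.inr rfl)
  unfold wt
  rw [if_pos hm1, if_pos hm2, h1, h2]
  calc |det3 x y z w| / 6 ≤ cc * r ^ 3 * (5 + Real.pi - dih x y z w - dih z w x y) := hloc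
    _ = 5 * (cc * r ^ 3) + (cc * r ^ 3 * (Real.pi / 2 - dih x y z w) +
        cc * r ^ 3 * (Real.pi / 2 - dih z w x y)) := by ring

theorem hedge {X : Set E3} {r : ℝ} (hr : 0 < r) {D : Set (Finset E3)} {M : Set (Finset E3)}
    (hT : IsTriangulation X D) (hI : ∀ t ∈ D, Inscribed t r)
    (hfin : ∀ R : ℝ, (X ∩ Metric.closedBall (0 : E3) R).Finite)
    (h4 : ∀ m ∈ M, m.card = 2 → {t | t ∈ D ∧ m ⊆ t}.encard ≤ 4)
    (m : Finset E3) (s : Finset (Finset E3)) (hm : m.card = 2) (hmD : ∃ t ∈ D, m ⊆ t)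
    (hs : ∀ t, t ∈ s ↔ t ∈ D ∧ m ⊆ t) : ∑ t ∈ s, wt M r t m ≤ 0 := by
  have hk : 0 < cc * r ^ 3 := mul_pos cc_pos (by positivity)
  by_cases hmM : m ∈ M
  · have h1 : ∀ t, wt M r t m = cc * r ^ 3 * (Real.pi / 2 - tdih t m) := by
      intro t; unfold wt; rw [if_pos hmM]
    simp only [h1]
    rw [← Finset.mul_sum, Finset.sum_sub_distrib, angle_sum hT hI hfin m hm hmD s hs,
      Finset.sum_const, nsmul_eq_mul]
    have h2 : {t | t ∈ D ∧ m ⊆ t} = (s : Set (Finset E3)) := by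
      ext t
      rw [Set.mem_setOf_eq, Finset.mem_coe, hs t]
    have h3 := h4 m hmM hm
    rw [h2, Set.encard_coe_eq_coe_finsetCard] at h3
    have h5 : s.card ≤ 4 := by exact_mod_cast h3
    have h6 : (s.card : ℝ) ≤ 4 := by exact_mod_cast h5
    have h7 : (s.card : ℝ) * (Real.pi / 2) ≤ 4 * (Real.pi / 2) :=
      mul_le_mul_of_nonneg_right h6 (by positivity)
    apply mul_nonpos_of_nonneg_of_nonpos hk.le
    linarith
  · apply le_of_eq
    apply Finset.sum_eq_zero
    intro t _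
    unfold wt
    rw [if_neg hmM]

theorem vol_ball (R : ℝ) (hR : 0 ≤ R) :
    (volume (Metric.closedBall (0 : E3) R)).toReal = 4 / 3 * Real.pi * R ^ 3 := by
  rw [EuclideanSpace.volume_closedBall_fin_three, ENNReal.toReal_mul, ENNReal.toReal_pow,
    ENNReal.toReal_ofReal hR, ENNReal.toReal_ofReal (by positivity)]
  ring

/-- **[BC3-T]** The main theorem (assembly of all rows). -/
theorem main (X : Set E3) (r : ℝ) (hr : 0 < r) (D : Set (Finset E3)) (M : Set (Finset E3))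
    (hT : IsTriangulation X D) (hI : ∀ t ∈ D, Inscribed t r)
    (hM : ∀ t ∈ D, ∀ f ⊆ t, f.card = 3 → ∃! m : Finset E3, m ∈ M ∧ m.card = 2 ∧ m ⊆ f)
    (h4 : ∀ m ∈ M, m.card = 2 → {t | t ∈ D ∧ m ⊆ t}.encard ≤ 4)
    (h24 : ∀ x ∈ X, {t | t ∈ D ∧ x ∈ t}.encard ≤ 24) :
    ENNReal.ofReal (5 * Real.sqrt 5 * Real.pi / 24) ≤
      Filter.liminf
        (fun R : ℝ =>
          ENat.toENNReal (X ∩ Metric.closedBall (0 : EuclideanSpace ℝ (Fin 3)) R).encard *
            MeasureTheory.volume (Metric.closedBall (0 : EuclideanSpace ℝ (Fin 3)) r) /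
            MeasureTheory.volume (Metric.closedBall (0 : EuclideanSpace ℝ (Fin 3)) R))
        Filter.atTop := by
  apply density_of_bound X r hr
  intro hfin η hη
  have hk : 0 < cc * r ^ 3 := mul_pos cc_pos (by positivity)
  refine lower_density (NN X) (NN_mono X hfin) (30 * cc * r ^ 3) (36 * (cc * r ^ 3 * Real.pi))
    (4 * r) ?_ ?_ (by positivity) ?_ η hη
  · have := hk; nlinarith
  · have := Real.pi_pos; positivity
  · intro R hR
    have h := counting hr hT hI hfin h24 (5 * (cc * r ^ 3)) (cc * r ^ 3 * Real.pi) (by positivity)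
      (by have := Real.pi_pos; positivity) (wt M r) (wt_bound M r hr) (hvol hr hT hI hM)
      (hedge hr hT hI hfin h4) R
    rw [vol_ball R hR] at h
    calc 4 / 3 * Real.pi * R ^ 3 ≤ _ := h
      _ = _ := by ring

end BccCov.T

namespace BccCov
export T (main)
end BccCov
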