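import Pool.Agent.MP_bf7174_co.DefsL
import Pool.Agent.MP_bf7174_co.T
import Pool.Agent.MP_bf7174_co.LA
import Pool.Agent.MP_bf7174_co.LP
import Pool.Agent.MP_bf7174_co.LB
import Pool.Agent.MP_bf7174_co.LK1
import Pool.Agent.MP_bf7174_co.LK2

set_option autoImplicit false

open scoped InnerProductSpace
open MeasureTheory

namespace BccCov.LT

theorem kv_add (x : Fin 3 → ℤ) (σ : Equiv.Perm (Fin 3)) (j : Fin 4) :
    kv x σ j = fun i => x i + kv 0 σ j i := by
  funext i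
  simp [kv]

theorem BB_zero_sub (x y : Fin 3 → ℤ) : BB (fun i => x i - y i) = BB x - BB y := by
  ext i
  fin_cases i <;> simp [BB] <;> ring

theorem BB_coord (x : Fin 3 → ℤ) :
    (BB x) 1 + (BB x) 2 = x 0 ∧ (BB x) 0 + (BB x) 2 = x 1 ∧ (BB x) 0 + (BB x) 1 = x 2 := by
  simp only [BB]
  refine ⟨?_, ?_, ?_⟩ <;> simp <;> ring

theorem coord_le (v : E3) (i : Fin 3) : |v i| ≤ ‖v‖ := by
  have := EuclideanSpace.norm_eq v
  have h := PiLp.norm_apply_le v i
  rwa [Real.norm_eq_abs] at h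

theorem BB_norm (x : Fin 3 → ℤ) (hx : x ≠ 0) : 1 / 2 ≤ ‖BB x‖ := by
  by_contra hcon
  push Not at hcon
  obtain ⟨h0, h1, h2⟩ := BB_coord x
  have c0 := abs_lt.1 ((coord_le (BB x) 0).trans_lt hcon)
  have c1 := abs_lt.1 ((coord_le (BB x) 1).trans_lt hcon)
  have c2 := abs_lt.1 ((coord_le (BB x) 2).trans_lt hcon)
  apply hx
  have e0 : x 0 = 0 := by
    have l1 : (x 0 : ℝ) < 1 := by linarith [c1.2, c2.2]
    have l2 : (-1 : ℝ) < x 0 := by linarith [c1.1, c2.1]
    have l1' : x 0 < 1 := by exact_mod_cast l1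
    have l2' : -1 < x 0 := by exact_mod_cast l2
    omega
  have e1 : x 1 = 0 := by
    have l1 : (x 1 : ℝ) < 1 := by linarith [c0.2, c2.2]
    have l2 : (-1 : ℝ) < x 1 := by linarith [c0.1, c2.1]
    have l1' : x 1 < 1 := by exact_mod_cast l1
    have l2' : -1 < x 1 := by exact_mod_cast l2
    omega
  have e2 : x 2 = 0 := by
    have l1 : (x 2 : ℝ) < 1 := by linarith [c0.2, c1.2]
    have l2 : (-1 : ℝ) < x 2 := by linarith [c0.1, c1.1]
    have l1' : x 2 < 1 := by exact_mod_cast l1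
    have l2' : -1 < x 2 := by exact_mod_cast l2
    omega
  funext i
  fin_cases i
  · exact e0
  · exact e1
  · exact e2

theorem det3_sub (a b c d v : E3) : det3 (a - v) (b - v) (c - v) (d - v) = det3 a b c d := by
  simp only [det3, PiLp.sub_apply]
  ring

theorem affInd_of_det3 (P : Fin 4 → E3) (h : det3 (P 0) (P 1) (P 2) (P 3) ≠ 0) :
    AffineIndependent ℝ P := by
  rw [affineIndependent_iff_of_fintype]
  intro w hw hs
  rw [Finset.weightedVSub_eq_weightedVSubOfPoint_of_sum_eq_zero (h := hw) (b := P 0),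
    Finset.weightedVSubOfPoint_apply] at hs
  simp only [Fin.sum_univ_four, vsub_eq_sub, sub_self, smul_zero, zero_add] at hs hw
  have c0 := congrArg (fun v : E3 => v 0) hs
  have c1 := congrArg (fun v : E3 => v 1) hs
  have c2 := congrArg (fun v : E3 => v 2) hs
  simp only [PiLp.add_apply, PiLp.smul_apply, PiLp.sub_apply, smul_eq_mul, PiLp.zero_apply]
    at c0 c1 c2
  have w1 : w 1 * det3 (P 0) (P 1) (P 2) (P 3) = 0 := by
    rw [det3]
    linear_combination
      ((P 2 1 - P 0 1) * (P 3 2 - P 0 2) - (P 2 2 - P 0 2) * (P 3 1 - P 0 1)) * c0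
      - ((P 2 0 - P 0 0) * (P 3 2 - P 0 2) - (P 2 2 - P 0 2) * (P 3 0 - P 0 0)) * c1
      + ((P 2 0 - P 0 0) * (P 3 1 - P 0 1) - (P 2 1 - P 0 1) * (P 3 0 - P 0 0)) * c2
  have w2 : w 2 * det3 (P 0) (P 1) (P 2) (P 3) = 0 := by
    rw [det3]
    linear_combination
      -((P 1 1 - P 0 1) * (P 3 2 - P 0 2) - (P 1 2 - P 0 2) * (P 3 1 - P 0 1)) * c0
      + ((P 1 0 - P 0 0) * (P 3 2 - P 0 2) - (P 1 2 - P 0 2) * (P 3 0 - P 0 0)) * c1
      - ((P 1 0 - P 0 0) * (P 3 1 - P 0 1) - (P 1 1 - P 0 1) * (P 3 0 - P 0 0)) * c2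
  have w3 : w 3 * det3 (P 0) (P 1) (P 2) (P 3) = 0 := by
    rw [det3]
    linear_combination
      ((P 1 1 - P 0 1) * (P 2 2 - P 0 2) - (P 1 2 - P 0 2) * (P 2 1 - P 0 1)) * c0
      - ((P 1 0 - P 0 0) * (P 2 2 - P 0 2) - (P 1 2 - P 0 2) * (P 2 0 - P 0 0)) * c1
      + ((P 1 0 - P 0 0) * (P 2 1 - P 0 1) - (P 1 1 - P 0 1) * (P 2 0 - P 0 0)) * c2
  have w1' := (mul_eq_zero.1 w1).resolve_right h
  have w2' := (mul_eq_zero.1 w2).resolve_right h
  have w3' := (mul_eq_zero.1 w3).resolve_right h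
  have w0' : w 0 = 0 := by rw [w1', w2', w3'] at hw; linarith
  intro i
  fin_cases i
  · exact w0'
  · exact w1'
  · exact w2'
  · exact w3'

theorem affInd_image (P : Fin 4 → E3) (h : det3 (P 0) (P 1) (P 2) (P 3) ≠ 0) (t : Finset E3)
    (ht : (t : Set E3) = Set.range P) :
    AffineIndependent ℝ (Subtype.val : {x // x ∈ t} → E3) := by
  have h1 := (affInd_of_det3 P h).range
  have h2 : ∀ x : {x // x ∈ t}, x.1 ∈ Set.range P := fun x => by
    rw [← ht]; exact x.2
  have h3 := h1.comp_embedding (⟨fun x : {x // x ∈ t} => (⟨x.1, h2 x⟩ : Set.range P),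
    fun a b hab => by
      have := congrArg Subtype.val hab
      exact Subtype.ext this⟩)
  exact h3

theorem numeric : √5 / 4 + 1 / 10 < √13 / 4 - 1 / 10 ∧ √5 / 4 + 1 / 10 ≤ 1 := by
  have h5 : √5 < 2.24 := by
    rw [Real.sqrt_lt' (by norm_num)]; norm_num
  have h13 : 3.6 < √13 := by
    rw [Real.lt_sqrt (by norm_num)]; norm_num
  constructor <;> linarith

/-- a uniform `ε` for all tetrahedra -/
theorem uniform : ∃ ε : ℝ, 0 < ε ∧ ε ≤ 1 / 20 ∧ ∀ p : (Fin 3 → ℤ) → E3,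
    (∀ x, dist (p x) (BB x) ≤ ε) → ∀ x σ,
      det3 (p (kv x σ 0)) (p (kv x σ 1)) (p (kv x σ 2)) (p (kv x σ 3)) ≠ 0 ∧
      ∃ (o : E3) (ρ : ℝ), ρ ≤ 1 ∧ (∀ j, dist (p (kv x σ j)) o = ρ) ∧
        ∀ y, (∀ j, y ≠ kv x σ j) → ρ < dist (p y) o := by
  obtain ⟨-, -, hadd, hdet, hsph⟩ := bcc_facts
  choose o ho hfar using hsph 0
  have hcp := fun σ => circum_perturb (fun j => BB (kv 0 σ j)) (o σ) (√5 / 4) (ho σ) (hdet 0 σ)
    (1 / 20) (by norm_num)
  choose e he hpert using hcp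
  set ε : ℝ := min (1 / 20) (Finset.univ.inf' Finset.univ_nonempty e) with hε
  refine ⟨ε, ?_, min_le_left _ _, ?_⟩
  · rw [hε, lt_min_iff]
    refine ⟨by norm_num, ?_⟩
    rw [Finset.lt_inf'_iff]
    exact fun σ _ => he σ
  intro p hp x σ
  have hle : ε ≤ e σ := (min_le_right _ _).trans (Finset.inf'_le _ (Finset.mem_univ σ))
  have hbb : ∀ y : Fin 3 → ℤ, BB (fun i => x i + y i) = BB x + BB y := fun y => hadd x y
  have h1 : ∀ j, dist (p (kv x σ j) - BB x) (BB (kv 0 σ j)) ≤ e σ := by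
    intro j
    have h2 : dist (p (kv x σ j) - BB x) (BB (kv 0 σ j)) = dist (p (kv x σ j)) (BB (kv x σ j)) := by
      rw [dist_eq_norm, dist_eq_norm]
      congr 1
      have h3 : BB (kv x σ j) = BB x + BB (kv 0 σ j) := by
        rw [kv_add x σ j]; exact hbb _
      rw [h3]; abel
    rw [h2]
    exact (hp _).trans hle
  obtain ⟨hd, o', ρ', hoo, hdist⟩ := hpert σ (fun j => p (kv x σ j) - BB x) h1
  refine ⟨?_, o' + BB x, ρ', ?_, ?_, ?_⟩
  · rwa [det3_sub] at hd
  · have h4 := hdist 0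
    have h5 : dist (p (kv x σ 0) - BB x) o' ≤ dist (p (kv x σ 0) - BB x) (BB (kv 0 σ 0)) +
        dist (BB (kv 0 σ 0)) (o σ) + dist (o σ) o' := dist_triangle4 _ _ _ _
    have h6 : dist (p (kv x σ 0) - BB x) (BB (kv 0 σ 0)) = dist (p (kv x σ 0)) (BB (kv x σ 0)) := by
      rw [dist_eq_norm, dist_eq_norm]
      congr 1
      have h3 : BB (kv x σ 0) = BB x + BB (kv 0 σ 0) := by
        rw [kv_add x σ 0]; exact hbb _
      rw [h3]; abel
    rw [h4, h6, ho σ 0, dist_comm (o σ) o'] at h5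
    have h7 := hp (kv x σ 0)
    have h8 : ε ≤ 1 / 20 := min_le_left _ _
    linarith [numeric.2]
  · intro j
    rw [← hdist j, dist_eq_norm, dist_eq_norm]
    congr 1
    abel
  · intro y hy
    set z : Fin 3 → ℤ := fun i => y i - x i with hz
    have hz' : ∀ j, z ≠ kv 0 σ j := by
      intro j hj
      apply hy j
      rw [kv_add x σ j, ← hj]
      funext i
      simp [hz]
    have h9 := hfar σ z hz'
    have h10 : BB z = BB y - BB x := BB_zero_sub y x
    have h4 := hdist 0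
    have h5 : dist (p (kv x σ 0) - BB x) o' ≤ dist (p (kv x σ 0) - BB x) (BB (kv 0 σ 0)) +
        dist (BB (kv 0 σ 0)) (o σ) + dist (o σ) o' := dist_triangle4 _ _ _ _
    have h6 : dist (p (kv x σ 0) - BB x) (BB (kv 0 σ 0)) = dist (p (kv x σ 0)) (BB (kv x σ 0)) := by
      rw [dist_eq_norm, dist_eq_norm]
      congr 1
      have h3 : BB (kv x σ 0) = BB x + BB (kv 0 σ 0) := by
        rw [kv_add x σ 0]; exact hbb _
      rw [h3]; abel
    rw [h4, h6, ho σ 0, dist_comm (o σ) o'] at h5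
    have h7 := hp (kv x σ 0)
    have h8 : ε ≤ 1 / 20 := min_le_left _ _
    have h11 : dist (BB z) (o σ) ≤ dist (BB z) (p y - BB x) + dist (p y - BB x) o' +
        dist o' (o σ) := dist_triangle4 _ _ _ _
    have h12 : dist (BB z) (p y - BB x) = dist (p y) (BB y) := by
      rw [h10, dist_comm, dist_eq_norm, dist_eq_norm]
      congr 1
      abel
    have h13 : dist (p y - BB x) o' = dist (p y) (o' + BB x) := by
      rw [dist_eq_norm, dist_eq_norm]
      congr 1
      abel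
    have h14 := hp y
    rw [h12, h13] at h11
    linarith [numeric.1]

theorem local_opt : ∃ ε : ℝ, 0 < ε ∧ ∀ u : E3 → E3, (∀ v ∈ bcc, ‖u v‖ ≤ ε) →
    ∀ r : ℝ, 0 < r →
      (⋃ c ∈ (fun v => v + u v) '' bcc, Metric.closedBall c r) = Set.univ →
      ENNReal.ofReal (5 * Real.sqrt 5 * Real.pi / 24) ≤
        Filter.liminf
          (fun R : ℝ =>
            ENat.toENNReal (((fun v => v + u v) '' bcc) ∩
                Metric.closedBall (0 : EuclideanSpace ℝ (Fin 3)) R).encard *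
              MeasureTheory.volume (Metric.closedBall (0 : EuclideanSpace ℝ (Fin 3)) r) /
              MeasureTheory.volume (Metric.closedBall (0 : EuclideanSpace ℝ (Fin 3)) R))
          Filter.atTop := by
  classical
  obtain ⟨ε, hε, hε20, huni⟩ := uniform
  refine ⟨ε, hε, fun u hu r hr hcov => ?_⟩
  obtain ⟨hbcc, hinj, -, -, -⟩ := bcc_facts
  set p : (Fin 3 → ℤ) → E3 := fun x => BB x + u (BB x) with hp
  have hpd : ∀ x, dist (p x) (BB x) ≤ ε := by
    intro x
    have : p x - BB x = u (BB x) := by simp [hp]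
    rw [dist_eq_norm, this]
    exact hu _ ((hbcc _).2 ⟨x, rfl⟩)
  have hpinj : Function.Injective p := by
    intro x y hxy
    by_contra hne
    have h1 : (fun i => x i - y i) ≠ (0 : Fin 3 → ℤ) := by
      intro h0
      apply hne
      funext i
      have := congrFun h0 i
      simp only [Pi.zero_apply] at this
      omega
    have h2 := BB_norm _ h1
    rw [BB_zero_sub, ← dist_eq_norm] at h2
    have h3 : dist (BB x) (BB y) ≤ dist (BB x) (p x) + dist (p x) (BB y) := dist_triangle _ _ _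
    have h4 := hpd x
    have h5 := hpd y
    rw [dist_comm] at h4
    rw [hxy] at h3 h4
    linarith
  set X : Set E3 := (fun v => v + u v) '' bcc with hX
  have hXr : X = Set.range p := by
    ext v
    constructor
    · rintro ⟨w, hw, rfl⟩
      obtain ⟨x, rfl⟩ := (hbcc w).1 hw
      exact ⟨x, rfl⟩
    · rintro ⟨x, rfl⟩
      exact ⟨BB x, (hbcc _).2 ⟨x, rfl⟩, rfl⟩
  have hfin : ∀ R : ℝ, (X ∩ Metric.closedBall (0 : E3) R).Finite := by
    intro R
    obtain ⟨N, hN⟩ := exists_nat_gt (2 * (R + 1))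
    have hbox : (Set.pi Set.univ (fun _ : Fin 3 => Set.Icc (-(N : ℤ)) N)).Finite :=
      Set.Finite.pi fun _ => Set.finite_Icc _ _
    refine (hbox.image p).subset ?_
    rintro v ⟨hv, hvR⟩
    rw [hXr] at hv
    obtain ⟨x, rfl⟩ := hv
    refine ⟨x, ?_, rfl⟩
    rw [mem_closedBall_zero_iff] at hvR
    have h1 : ‖BB x‖ ≤ R + 1 := by
      have h2 : ‖BB x‖ ≤ ‖p x‖ + ‖p x - BB x‖ := by
        have : BB x = p x - (p x - BB x) := by abel
        calc ‖BB x‖ = ‖p x - (p x - BB x)‖ := by rw [← this]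
          _ ≤ _ := norm_sub_le _ _
      have h3 := hpd x
      rw [dist_eq_norm] at h3
      linarith
    obtain ⟨e0, e1, e2⟩ := BB_coord x
    have c0 := abs_le.1 ((coord_le (BB x) 0).trans h1)
    have c1 := abs_le.1 ((coord_le (BB x) 1).trans h1)
    have c2 := abs_le.1 ((coord_le (BB x) 2).trans h1)
    intro i _
    fin_cases i
    · have l1 : (x 0 : ℝ) ≤ N := by linarith [c1.2, c2.2]
      have l2 : (-(N : ℝ)) ≤ x 0 := by linarith [c1.1, c2.1]
      exact ⟨by exact_mod_cast l2, by exact_mod_cast l1⟩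
    · have l1 : (x 1 : ℝ) ≤ N := by linarith [c0.2, c2.2]
      have l2 : (-(N : ℝ)) ≤ x 1 := by linarith [c0.1, c2.1]
      exact ⟨by exact_mod_cast l2, by exact_mod_cast l1⟩
    · have l1 : (x 2 : ℝ) ≤ N := by linarith [c0.2, c1.2]
      have l2 : (-(N : ℝ)) ≤ x 2 := by linarith [c0.1, c1.1]
      exact ⟨by exact_mod_cast l2, by exact_mod_cast l1⟩
  obtain ⟨kc1, kc2, kc3, kc4⟩ := kuhn_counts p hpinj
  have hmemt : ∀ x σ v, v ∈ ktet p x σ ↔ ∃ j, p (kv x σ j) = v := by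
    intro x σ v
    simp [ktet]
  have hcoe : ∀ x σ, (ktet p x σ : Set E3) = Set.range fun j => p (kv x σ j) := by
    intro x σ
    ext v
    rw [Finset.mem_coe, hmemt]
    rfl
  have hT : IsTriangulation X (KD p) := by
    refine delaunay_tiles X (KD p) 1 hfin ⟨ktet p 0 1, 0, 1, rfl⟩ kc1 ?_ ?_ ?_ kc2
    · rintro t ⟨x, σ, rfl⟩
      exact affInd_image (fun j => p (kv x σ j)) (huni p hpd x σ).1 _ (hcoe x σ)
    · rintro t ⟨x, σ, rfl⟩ v hv
      obtain ⟨j, rfl⟩ := (hmemt x σ v).1 hv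
      rw [hXr]
      exact ⟨_, rfl⟩
    · rintro t ⟨x, σ, rfl⟩
      obtain ⟨-, o, ρ, hρ1, ho, hfar⟩ := huni p hpd x σ
      refine ⟨o, ρ, hρ1, ?_, ?_⟩
      · intro v hv
        obtain ⟨j, rfl⟩ := (hmemt x σ v).1 hv
        exact ho j
      · intro v hv hvt
        rw [hXr] at hv
        obtain ⟨y, rfl⟩ := hv
        apply hfar
        intro j hj
        exact hvt ((hmemt x σ _).2 ⟨j, by rw [hj]⟩)
  refine main X r hr (KD p) (KM p) hT ?_ (kuhn_marked p hpinj) ?_ ?_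
  · rintro t ⟨x, σ, rfl⟩
    obtain ⟨-, o, ρ, hρ1, ho, hfar⟩ := huni p hpd x σ
    refine ⟨o, ρ, ?_, ?_⟩
    · have h1 : o ∈ ⋃ c ∈ X, Metric.closedBall c r := by rw [hcov]; trivial
      simp only [Set.mem_iUnion, exists_prop] at h1
      obtain ⟨c, hc, hoc⟩ := h1
      rw [hXr] at hc
      obtain ⟨y, rfl⟩ := hc
      rw [Metric.mem_closedBall, dist_comm] at hoc
      by_cases hy : ∃ j, y = kv x σ j
      · obtain ⟨j, rfl⟩ := hy
        rw [← ho j]
        exact hoc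
      · push Not at hy
        exact ((hfar y hy).le).trans hoc
    · intro v hv
      obtain ⟨j, rfl⟩ := (hmemt x σ v).1 hv
      exact ho j
  · intro m hm _
    exact kc3 m hm
  · intro v hv
    rw [hXr] at hv
    obtain ⟨y, rfl⟩ := hv
    exact kc4 y

end BccCov.LT

namespace BccCov
export LT (local_opt)
end BccCov
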